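import Mathlib

/-!
Definitions for MP_185e9d_co (S07391).
-/

set_option autoImplicit false
open scoped BigOperators
open Finset

namespace Pool.Agent.Tri

/-- Probability weights on a finite type. -/
structure IsProb {α : Type*} [Fintype α] (p : α → ℝ) : Prop where
  nonneg : ∀ x, 0 ≤ p x
  sum_one : ∑ x, p x = 1

/-- Upper regularity of the kernel `t` on all rectangles. -/
def Reg {α β : Type*} (p : α → ℝ) (q : β → ℝ) (t : α → β → ℝ) (η : ℝ) : Prop :=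
  ∀ (A : Finset α) (B : Finset β),
    ∑ x ∈ A, ∑ y ∈ B, p x * q y * t x y ≤ ((∑ x ∈ A, p x) * (∑ y ∈ B, q y)) ^ (1 - η)

/-- the numerical hypotheses -/
structure Params (m : ℕ) (M η u δ βr : ℝ) (k j s : ℕ) : Prop where
  hM : 2 ≤ M
  hη0 : 0 < η
  hη1 : η ≤ 1 / 40
  hk : Even k
  hk2 : 2 ≤ k
  hj : 1 ≤ j
  hs : 1 ≤ s
  hu : 0 < u
  hu1 : u + 40 * η ≤ 1
  htail : M ^ (2 * k + 1) * ((1 + 20 * η) / (1 + u)) ^ (1 / η) ≤ u ^ k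
  hδ : 0 < δ
  hδ2 : 6 * (u + 40 * η) ^ (k - 1) / δ ^ k ≤ 1 / (20 * M)
  hjδ : j * (δ + 40 * η) ≤ 1 / 2
  hjη : 2 * j * η ≤ 1
  hβ : 0 < βr
  hred : 2 * j * (M ^ 4 * βr) ≤ 1 / 16
  hinj : M ^ (2 * j + 1) * (j ^ 2 * (M ^ (1 / η) / m)) ≤ 1 / 16
  hkst : ((s : ℝ) ^ 2 + s) * (8 * M ^ (2 * j + 1) * (M ^ (1 / η) / m)) ≤
    (1 / (8 * M * (1 + 4 * (M * Real.exp 20)))) ^ s

/-- the set of triangles -/
def Tri {α β γ : Type*} [Fintype α] [Fintype β] [Fintype γ] [DecidableEq α] [DecidableEq β]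
    [DecidableEq γ]
    (P1 : Finset (α × β)) (P2 : Finset (α × γ)) (P3 : Finset (β × γ)) : Finset (α × β × γ) :=
  univ.filter (fun e => (e.1, e.2.1) ∈ P1 ∧ (e.1, e.2.2) ∈ P2 ∧ (e.2.1, e.2.2) ∈ P3)

end Pool.Agent.Tri
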