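import Pool.Agent.Helper40_Tri.Defs

/-!
T1: the weak type bound (MP_185e9d_co).
-/

set_option autoImplicit false
open scoped BigOperators
open Finset

namespace Pool.Agent.Tri

section Analytic

variable {α β γ : Type*} [Fintype α] [Fintype β] [Fintype γ]

/-- T1: weak type bound. -/
theorem weak_type (p : α → ℝ) (q : β → ℝ) (t : α → β → ℝ) (hp : IsProb p) (hq : IsProb q)
    (M η v : ℝ) (hM : 1 ≤ M) (hη0 : 0 < η) (hη1 : η < 1) (hv : 0 ≤ v)
    (ht0 : ∀ x y, 0 ≤ t x y) (hreg : Reg p q t η)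
    (f : α → ℝ) (hf0 : ∀ x, 0 ≤ f x) (hfM : ∀ x, f x ≤ M) (hf1 : ∑ x, p x * f x ≤ 1 + v)
    (B : Finset β) (u : ℝ) (hu : 0 < u) (hB : ∀ y ∈ B, u ≤ ∑ x, p x * (t x y * f x)) :
    ∑ y ∈ B, q y ≤ M * ((1 + v) / u) ^ (1 / η) := by
  classical
  set μ := ∑ y ∈ B, q y with hμ
  have hμ0 : 0 ≤ μ := Finset.sum_nonneg fun y _ => hq.nonneg y
  have hM0 : 0 < M := by linarith
  rcases hμ0.eq_or_lt with h0 | hpos
  · rw [← h0]; positivity
  set g : α → ℝ := fun x => ∑ y ∈ B, q y * t x y with hg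
  have hg0 : ∀ x, 0 ≤ g x := fun x =>
    Finset.sum_nonneg fun y _ => mul_nonneg (hq.nonneg y) (ht0 x y)
  have h1 : u * μ ≤ ∑ x, p x * (f x * g x) := by
    have h : ∑ y ∈ B, q y * u ≤ ∑ y ∈ B, q y * ∑ x, p x * (t x y * f x) :=
      Finset.sum_le_sum fun y hy => mul_le_mul_of_nonneg_left (hB y hy) (hq.nonneg y)
    calc u * μ = ∑ y ∈ B, q y * u := by
          rw [hμ, Finset.mul_sum]; exact Finset.sum_congr rfl fun y _ => mul_comm _ _
      _ ≤ _ := h
      _ = ∑ x, p x * (f x * g x) := by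
        simp_rw [hg, Finset.mul_sum]
        rw [Finset.sum_comm]
        refine Finset.sum_congr rfl fun x _ => Finset.sum_congr rfl fun y _ => by ring
  have hMη : 0 < M ^ η := Real.rpow_pos_of_pos hM0 _
  have hμη : 0 < μ ^ (1 - η) := Real.rpow_pos_of_pos hpos _
  set a : ℝ := μ ^ (1 - η) * ((1 - η) * M ^ η) with ha
  have ha0 : 0 ≤ a := by
    rw [ha]
    have : 0 ≤ 1 - η := by linarith
    positivity
  set S : Finset α := univ.filter (fun x => a < g x) with hS
  set P : ℝ := ∑ x ∈ S, p x with hP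
  have hP0 : 0 ≤ P := Finset.sum_nonneg fun x _ => hp.nonneg x
  -- regularity on `S × B`
  have h2 : M * ∑ x ∈ S, p x * (g x - a) ≤ μ ^ (1 - η) * (η * M ^ η) := by
    have e1 : ∑ x ∈ S, p x * (g x - a) = (∑ x ∈ S, ∑ y ∈ B, p x * q y * t x y) - a * P := by
      rw [hP, Finset.mul_sum, ← Finset.sum_sub_distrib]
      refine Finset.sum_congr rfl fun x _ => ?_
      rw [mul_sub, hg, Finset.mul_sum]
      congr 1
      · refine Finset.sum_congr rfl fun y _ => by ring
      · ring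
    have e2 := hreg S B
    rw [← hμ, ← hP, Real.mul_rpow hP0 hμ0] at e2
    have e3 : P ^ (1 - η) * (M⁻¹) ^ η ≤ (1 - η) * P + η * M⁻¹ :=
      Real.geom_mean_le_arith_mean2_weighted (by linarith) hη0.le hP0 (by positivity) (by ring)
    have e4 : P ^ (1 - η) ≤ ((1 - η) * P + η * M⁻¹) * M ^ η := by
      have : P ^ (1 - η) * (M⁻¹) ^ η * M ^ η ≤ ((1 - η) * P + η * M⁻¹) * M ^ η :=
        mul_le_mul_of_nonneg_right e3 hMη.le
      rw [mul_assoc, Real.inv_rpow hM0.le, inv_mul_cancel₀ hMη.ne', mul_one] at this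
      exact this
    rw [e1]
    have e5 : ∑ x ∈ S, ∑ y ∈ B, p x * q y * t x y ≤
        ((1 - η) * P + η * M⁻¹) * M ^ η * μ ^ (1 - η) :=
      e2.trans (mul_le_mul_of_nonneg_right e4 hμη.le)
    have e6 : (∑ x ∈ S, ∑ y ∈ B, p x * q y * t x y) - a * P ≤
        η * M⁻¹ * M ^ η * μ ^ (1 - η) := by
      rw [ha]; nlinarith [e5]
    calc _ ≤ M * (η * M⁻¹ * M ^ η * μ ^ (1 - η)) := mul_le_mul_of_nonneg_left e6 hM0.le
      _ = μ ^ (1 - η) * (η * M ^ η) := by field_simp
  have h3 : ∑ x, p x * (f x * g x) ≤ a * (1 + v) + M * ∑ x ∈ S, p x * (g x - a) := by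
    have hpt : ∀ x, p x * (f x * g x) ≤ a * (p x * f x) +
        (if x ∈ S then M * (p x * (g x - a)) else 0) := by
      intro x
      have hpx := hp.nonneg x
      have hfx := hf0 x
      by_cases hx : x ∈ S
      · rw [if_pos hx]
        have hx' : a < g x := (Finset.mem_filter.mp hx).2
        have hfx' := hfM x
        have : p x * ((M - f x) * (g x - a)) ≥ 0 :=
          mul_nonneg hpx (mul_nonneg (by linarith) (by linarith))
        nlinarith [this]
      · rw [if_neg hx, add_zero]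
        have hx' : g x ≤ a := by
          by_contra hh
          exact hx (Finset.mem_filter.mpr ⟨Finset.mem_univ _, not_le.mp hh⟩)
        have : p x * (f x * (a - g x)) ≥ 0 :=
          mul_nonneg hpx (mul_nonneg hfx (by linarith))
        nlinarith [this]
    calc ∑ x, p x * (f x * g x) ≤ ∑ x, (a * (p x * f x) +
          (if x ∈ S then M * (p x * (g x - a)) else 0)) := Finset.sum_le_sum fun x _ => hpt x
      _ = a * (∑ x, p x * f x) + M * ∑ x ∈ S, p x * (g x - a) := by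
        rw [Finset.sum_add_distrib, ← Finset.mul_sum]
        congr 1
        rw [Finset.sum_ite_mem, Finset.univ_inter, Finset.mul_sum]
      _ ≤ _ := by
        have := mul_le_mul_of_nonneg_left hf1 ha0
        linarith
  -- conclusion
  have h4 : u * μ ≤ μ ^ (1 - η) * (M ^ η * (1 + v)) := by
    have e0 : 0 ≤ μ ^ (1 - η) * M ^ η * (η * v) := by positivity
    calc u * μ ≤ a * (1 + v) + μ ^ (1 - η) * (η * M ^ η) := by linarith
      _ ≤ μ ^ (1 - η) * (M ^ η * (1 + v)) := by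
        rw [ha]
        nlinarith [e0]
  have h5 : μ ^ (1 - η) * μ ^ η = μ := by
    rw [← Real.rpow_add hpos]; simp
  have h6 : u * μ ^ η ≤ M ^ η * (1 + v) := by
    have : μ ^ (1 - η) * (u * μ ^ η) ≤ μ ^ (1 - η) * (M ^ η * (1 + v)) := by
      calc _ = u * (μ ^ (1 - η) * μ ^ η) := by ring
        _ = u * μ := by rw [h5]
        _ ≤ _ := h4
    exact le_of_mul_le_mul_left this hμη
  have h7 : μ ^ η ≤ M ^ η * ((1 + v) / u) := by
    rw [← mul_div_assoc, le_div_iff₀ hu]; linarith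
  have h8 : (μ ^ η) ^ (1 / η) = μ := by
    rw [← Real.rpow_mul hμ0, mul_one_div_cancel hη0.ne', Real.rpow_one]
  have h9 : (M ^ η) ^ (1 / η) = M := by
    rw [← Real.rpow_mul hM0.le, mul_one_div_cancel hη0.ne', Real.rpow_one]
  calc μ = (μ ^ η) ^ (1 / η) := h8.symm
    _ ≤ (M ^ η * ((1 + v) / u)) ^ (1 / η) :=
      Real.rpow_le_rpow (Real.rpow_nonneg hμ0 _) h7 (by positivity)
    _ = M * ((1 + v) / u) ^ (1 / η) := by
      rw [Real.mul_rpow hMη.le (by positivity), h9]

end Analytic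

end Pool.Agent.Tri
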