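import Pool.Agent.Helper40_Tri.Defs
import Pool.Agent.Helper40_Tri.T1

/-!
T2: the mass of the vertices of regular degree (MP_185e9d_co).
-/

set_option autoImplicit false
open scoped BigOperators
open Finset

namespace Pool.Agent.Tri

section Analytic

variable {α β γ : Type*} [Fintype α] [Fintype β] [Fintype γ]

/-- `(1+20η)^(1/η) ≥ 400` for `η ≤ 1/40`. -/
lemma t2_bern (η : ℝ) (hη0 : 0 < η) (hη1 : η ≤ 1 / 40) : 400 ≤ (1 + 20 * η) ^ (1 / η) := by
  have h1 : (1 : ℝ) ≤ 1 / (3 * η) := by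
    rw [le_div_iff₀ (by positivity)]; linarith
  have h2 : 1 + 1 / (3 * η) * (20 * η) ≤ (1 + 20 * η) ^ (1 / (3 * η)) :=
    one_add_mul_self_le_rpow_one_add (by linarith) h1
  have h3 : 1 + 1 / (3 * η) * (20 * η) = 23 / 3 := by field_simp; norm_num
  rw [h3] at h2
  have h4 : (1 + 20 * η) ^ (1 / η) = ((1 + 20 * η) ^ (1 / (3 * η))) ^ 3 := by
    rw [← Real.rpow_natCast, ← Real.rpow_mul (by positivity)]
    congr 1
    field_simp
    norm_num
  rw [h4]
  calc (400 : ℝ) ≤ (23 / 3) ^ 3 := by norm_num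
    _ ≤ _ := pow_le_pow_left₀ (by norm_num) h2 3

/-- T2: the mass of the vertices of regular degree is at least 9/10. -/
theorem deg_good_mass (p : α → ℝ) (q : β → ℝ) (t : α → β → ℝ) (hp : IsProb p) (hq : IsProb q)
    (η : ℝ) (hη0 : 0 < η) (hη1 : η ≤ 1 / 40)
    (ht0 : ∀ x y, 0 ≤ t x y) (hreg : Reg p q t η)
    (htot : ∑ y, q y * ∑ x, p x * t x y = 1) (S : Finset β)
    (hS : ∀ y, |(∑ x, p x * t x y) - 1| ≤ 20 * η → y ∈ S) :
    9 / 10 ≤ ∑ y ∈ S, q y * ∑ x, p x * t x y := by
  classical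
  set deg : β → ℝ := fun y => ∑ x, p x * t x y with hdeg
  have hdeg0 : ∀ y, 0 ≤ deg y := fun y =>
    Finset.sum_nonneg fun x _ => mul_nonneg (hp.nonneg x) (ht0 x y)
  -- mass of any set
  have hmass : ∀ B : Finset β, ∑ y ∈ B, q y * deg y ≤ (∑ y ∈ B, q y) ^ (1 - η) := by
    intro B
    have := hreg univ B
    rw [hp.sum_one, one_mul] at this
    refine le_trans (le_of_eq ?_) this
    rw [Finset.sum_comm]
    refine Finset.sum_congr rfl fun y _ => ?_
    rw [hdeg, Finset.mul_sum]
    refine Finset.sum_congr rfl fun x _ => by ring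
  set U : Finset β := univ.filter (fun y => 1 + 20 * η < deg y) with hU
  set L : Finset β := univ.filter (fun y => deg y < 1 - 20 * η) with hL
  have hqU0 : 0 ≤ ∑ y ∈ U, q y := Finset.sum_nonneg fun y _ => hq.nonneg y
  have hqL0 : 0 ≤ ∑ y ∈ L, q y := Finset.sum_nonneg fun y _ => hq.nonneg y
  have hU1 : ∑ y ∈ U, q y ≤ 1 / 400 := by
    have h := weak_type p q t hp hq 1 η 0 le_rfl hη0 (by linarith) le_rfl ht0 hreg
      (fun _ => 1) (fun _ => by norm_num) (fun _ => le_rfl) (by simp [hp.sum_one]) U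
      (1 + 20 * η) (by positivity) (by
        intro y hy
        have := (Finset.mem_filter.mp hy).2
        simpa using this.le)
    have h400 := t2_bern η hη0 hη1
    calc ∑ y ∈ U, q y ≤ 1 * ((1 + 0) / (1 + 20 * η)) ^ (1 / η) := h
      _ = 1 / (1 + 20 * η) ^ (1 / η) := by
        rw [add_zero, one_mul, Real.div_rpow (by norm_num) (by positivity), Real.one_rpow]
      _ ≤ 1 / 400 := one_div_le_one_div_of_le (by norm_num) h400
  have hU2 : ∑ y ∈ U, q y * deg y ≤ 1 / 20 := by
    refine (hmass U).trans ?_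
    calc (∑ y ∈ U, q y) ^ (1 - η) ≤ (1 / 400 : ℝ) ^ (1 - η) :=
          Real.rpow_le_rpow hqU0 hU1 (by linarith)
      _ ≤ (1 / 400 : ℝ) ^ (1 / 2 : ℝ) :=
          Real.rpow_le_rpow_of_exponent_ge (by norm_num) (by norm_num) (by linarith)
      _ = 1 / 20 := by
          rw [← Real.sqrt_eq_rpow, show (1 / 400 : ℝ) = (1 / 20) ^ 2 by norm_num]
          exact Real.sqrt_sq (by norm_num)
  -- lower part
  have hL1 : 20 * η * ∑ y ∈ L, q y ≤ η := by
    set D : Finset β := univ.filter (fun y => 1 < deg y) with hD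
    have hqD0 : 0 ≤ ∑ y ∈ D, q y := Finset.sum_nonneg fun y _ => hq.nonneg y
    have e1 : ∑ y ∈ D, q y * deg y - ∑ y ∈ D, q y ≤ η := by
      have h := hmass D
      have e3 : (∑ y ∈ D, q y) ^ (1 - η) * (1 : ℝ) ^ η ≤ (1 - η) * (∑ y ∈ D, q y) + η * 1 :=
        Real.geom_mean_le_arith_mean2_weighted (by linarith) hη0.le hqD0 (by norm_num) (by ring)
      rw [Real.one_rpow, mul_one, mul_one] at e3
      nlinarith [mul_nonneg hη0.le hqD0]
    have e2 : 20 * η * ∑ y ∈ L, q y ≤ ∑ y ∈ L, q y * (1 - deg y) := by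
      rw [Finset.mul_sum]
      refine Finset.sum_le_sum fun y hy => ?_
      have := (Finset.mem_filter.mp hy).2
      have hq0 := hq.nonneg y
      nlinarith
    have hLD : Disjoint L D := by
      rw [Finset.disjoint_left]
      intro y hy hy'
      have h1 := (Finset.mem_filter.mp hy).2
      have h2 := (Finset.mem_filter.mp hy').2
      linarith
    have e4 : ∑ y ∈ L, q y * (1 - deg y) + ∑ y ∈ D, q y * (1 - deg y) ≤
        ∑ y, q y * (1 - deg y) := by
      rw [← Finset.sum_union hLD]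
      refine Finset.sum_le_sum_of_subset_of_nonneg (Finset.subset_univ _) ?_
      intro y _ hy
      have hyD : y ∉ D := fun h => hy (Finset.mem_union_right _ h)
      have : deg y ≤ 1 := by
        by_contra hh
        exact hyD (Finset.mem_filter.mpr ⟨Finset.mem_univ _, not_le.mp hh⟩)
      exact mul_nonneg (hq.nonneg y) (by linarith)
    have e5 : ∑ y, q y * (1 - deg y) = 0 := by
      simp_rw [mul_sub, mul_one]
      rw [Finset.sum_sub_distrib, hq.sum_one, htot, sub_self]
    have e6 : ∑ y ∈ D, q y * (1 - deg y) = ∑ y ∈ D, q y - ∑ y ∈ D, q y * deg y := by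
      simp_rw [mul_sub, mul_one]
      rw [Finset.sum_sub_distrib]
    linarith
  have hL2 : ∑ y ∈ L, q y ≤ 1 / 20 := by
    by_contra hh
    push Not at hh
    nlinarith
  have hL3 : ∑ y ∈ L, q y * deg y ≤ 1 / 20 := by
    refine le_trans (Finset.sum_le_sum (g := fun y => q y) fun y hy => ?_) hL2
    have := (Finset.mem_filter.mp hy).2
    have hq0 := hq.nonneg y
    have : deg y ≤ 1 := by linarith
    nlinarith
  -- total
  have hcover : ∑ y, q y * deg y ≤
      ∑ y ∈ S, q y * deg y + (∑ y ∈ U, q y * deg y + ∑ y ∈ L, q y * deg y) := by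
    have hsub : (univ : Finset β) ⊆ S ∪ (U ∪ L) := by
      intro y _
      by_cases h : |deg y - 1| ≤ 20 * η
      · exact Finset.mem_union_left _ (hS y h)
      · rw [abs_le, not_and_or] at h
        refine Finset.mem_union_right _ ?_
        rcases h with h | h
        · exact Finset.mem_union_right _
            (Finset.mem_filter.mpr ⟨Finset.mem_univ _, by linarith [not_le.mp h]⟩)
        · exact Finset.mem_union_left _
            (Finset.mem_filter.mpr ⟨Finset.mem_univ _, by linarith [not_le.mp h]⟩)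
    have hnn : ∀ y, 0 ≤ q y * deg y := fun y => mul_nonneg (hq.nonneg y) (hdeg0 y)
    have hun : ∀ A B : Finset β, ∑ y ∈ A ∪ B, q y * deg y ≤
        ∑ y ∈ A, q y * deg y + ∑ y ∈ B, q y * deg y := by
      intro A B
      have h1 := Finset.sum_union_inter (s₁ := A) (s₂ := B) (f := fun y => q y * deg y)
      have h2 : 0 ≤ ∑ y ∈ A ∩ B, q y * deg y := Finset.sum_nonneg fun y _ => hnn y
      linarith
    calc ∑ y, q y * deg y ≤ ∑ y ∈ S ∪ (U ∪ L), q y * deg y :=
          Finset.sum_le_sum_of_subset_of_nonneg hsub fun y _ _ => hnn y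
      _ ≤ ∑ y ∈ S, q y * deg y + ∑ y ∈ U ∪ L, q y * deg y :=
          hun _ _
      _ ≤ _ := by
          have := hun U L
          linarith
  have htot' : ∑ y, q y * deg y = 1 := htot
  linarith

end Analytic

end Pool.Agent.Tri
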