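import Pool.Agent.Helper40_Tri.Defs

/-!
Module T3 of MP_185e9d_co: positivity and Cauchy-Schwarz for powers of kernels.
-/

set_option autoImplicit false
open scoped BigOperators
open Finset

namespace Pool.Agent.Tri

section KerPow

variable {α β γ : Type*} [Fintype α] [Fintype β] [Fintype γ]

omit [Fintype β] [Fintype γ] in
theorem ker_pow_expand (p : α → ℝ) (S : Finset β) (S' : Finset γ)
    (q : β → ℝ) (r : γ → ℝ) (a : β → α → ℝ) (b : γ → α → ℝ) (k : ℕ) :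
    (∑ y ∈ S, ∑ z ∈ S', q y * r z * (∑ x, p x * (a y x * b z x)) ^ k) =
      ∑ X : Fin k → α, (∏ i, p (X i)) *
        ((∑ y ∈ S, q y * ∏ i, a y (X i)) * (∑ z ∈ S', r z * ∏ i, b z (X i))) := by
  have h1 : ∀ y z, q y * r z * (∑ x, p x * (a y x * b z x)) ^ k =
      ∑ X : Fin k → α, (∏ i, p (X i)) *
        ((q y * ∏ i, a y (X i)) * (r z * ∏ i, b z (X i))) := by
    intro y z
    rw [Fintype.sum_pow, Finset.mul_sum]
    refine Finset.sum_congr rfl fun X _ => ?_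
    rw [Finset.prod_mul_distrib, Finset.prod_mul_distrib]
    ring
  calc (∑ y ∈ S, ∑ z ∈ S', q y * r z * (∑ x, p x * (a y x * b z x)) ^ k)
      = ∑ y ∈ S, ∑ z ∈ S', ∑ X : Fin k → α, (∏ i, p (X i)) *
        ((q y * ∏ i, a y (X i)) * (r z * ∏ i, b z (X i))) := by
        refine Finset.sum_congr rfl fun y _ => Finset.sum_congr rfl fun z _ => h1 y z
    _ = ∑ y ∈ S, ∑ X : Fin k → α, ∑ z ∈ S', (∏ i, p (X i)) *
        ((q y * ∏ i, a y (X i)) * (r z * ∏ i, b z (X i))) := by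
        refine Finset.sum_congr rfl fun y _ => Finset.sum_comm
    _ = ∑ X : Fin k → α, ∑ y ∈ S, ∑ z ∈ S', (∏ i, p (X i)) *
        ((q y * ∏ i, a y (X i)) * (r z * ∏ i, b z (X i))) := Finset.sum_comm
    _ = _ := by
        refine Finset.sum_congr rfl fun X _ => ?_
        rw [Finset.sum_mul_sum, Finset.mul_sum]
        refine Finset.sum_congr rfl fun y _ => ?_
        rw [Finset.mul_sum]

/-- T3a: positivity. -/
theorem ker_pow_nonneg (p : α → ℝ) (hp : ∀ x, 0 ≤ p x) (S : Finset β) (q : β → ℝ)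
    (a : β → α → ℝ) (k : ℕ) :
    0 ≤ ∑ y ∈ S, ∑ y' ∈ S, q y * q y' * (∑ x, p x * (a y x * a y' x)) ^ k := by
  rw [ker_pow_expand]
  refine Finset.sum_nonneg fun X _ => mul_nonneg (Finset.prod_nonneg fun i _ => hp _) ?_
  exact mul_self_nonneg _

/-- T3b: Cauchy-Schwarz. -/
theorem ker_pow_cs (p : α → ℝ) (hp : ∀ x, 0 ≤ p x) (S : Finset β) (S' : Finset γ)
    (q : β → ℝ) (r : γ → ℝ) (a : β → α → ℝ) (b : γ → α → ℝ) (k : ℕ) :
    (∑ y ∈ S, ∑ z ∈ S', q y * r z * (∑ x, p x * (a y x * b z x)) ^ k) ^ 2 ≤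
      (∑ y ∈ S, ∑ y' ∈ S, q y * q y' * (∑ x, p x * (a y x * a y' x)) ^ k) *
      (∑ z ∈ S', ∑ z' ∈ S', r z * r z' * (∑ x, p x * (b z x * b z' x)) ^ k) := by
  rw [ker_pow_expand, ker_pow_expand, ker_pow_expand]
  have hP : ∀ X : Fin k → α, 0 ≤ ∏ i, p (X i) := fun X => Finset.prod_nonneg fun i _ => hp _
  have key := Finset.sum_mul_sq_le_sq_mul_sq (Finset.univ : Finset (Fin k → α))
    (fun X => Real.sqrt (∏ i, p (X i)) * (∑ y ∈ S, q y * ∏ i, a y (X i)))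
    (fun X => Real.sqrt (∏ i, p (X i)) * (∑ z ∈ S', r z * ∏ i, b z (X i)))
  have e1 : ∀ X : Fin k → α, (∏ i, p (X i)) *
        ((∑ y ∈ S, q y * ∏ i, a y (X i)) * (∑ z ∈ S', r z * ∏ i, b z (X i))) =
      Real.sqrt (∏ i, p (X i)) * (∑ y ∈ S, q y * ∏ i, a y (X i)) *
      (Real.sqrt (∏ i, p (X i)) * (∑ z ∈ S', r z * ∏ i, b z (X i))) := by
    intro X
    have := Real.mul_self_sqrt (hP X)
    calc _ = (Real.sqrt (∏ i, p (X i)) * Real.sqrt (∏ i, p (X i))) *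
        ((∑ y ∈ S, q y * ∏ i, a y (X i)) * (∑ z ∈ S', r z * ∏ i, b z (X i))) := by rw [this]
      _ = _ := by ring
  have e2 : ∀ X : Fin k → α, (∏ i, p (X i)) *
        ((∑ y ∈ S, q y * ∏ i, a y (X i)) * (∑ y ∈ S, q y * ∏ i, a y (X i))) =
      (Real.sqrt (∏ i, p (X i)) * (∑ y ∈ S, q y * ∏ i, a y (X i))) ^ 2 := by
    intro X
    rw [mul_pow, Real.sq_sqrt (hP X)]
    ring
  have e3 : ∀ X : Fin k → α, (∏ i, p (X i)) *
        ((∑ z ∈ S', r z * ∏ i, b z (X i)) * (∑ z ∈ S', r z * ∏ i, b z (X i))) =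
      (Real.sqrt (∏ i, p (X i)) * (∑ z ∈ S', r z * ∏ i, b z (X i))) ^ 2 := by
    intro X
    rw [mul_pow, Real.sq_sqrt (hP X)]
    ring
  rw [Finset.sum_congr rfl fun X _ => e1 X, Finset.sum_congr rfl fun X _ => e2 X,
    Finset.sum_congr rfl fun X _ => e3 X]
  exact key

end KerPow

end Pool.Agent.Tri
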