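import Pool.Agent.Helper40_Tri.Defs
import Pool.Agent.Helper40_Tri.T1
import Pool.Agent.Helper40_Tri.T3

/-!
T4: moment bound for the symmetric kernel.
-/

set_option autoImplicit false
open scoped BigOperators
open Finset

namespace Pool.Agent.Tri

variable {α β γ : Type*} [Fintype α] [Fintype β] [Fintype γ]

theorem ker_expand (p : α → ℝ) (t : α → β → ℝ) (hp : IsProb p) (y y' : β) :
    (∑ x, p x * ((t x y - 1) * (t x y' - 1)))
      = (∑ x, p x * (t x y * t x y')) - (∑ x, p x * t x y) - (∑ x, p x * t x y') + 1 := by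
  have h1 : (∑ x, p x * ((t x y - 1) * (t x y' - 1)))
      = ∑ x, (p x * (t x y * t x y') - p x * t x y - p x * t x y' + p x) := by
    apply Finset.sum_congr rfl
    intro x _
    ring
  rw [h1, Finset.sum_add_distrib, Finset.sum_sub_distrib, Finset.sum_sub_distrib, hp.sum_one]

theorem sym_pointwise (V : ℝ) (k : ℕ) (hk : Even k) (hk2 : 2 ≤ k) (hV : -2 ≤ V) :
    V ^ k ≤ (max V 0) ^ k + 2 * ((max V 0) ^ (k - 1) - V ^ (k - 1)) := by
  rcases le_total 0 V with h | h
  · rw [max_eq_left h]; linarith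
  · rw [max_eq_right h]
    have h1 : k - 1 ≠ 0 := by omega
    have h2 : k ≠ 0 := by omega
    rw [zero_pow h1, zero_pow h2]
    have hodd : Odd (k - 1) := by
      obtain ⟨c, hc⟩ := hk
      exact ⟨c - 1, by omega⟩
    have h3 : V ^ (k - 1) ≤ 0 := hodd.pow_nonpos h
    have h4 : V ^ k = V * V ^ (k - 1) := by
      rw [← pow_succ']; congr 1; omega
    rw [h4]
    nlinarith

/-- upper tail moments of the symmetric kernel -/
theorem sym_upper (p : α → ℝ) (q : β → ℝ) (t : α → β → ℝ) (hp : IsProb p) (hq : IsProb q)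
    (M η v u : ℝ) (k k' : ℕ) (hM : 2 ≤ M) (hη0 : 0 < η) (hη1 : η < 1) (hv : 0 ≤ v)
    (ht0 : ∀ x y, 0 ≤ t x y) (htM : ∀ x y, t x y ≤ M) (hreg : Reg p q t η)
    (S : Finset β) (hS : ∀ y ∈ S, |(∑ x, p x * t x y) - 1| ≤ v)
    (hk' : k - 1 ≤ k') (hk'k : k' ≤ k) (hu : 0 < u) (hu1 : u + 2 * v ≤ 1)
    (htail : M ^ (2 * k + 1) * ((1 + v) / (1 + u)) ^ (1 / η) ≤ u ^ k) :
    ∑ y ∈ S, ∑ y' ∈ S, q y * q y' *
      (max (∑ x, p x * ((t x y - 1) * (t x y' - 1))) 0) ^ k' ≤
      2 * (u + 2 * v) ^ (k - 1) := by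
  classical
  have hw0 : 0 ≤ u + 2 * v := by linarith
  have hM0 : 0 ≤ M := by linarith
  have hM1 : 1 ≤ M := by linarith
  -- the kernel
  have hV : ∀ y y', (∑ x, p x * ((t x y - 1) * (t x y' - 1)))
      = (∑ x, p x * (t x y * t x y')) - (∑ x, p x * t x y) - (∑ x, p x * t x y') + 1 :=
    fun y y' => ker_expand p t hp y y'
  have hNM : ∀ y y', (∑ x, p x * (t x y * t x y')) ≤ M ^ 2 := by
    intro y y'
    calc (∑ x, p x * (t x y * t x y')) ≤ ∑ x, p x * M ^ 2 := by
          apply Finset.sum_le_sum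
          intro x _
          apply mul_le_mul_of_nonneg_left _ (hp.nonneg x)
          rw [sq]
          exact mul_le_mul (htM x y) (htM x y') (ht0 x y') hM0
      _ = M ^ 2 := by rw [← Finset.sum_mul, hp.sum_one, one_mul]
  have hpt : ∀ y ∈ S, ∀ y' ∈ S, (max (∑ x, p x * ((t x y - 1) * (t x y' - 1))) 0) ^ k' ≤
      (u + 2 * v) ^ k' +
        (if 1 + u ≤ ∑ x, p x * (t x y * t x y') then M ^ (2 * k) else 0) := by
    intro y hy y' hy'
    have h1 := abs_le.1 (hS y hy)
    have h2 := abs_le.1 (hS y' hy')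
    split_ifs with hif
    · have h3 : max (∑ x, p x * ((t x y - 1) * (t x y' - 1))) 0 ≤ M ^ 2 := by
        apply max_le _ (by positivity)
        rw [hV]
        have := hNM y y'
        linarith
      calc (max (∑ x, p x * ((t x y - 1) * (t x y' - 1))) 0) ^ k' ≤ (M ^ 2) ^ k' :=
            pow_le_pow_left₀ (le_max_right _ _) h3 _
        _ = M ^ (2 * k') := by rw [← pow_mul]
        _ ≤ M ^ (2 * k) := pow_le_pow_right₀ hM1 (by omega)
        _ ≤ (u + 2 * v) ^ k' + M ^ (2 * k) := by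
          have : 0 ≤ (u + 2 * v) ^ k' := by positivity
          linarith
    · rw [add_zero]
      apply pow_le_pow_left₀ (le_max_right _ _)
      apply max_le _ hw0
      rw [hV]
      push Not at hif
      linarith
  -- the exceptional measure
  have hexc : ∀ y' ∈ S, ∑ y ∈ S, q y *
      (if 1 + u ≤ ∑ x, p x * (t x y * t x y') then M ^ (2 * k) else 0) ≤ u ^ k := by
    intro y' hy'
    have h2 := abs_le.1 (hS y' hy')
    have hB := weak_type p q t hp hq M η v hM1 hη0 hη1 hv ht0 hreg (fun x => t x y')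
      (fun x => ht0 x y') (fun x => htM x y') (by linarith)
      (S.filter (fun y => 1 + u ≤ ∑ x, p x * (t x y * t x y'))) (1 + u) (by linarith)
      (fun y hy => (Finset.mem_filter.1 hy).2)
    calc ∑ y ∈ S, q y * (if 1 + u ≤ ∑ x, p x * (t x y * t x y') then M ^ (2 * k) else 0)
        = (∑ y ∈ S.filter (fun y => 1 + u ≤ ∑ x, p x * (t x y * t x y')), q y) * M ^ (2 * k) := by
          rw [Finset.sum_filter, Finset.sum_mul]
          apply Finset.sum_congr rfl
          intro y _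
          split_ifs <;> simp
      _ ≤ (M * ((1 + v) / (1 + u)) ^ (1 / η)) * M ^ (2 * k) := by
          apply mul_le_mul_of_nonneg_right hB
          positivity
      _ = M ^ (2 * k + 1) * ((1 + v) / (1 + u)) ^ (1 / η) := by ring
      _ ≤ u ^ k := htail
  have hqS : ∑ y ∈ S, q y ≤ 1 := by
    rw [← hq.sum_one]
    exact Finset.sum_le_sum_of_subset_of_nonneg (Finset.subset_univ _) (fun y _ _ => hq.nonneg y)
  have hqS0 : 0 ≤ ∑ y ∈ S, q y := Finset.sum_nonneg (fun y _ => hq.nonneg y)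
  calc ∑ y ∈ S, ∑ y' ∈ S, q y * q y' *
      (max (∑ x, p x * ((t x y - 1) * (t x y' - 1))) 0) ^ k'
      ≤ ∑ y ∈ S, ∑ y' ∈ S, (q y * q y' * (u + 2 * v) ^ k' + q y' * (q y *
        (if 1 + u ≤ ∑ x, p x * (t x y * t x y') then M ^ (2 * k) else 0))) := by
        apply Finset.sum_le_sum
        intro y hy
        apply Finset.sum_le_sum
        intro y' hy'
        calc q y * q y' * (max (∑ x, p x * ((t x y - 1) * (t x y' - 1))) 0) ^ k'
            ≤ q y * q y' * ((u + 2 * v) ^ k' +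
              (if 1 + u ≤ ∑ x, p x * (t x y * t x y') then M ^ (2 * k) else 0)) := by
              apply mul_le_mul_of_nonneg_left (hpt y hy y' hy')
              exact mul_nonneg (hq.nonneg y) (hq.nonneg y')
          _ = _ := by ring
    _ = (∑ y ∈ S, q y) * (∑ y ∈ S, q y) * (u + 2 * v) ^ k' +
        ∑ y' ∈ S, q y' * ∑ y ∈ S, (q y *
          (if 1 + u ≤ ∑ x, p x * (t x y * t x y') then M ^ (2 * k) else 0)) := by
        rw [Finset.sum_congr rfl (fun y _ => Finset.sum_add_distrib)]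
        rw [Finset.sum_add_distrib]
        congr 1
        · rw [Finset.sum_mul_sum, Finset.sum_mul]
          apply Finset.sum_congr rfl
          intro y _
          rw [Finset.sum_mul]
        · rw [Finset.sum_comm]
          apply Finset.sum_congr rfl
          intro y' _
          rw [Finset.mul_sum]
    _ ≤ 1 * (u + 2 * v) ^ k' + ∑ y' ∈ S, q y' * u ^ k := by
        apply add_le_add
        · apply mul_le_mul_of_nonneg_right _ (by positivity)
          nlinarith
        · apply Finset.sum_le_sum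
          intro y' hy'
          exact mul_le_mul_of_nonneg_left (hexc y' hy') (hq.nonneg y')
    _ ≤ (u + 2 * v) ^ (k - 1) + (u + 2 * v) ^ (k - 1) := by
        rw [one_mul]
        apply add_le_add
        · exact pow_le_pow_of_le_one hw0 hu1 hk'
        · rw [← Finset.sum_mul]
          calc (∑ y' ∈ S, q y') * u ^ k ≤ 1 * u ^ k := by
                apply mul_le_mul_of_nonneg_right hqS; positivity
            _ = u ^ k := one_mul _
            _ ≤ (u + 2 * v) ^ k := pow_le_pow_left₀ hu.le (by linarith) _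
            _ ≤ (u + 2 * v) ^ (k - 1) := pow_le_pow_of_le_one hw0 hu1 (by omega)
    _ = 2 * (u + 2 * v) ^ (k - 1) := by ring

/-- T4: moment bound for the symmetric kernel. -/
theorem sym_moment (p : α → ℝ) (q : β → ℝ) (t : α → β → ℝ) (hp : IsProb p) (hq : IsProb q)
    (M η v u : ℝ) (k : ℕ) (hM : 2 ≤ M) (hη0 : 0 < η) (hη1 : η < 1) (hv : 0 ≤ v)
    (ht0 : ∀ x y, 0 ≤ t x y) (htM : ∀ x y, t x y ≤ M) (hreg : Reg p q t η)
    (S : Finset β) (hS : ∀ y ∈ S, |(∑ x, p x * t x y) - 1| ≤ v)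
    (hk : Even k) (hk2 : 2 ≤ k) (hu : 0 < u) (hu1 : u + 2 * v ≤ 1)
    (htail : M ^ (2 * k + 1) * ((1 + v) / (1 + u)) ^ (1 / η) ≤ u ^ k) :
    ∑ y ∈ S, ∑ y' ∈ S, q y * q y' * (∑ x, p x * ((t x y - 1) * (t x y' - 1))) ^ k ≤
      6 * (u + 2 * v) ^ (k - 1) := by
  classical
  have hup1 := sym_upper p q t hp hq M η v u k k hM hη0 hη1 hv ht0 htM hreg S hS
    (by omega) le_rfl hu hu1 htail
  have hup2 := sym_upper p q t hp hq M η v u k (k - 1) hM hη0 hη1 hv ht0 htM hreg S hS
    le_rfl (by omega) hu hu1 htail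
  have hpos := ker_pow_nonneg p hp.nonneg S q (fun y x => t x y - 1) (k - 1)
  have hV : ∀ y y', (∑ x, p x * ((t x y - 1) * (t x y' - 1)))
      = (∑ x, p x * (t x y * t x y')) - (∑ x, p x * t x y) - (∑ x, p x * t x y') + 1 :=
    fun y y' => ker_expand p t hp y y'
  have hVlow : ∀ y ∈ S, ∀ y' ∈ S, -2 ≤ (∑ x, p x * ((t x y - 1) * (t x y' - 1))) := by
    intro y hy y' hy'
    have h1 := abs_le.1 (hS y hy)
    have h2 := abs_le.1 (hS y' hy')
    have h3 : 0 ≤ ∑ x, p x * (t x y * t x y') :=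
      Finset.sum_nonneg (fun x _ => mul_nonneg (hp.nonneg x) (mul_nonneg (ht0 x y) (ht0 x y')))
    rw [hV]
    linarith
  have key : ∑ y ∈ S, ∑ y' ∈ S, q y * q y' * (∑ x, p x * ((t x y - 1) * (t x y' - 1))) ^ k ≤
      ∑ y ∈ S, ∑ y' ∈ S, (q y * q y' * (max (∑ x, p x * ((t x y - 1) * (t x y' - 1))) 0) ^ k
        + 2 * (q y * q y' * (max (∑ x, p x * ((t x y - 1) * (t x y' - 1))) 0) ^ (k - 1))
        - 2 * (q y * q y' * (∑ x, p x * ((t x y - 1) * (t x y' - 1))) ^ (k - 1))) := by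
    apply Finset.sum_le_sum
    intro y hy
    apply Finset.sum_le_sum
    intro y' hy'
    have h1 := sym_pointwise _ k hk hk2 (hVlow y hy y' hy')
    have h2 : 0 ≤ q y * q y' := mul_nonneg (hq.nonneg y) (hq.nonneg y')
    have h3 := mul_le_mul_of_nonneg_left h1 h2
    linarith
  simp only [Finset.sum_sub_distrib, Finset.sum_add_distrib, ← Finset.mul_sum] at key
  linarith

end Pool.Agent.Tri
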