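import Pool.Agent.Helper40_Tri.Defs
import Pool.Agent.Helper40_Tri.T2
import Pool.Agent.Helper40_Tri.T3
import Pool.Agent.Helper40_Tri.T4

/-!
T5: the good pairs carry mass at least 3/4.
-/

set_option autoImplicit false
open scoped BigOperators
open Finset

namespace Pool.Agent.Tri

variable {α β γ : Type*} [Fintype α] [Fintype β] [Fintype γ]

theorem core (p : α → ℝ) (q : β → ℝ) (r : γ → ℝ) (hp : IsProb p) (hq : IsProb q) (hr : IsProb r)
    (t1 : α → β → ℝ) (t2 : α → γ → ℝ) (t3 : β → γ → ℝ)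
    (M η u δ : ℝ) (k : ℕ) (hM : 2 ≤ M) (hη0 : 0 < η) (hη1 : η ≤ 1 / 40)
    (h10 : ∀ x y, 0 ≤ t1 x y) (h1M : ∀ x y, t1 x y ≤ M) (hreg1 : Reg p q t1 η)
    (h20 : ∀ x z, 0 ≤ t2 x z) (h2M : ∀ x z, t2 x z ≤ M) (hreg2 : Reg p r t2 η)
    (h30 : ∀ y z, 0 ≤ t3 y z) (h3M : ∀ y z, t3 y z ≤ M)
    (hd1 : ∀ y, ∑ z, r z * t3 y z = ∑ x, p x * t1 x y)
    (hd2 : ∀ z, ∑ y, q y * t3 y z = ∑ x, p x * t2 x z)
    (htot : ∑ y, q y * ∑ x, p x * t1 x y = 1)
    (hk : Even k) (hk2 : 2 ≤ k) (hu : 0 < u) (hu1 : u + 40 * η ≤ 1)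
    (htail : M ^ (2 * k + 1) * ((1 + 20 * η) / (1 + u)) ^ (1 / η) ≤ u ^ k)
    (hδ : 0 < δ) (hδ2 : 6 * (u + 40 * η) ^ (k - 1) / δ ^ k ≤ 1 / (20 * M))
    (S : Finset β) (S' : Finset γ)
    (hS : ∀ y, y ∈ S ↔ |(∑ x, p x * t1 x y) - 1| ≤ 20 * η)
    (hS' : ∀ z, z ∈ S' ↔ |(∑ x, p x * t2 x z) - 1| ≤ 20 * η)
    (G : Finset (β × γ))
    (hG : ∀ y z, (y, z) ∈ G ↔ y ∈ S ∧ z ∈ S' ∧
      |∑ x, p x * ((t1 x y - 1) * (t2 x z - 1))| ≤ δ) :
    3 / 4 ≤ ∑ e ∈ G, q e.1 * r e.2 * t3 e.1 e.2 := by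
  classical
  set V : β → γ → ℝ := fun y z => ∑ x, p x * ((t1 x y - 1) * (t2 x z - 1)) with hV
  -- total masses
  have htot2 : ∑ z, r z * ∑ x, p x * t2 x z = 1 := by
    calc ∑ z, r z * ∑ x, p x * t2 x z = ∑ z, r z * ∑ y, q y * t3 y z := by
          refine sum_congr rfl fun z _ => ?_
          rw [hd2]
      _ = ∑ y, q y * ∑ z, r z * t3 y z := by
          simp only [mul_sum]
          rw [sum_comm]
          refine sum_congr rfl fun y _ => sum_congr rfl fun z _ => ?_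
          ring
      _ = ∑ y, q y * ∑ x, p x * t1 x y := by
          refine sum_congr rfl fun y _ => ?_
          rw [hd1]
      _ = 1 := htot
  have hA := deg_good_mass p q t1 hp hq η hη0 hη1 h10 hreg1 htot S (fun y hy => (hS y).2 hy)
  have hB := deg_good_mass p r t2 hp hr η hη0 hη1 h20 hreg2 htot2 S' (fun z hz => (hS' z).2 hz)
  -- masses of t3
  set w : β → γ → ℝ := fun y z => q y * r z * t3 y z with hw
  have hw0 : ∀ y z, 0 ≤ w y z := fun y z =>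
    mul_nonneg (mul_nonneg (hq.nonneg y) (hr.nonneg z)) (h30 y z)
  have hrow : ∀ y, ∑ z, w y z = q y * ∑ x, p x * t1 x y := by
    intro y
    rw [← hd1, mul_sum]
    refine sum_congr rfl fun z _ => ?_
    simp only [hw]; ring
  have hcol : ∀ z, ∑ y, w y z = r z * ∑ x, p x * t2 x z := by
    intro z
    rw [← hd2, mul_sum]
    refine sum_congr rfl fun y _ => ?_
    simp only [hw]; ring
  have hall : ∑ y, ∑ z, w y z = 1 := by
    rw [← htot]
    exact sum_congr rfl fun y _ => hrow y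
  have hA' : ∑ y ∈ Sᶜ, ∑ z, w y z ≤ 1 / 10 := by
    have h1 := sum_add_sum_compl S (fun y => ∑ z, w y z)
    have h2 : ∑ y ∈ S, ∑ z, w y z = ∑ y ∈ S, q y * ∑ x, p x * t1 x y :=
      sum_congr rfl fun y _ => hrow y
    rw [hall] at h1
    linarith
  have hall' : ∑ z, ∑ y, w y z = 1 := by rw [sum_comm]; exact hall
  have hB' : ∑ z ∈ S'ᶜ, ∑ y, w y z ≤ 1 / 10 := by
    have h1 := sum_add_sum_compl S' (fun z => ∑ y, w y z)
    have h2 : ∑ z ∈ S', ∑ y, w y z = ∑ z ∈ S', r z * ∑ x, p x * t2 x z :=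
      sum_congr rfl fun z _ => hcol z
    rw [hall'] at h1
    linarith
  have hSS : 8 / 10 ≤ ∑ y ∈ S, ∑ z ∈ S', w y z := by
    have h1 := sum_add_sum_compl S (fun y => ∑ z, w y z)
    rw [hall] at h1
    have h2 : ∑ y ∈ S, ∑ z, w y z = ∑ y ∈ S, ∑ z ∈ S', w y z + ∑ y ∈ S, ∑ z ∈ S'ᶜ, w y z := by
      rw [← sum_add_distrib]
      exact sum_congr rfl fun y _ => (sum_add_sum_compl S' (fun z => w y z)).symm
    have h3 : ∑ y ∈ S, ∑ z ∈ S'ᶜ, w y z ≤ ∑ z ∈ S'ᶜ, ∑ y, w y z := by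
      rw [sum_comm]
      refine sum_le_sum fun z _ => ?_
      exact sum_le_sum_of_subset_of_nonneg (subset_univ S) fun y _ _ => hw0 y z
    linarith
  -- the moment bound
  have hη1' : η < 1 := by linarith
  have hv0 : 0 ≤ 20 * η := by linarith
  have hu1' : u + 2 * (20 * η) ≤ 1 := by linarith
  have m1 := sym_moment p q t1 hp hq M η (20 * η) u k hM hη0 hη1' hv0 h10 h1M hreg1 S
    (fun y hy => (hS y).1 hy) hk hk2 hu hu1' htail
  have m2 := sym_moment p r t2 hp hr M η (20 * η) u k hM hη0 hη1' hv0 h20 h2M hreg2 S'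
    (fun z hz => (hS' z).1 hz) hk hk2 hu hu1' htail
  have hcs := ker_pow_cs p hp.nonneg S S' q r (fun y x => t1 x y - 1) (fun z x => t2 x z - 1) k
  have hW : u + 2 * (20 * η) = u + 40 * η := by ring
  rw [hW] at m1 m2
  set W := 6 * (u + 40 * η) ^ (k - 1) with hWdef
  have hW0 : 0 ≤ W := by rw [hWdef]; positivity
  have hVk : ∑ y ∈ S, ∑ z ∈ S', q y * r z * (V y z) ^ k ≤ W := by
    have h1 : (∑ y ∈ S, ∑ z ∈ S', q y * r z * (V y z) ^ k) ^ 2 ≤ W ^ 2 := by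
      refine hcs.trans ?_
      rw [sq W]
      refine mul_le_mul m1 m2 ?_ hW0
      exact ker_pow_nonneg p hp.nonneg S' r (fun z x => t2 x z - 1) k
    exact abs_le_of_sq_le_sq' h1 hW0 |>.2
  -- bad pairs
  have hδk : 0 < δ ^ k := pow_pos hδ k
  set Bad : Finset (β × γ) := (S ×ˢ S').filter (fun e => δ < |V e.1 e.2|) with hBad
  have hbadm : ∑ e ∈ Bad, q e.1 * r e.2 ≤ 1 / (20 * M) := by
    refine le_trans ?_ hδ2
    rw [le_div_iff₀ hδk, sum_mul]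
    calc ∑ e ∈ Bad, q e.1 * r e.2 * δ ^ k ≤ ∑ e ∈ Bad, q e.1 * r e.2 * (V e.1 e.2) ^ k := by
          refine sum_le_sum fun e he => ?_
          have he' := (mem_filter.1 he).2
          refine mul_le_mul_of_nonneg_left ?_ (mul_nonneg (hq.nonneg _) (hr.nonneg _))
          rw [← hk.pow_abs (V e.1 e.2)]
          exact pow_le_pow_left₀ hδ.le he'.le k
      _ ≤ ∑ e ∈ S ×ˢ S', q e.1 * r e.2 * (V e.1 e.2) ^ k := by
          refine sum_le_sum_of_subset_of_nonneg (filter_subset _ _) fun e _ _ => ?_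
          exact mul_nonneg (mul_nonneg (hq.nonneg _) (hr.nonneg _)) (hk.pow_nonneg _)
      _ = ∑ y ∈ S, ∑ z ∈ S', q y * r z * (V y z) ^ k := by rw [sum_product]
      _ ≤ W := hVk
  have hMpos : 0 < M := by linarith
  have hbad : ∑ e ∈ Bad, w e.1 e.2 ≤ 1 / 20 := by
    calc ∑ e ∈ Bad, w e.1 e.2 ≤ ∑ e ∈ Bad, q e.1 * r e.2 * M := by
          refine sum_le_sum fun e _ => ?_
          exact mul_le_mul_of_nonneg_left (h3M _ _) (mul_nonneg (hq.nonneg _) (hr.nonneg _))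
      _ = (∑ e ∈ Bad, q e.1 * r e.2) * M := by rw [sum_mul]
      _ ≤ 1 / (20 * M) * M := by gcongr
      _ = 1 / 20 := by field_simp
  have hGeq : G = (S ×ˢ S').filter (fun e => ¬ δ < |V e.1 e.2|) := by
    ext ⟨y, z⟩
    rw [hG, mem_filter, mem_product, not_lt]
    tauto
  have hsplit := sum_filter_add_sum_filter_not (S ×ˢ S') (fun e => δ < |V e.1 e.2|)
    (fun e => w e.1 e.2)
  rw [← hGeq, ← hBad, sum_product] at hsplit
  have : ∑ e ∈ G, w e.1 e.2 = ∑ e ∈ G, q e.1 * r e.2 * t3 e.1 e.2 := rfl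
  rw [← this]
  linarith

end Pool.Agent.Tri
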