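import Pool.Agent.Helper40_Tri.Defs

/-!
T6: moment of a variable with polynomial tails.
-/

set_option autoImplicit false
open scoped BigOperators
open Finset

namespace Pool.Agent.Tri

theorem tail_moment {β : Type*} [Fintype β] (q : β → ℝ) (hq : IsProb q) (N : β → ℝ) (hN : ∀ y, 0 ≤ N y)
    (C η : ℝ) (j : ℕ) (hC : 0 ≤ C) (hη0 : 0 < η) (hj : 1 ≤ j) (hjη : 2 * j * η ≤ 1)
    (htail : ∀ u : ℝ, 1 ≤ u → ∑ y ∈ univ.filter (fun y => u ≤ N y), q y ≤ C * (1 / u) ^ (1 / η)) :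
    ∑ y, q y * N y ^ j ≤ 1 + 4 * C := by
  classical
  have hj0 : (0 : ℝ) < j := by exact_mod_cast hj
  have hj0' : j ≠ 0 := by omega
  obtain ⟨L, hL⟩ : ∃ L : ℕ, ∀ y, N y ^ j < 2 ^ L := by
    obtain ⟨L, hL⟩ := pow_unbounded_of_one_lt (∑ y, N y ^ j) (one_lt_two : (1 : ℝ) < 2)
    refine ⟨L, fun y => lt_of_le_of_lt ?_ hL⟩
    exact single_le_sum (f := fun y => N y ^ j) (fun z _ => pow_nonneg (hN z) j) (mem_univ y)
  have key : ∀ y, N y ^ j ≤ 1 + ∑ i ∈ range L,
      (if (2 : ℝ) ^ ((i : ℝ) / j) ≤ N y then (2 : ℝ) ^ (i + 1) else 0) := by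
    intro y
    have hs : 0 ≤ ∑ i ∈ range L,
      (if (2 : ℝ) ^ ((i : ℝ) / j) ≤ N y then (2 : ℝ) ^ (i + 1) else 0) := by
      refine sum_nonneg fun i _ => ?_
      split_ifs
      · positivity
      · exact le_rfl
    rcases le_or_gt 1 (N y ^ j) with h1 | h1
    · obtain ⟨n, hn1, hn2⟩ := exists_nat_pow_near h1 (one_lt_two : (1 : ℝ) < 2)
      have hnL : n < L := by
        have := lt_of_le_of_lt hn1 (hL y)
        exact (pow_lt_pow_iff_right₀ (one_lt_two : (1 : ℝ) < 2)).1 this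
      have hle : (2 : ℝ) ^ ((n : ℝ) / j) ≤ N y := by
        have h2 : ((2 : ℝ) ^ ((n : ℝ) / j)) ^ j = 2 ^ n := by
          rw [← Real.rpow_natCast ((2 : ℝ) ^ ((n : ℝ) / j)) j, ← Real.rpow_mul (by norm_num)]
          rw [div_mul_cancel₀ _ hj0.ne', Real.rpow_natCast]
        have h3 : ((2 : ℝ) ^ ((n : ℝ) / j)) ^ j ≤ N y ^ j := by rw [h2]; exact hn1
        exact le_of_pow_le_pow_left₀ hj0' (hN y) h3
      have h4 : (if (2 : ℝ) ^ ((n : ℝ) / j) ≤ N y then (2 : ℝ) ^ (n + 1) else 0) ≤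
          ∑ i ∈ range L, (if (2 : ℝ) ^ ((i : ℝ) / j) ≤ N y then (2 : ℝ) ^ (i + 1) else 0) := by
        refine single_le_sum (f := fun i : ℕ => (if (2 : ℝ) ^ ((i : ℝ) / j) ≤ N y then (2 : ℝ) ^ (i + 1) else 0))
          (fun i _ => ?_) (mem_range.2 hnL)
        split_ifs
        · positivity
        · exact le_rfl
      rw [if_pos hle] at h4
      linarith
    · linarith
  have hpow : ∀ i : ℕ, (1 / (2 : ℝ) ^ ((i : ℝ) / j)) ^ (1 / η) ≤ (1 / 4) ^ i := by
    intro i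
    have h0 : (1 / (2 : ℝ) ^ ((i : ℝ) / j)) = (2 : ℝ) ^ (-((i : ℝ) / j)) := by
      rw [Real.rpow_neg (by norm_num), one_div]
    rw [h0, ← Real.rpow_mul (by norm_num)]
    have h1 : ((1 : ℝ) / 4) ^ i = (2 : ℝ) ^ (-(2 * (i : ℝ))) := by
      rw [Real.rpow_neg (by norm_num), Real.rpow_mul (by norm_num), Real.rpow_natCast, one_div, inv_pow]
      norm_num
    rw [h1]
    refine Real.rpow_le_rpow_of_exponent_le (by norm_num) ?_
    have h2 : 2 * (i : ℝ) ≤ ((i : ℝ) / j) * (1 / η) := by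
      rw [div_mul_div_comm, mul_one, le_div_iff₀ (by positivity)]
      have : (0 : ℝ) ≤ i := Nat.cast_nonneg i
      nlinarith
    linarith
  calc ∑ y, q y * N y ^ j
      ≤ ∑ y, q y * (1 + ∑ i ∈ range L,
          (if (2 : ℝ) ^ ((i : ℝ) / j) ≤ N y then (2 : ℝ) ^ (i + 1) else 0)) := by
        refine sum_le_sum fun y _ => mul_le_mul_of_nonneg_left (key y) (hq.nonneg y)
    _ = 1 + ∑ i ∈ range L, (2 : ℝ) ^ (i + 1) *
          ∑ y ∈ univ.filter (fun y => (2 : ℝ) ^ ((i : ℝ) / j) ≤ N y), q y := by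
        simp only [mul_add, mul_one, sum_add_distrib, hq.sum_one, mul_sum]
        congr 1
        rw [sum_comm]
        refine sum_congr rfl fun i _ => ?_
        rw [sum_filter]
        refine sum_congr rfl fun y _ => ?_
        split_ifs
        · ring
        · ring
    _ ≤ 1 + ∑ i ∈ range L, (2 : ℝ) ^ (i + 1) * (C * (1 / 4) ^ i) := by
        gcongr with i _
        refine (htail _ ?_).trans ?_
        · exact Real.one_le_rpow (by norm_num) (by positivity)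
        · exact mul_le_mul_of_nonneg_left (hpow i) hC
    _ = 1 + 2 * C * ∑ i ∈ range L, (1 / 2 : ℝ) ^ i := by
        rw [mul_sum]
        congr 1
        refine sum_congr rfl fun i _ => ?_
        have : (2 : ℝ) ^ (i + 1) * (1 / 4) ^ i = 2 * (1 / 2) ^ i := by
          rw [pow_succ, mul_comm ((2 : ℝ) ^ i) 2, mul_assoc, ← mul_pow]
          norm_num
        calc (2 : ℝ) ^ (i + 1) * (C * (1 / 4) ^ i) = C * ((2 : ℝ) ^ (i + 1) * (1 / 4) ^ i) := by ring
          _ = 2 * C * (1 / 2) ^ i := by rw [this]; ring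
    _ ≤ 1 + 2 * C * 2 := by
        gcongr
        have := sum_geometric_two_le L
        simpa using this
    _ = 1 + 4 * C := by ring

end Pool.Agent.Tri
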