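import Pool.Agent.Helper40_Tri.T8

/-! # T7: sampling -/

set_option autoImplicit false
open scoped BigOperators
open Finset

namespace Pool.Agent.Tri

theorem pow_sub_ge (a b : ℝ) (hb : 0 ≤ b) (hab : b ≤ a) (j : ℕ) :
    a ^ j - j * a ^ (j - 1) * b ≤ (a - b) ^ j := by
  induction j with
  | zero => simp
  | succ n ih =>
    rcases Nat.eq_zero_or_pos n with rfl | hn
    · simp
    · have ha : 0 ≤ a := hb.trans hab
      have h1 : a ^ n = a * a ^ (n - 1) := by
        rw [← pow_succ']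
        congr 1
        omega
      have h2 : (a - b) ^ n ≤ a ^ n := pow_le_pow_left₀ (by linarith) (by linarith) n
      have h3 : (a - b) ^ (n + 1) = a * (a - b) ^ n - b * (a - b) ^ n := by
        rw [pow_succ]
        ring
      rw [Nat.add_sub_cancel, h3]
      have h4 : a * (a ^ n - n * a ^ (n - 1) * b) ≤ a * (a - b) ^ n :=
        mul_le_mul_of_nonneg_left ih ha
      have h5 : b * (a - b) ^ n ≤ b * a ^ n := mul_le_mul_of_nonneg_left h2 hb
      have h6 : a * (n * a ^ (n - 1) * b) = n * a ^ n * b := by rw [h1]; ring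
      have h7 : a ^ (n + 1) = a * a ^ n := by rw [pow_succ']
      push_cast
      nlinarith

section

variable {α β γ : Type*} [Fintype α] [Fintype β] [Fintype γ]

/-- The expectation of a product over a random tuple. -/
theorem exp_prod (p : α → ℝ) (f : α → ℝ) (j : ℕ) :
    ∑ X : Fin j → α, (∏ l, p (X l)) * ∏ l, f (X l) = (∑ x, p x * f x) ^ j := by
  rw [Fintype.sum_pow]
  apply Finset.sum_congr rfl
  intro X _
  rw [Finset.prod_mul_distrib]

/-- T7: sampling. -/
theorem sampling (p : α → ℝ) (q : β → ℝ) (r : γ → ℝ) (hp : IsProb p) (hq : IsProb q) (hr : IsProb r)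
    (t1 : α → β → ℝ) (t2 : α → γ → ℝ) (t3 : β → γ → ℝ)
    (M c Q μ lam : ℝ) (j : ℕ) (hM : 1 ≤ M) (hQ : 1 ≤ Q) (hj : 1 ≤ j)
    (h10 : ∀ x y, 0 ≤ t1 x y) (h1M : ∀ x y, t1 x y ≤ M)
    (h20 : ∀ x z, 0 ≤ t2 x z) (h2M : ∀ x z, t2 x z ≤ M)
    (h30 : ∀ y z, 0 ≤ t3 y z) (h3M : ∀ y z, t3 y z ≤ M)
    (hμ : ∀ x, p x ≤ μ)
    (S : Finset β) (S' : Finset γ) (G : Finset (β × γ))
    (hGS : ∀ e ∈ G, e.1 ∈ S ∧ e.2 ∈ S')
    (hG : 3 / 4 ≤ ∑ e ∈ G, q e.1 * r e.2 * t3 e.1 e.2)
    (hGN : ∀ e ∈ G, |(∑ x, p x * (t1 x e.1 * t2 x e.2)) - 1| ≤ c)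
    (hc : 0 ≤ c) (hjc : j * c ≤ 1 / 2)
    (hQm : ∑ y ∈ S, ∑ z ∈ S', q y * r z * (∑ x, p x * (t1 x y * t2 x z)) ^ j ≤ Q)
    (R : α → β → γ → Prop) [∀ x y z, Decidable (R x y z)]
    (hR : ∑ x, ∑ y, ∑ z, (if R x y z then p x * q y * r z * (t1 x y * t2 x z * t3 y z) else 0) ≤ lam)
    (hlam : 2 * j * lam ≤ 1 / 16) (hinj : M ^ (2 * j + 1) * (j ^ 2 * μ) ≤ 1 / 16) :
    ∃ X : Fin j → α, Function.Injective X ∧
      1 / 8 ≤ (∑ e ∈ G.filter (fun e => ∀ i, ¬ R (X i) e.1 e.2),
        q e.1 * r e.2 * t3 e.1 e.2 * ((∏ i, t1 (X i) e.1) * (∏ i, t2 (X i) e.2))) ∧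
      (∑ y ∈ S, q y * ∏ i, t1 (X i) y) * (∑ z ∈ S', r z * ∏ i, t2 (X i) z) / (8 * Q) ≤
        (∑ e ∈ G.filter (fun e => ∀ i, ¬ R (X i) e.1 e.2),
        q e.1 * r e.2 * t3 e.1 e.2 * ((∏ i, t1 (X i) e.1) * (∏ i, t2 (X i) e.2))) := by
  classical
  have hw : ∀ X : Fin j → α, 0 ≤ ∏ l, p (X l) := fun X => Finset.prod_nonneg fun l _ => hp.nonneg _
  have hQ0 : 0 < Q := by linarith
  -- the functionals
  obtain ⟨F, hF⟩ : ∃ F : (Fin j → α) → ℝ, ∀ X, F X =
      ∑ e ∈ G.filter (fun e => ∀ i, ¬ R (X i) e.1 e.2),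
        q e.1 * r e.2 * t3 e.1 e.2 * ((∏ i, t1 (X i) e.1) * (∏ i, t2 (X i) e.2)) := ⟨_, fun _ => rfl⟩
  obtain ⟨D, hD⟩ : ∃ D : (Fin j → α) → ℝ, ∀ X, D X =
      (∑ y ∈ S, q y * ∏ i, t1 (X i) y) * (∑ z ∈ S', r z * ∏ i, t2 (X i) z) := ⟨_, fun _ => rfl⟩
  have hqrt : ∀ e : β × γ, 0 ≤ q e.1 * r e.2 * t3 e.1 e.2 := fun e =>
    mul_nonneg (mul_nonneg (hq.nonneg _) (hr.nonneg _)) (h30 _ _)
  have hp1 : ∀ (X : Fin j → α) (y : β), 0 ≤ ∏ i, t1 (X i) y := fun X y =>
    Finset.prod_nonneg fun i _ => h10 _ _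
  have hp2 : ∀ (X : Fin j → α) (z : γ), 0 ≤ ∏ i, t2 (X i) z := fun X z =>
    Finset.prod_nonneg fun i _ => h20 _ _
  have hF0 : ∀ X, 0 ≤ F X := by
    intro X
    rw [hF]
    exact Finset.sum_nonneg fun e _ => mul_nonneg (hqrt e) (mul_nonneg (hp1 X _) (hp2 X _))
  have hD0 : ∀ X, 0 ≤ D X := by
    intro X
    rw [hD]
    exact mul_nonneg (Finset.sum_nonneg fun y _ => mul_nonneg (hq.nonneg _) (hp1 X _))
      (Finset.sum_nonneg fun z _ => mul_nonneg (hr.nonneg _) (hp2 X _))
  -- upper bound for `F`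
  have hqr1 : ∑ e ∈ G, q e.1 * r e.2 ≤ 1 := by
    calc ∑ e ∈ G, q e.1 * r e.2 ≤ ∑ e : β × γ, q e.1 * r e.2 :=
          Finset.sum_le_sum_of_subset_of_nonneg (Finset.subset_univ _)
            fun e _ _ => mul_nonneg (hq.nonneg _) (hr.nonneg _)
      _ = 1 := by
          rw [Fintype.sum_prod_type]
          simp_rw [← Finset.mul_sum]
          rw [hr.sum_one]
          simp only [mul_one]
          exact hq.sum_one
  have hFM : ∀ X, F X ≤ M ^ (2 * j + 1) := by
    intro X
    rw [hF]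
    calc ∑ e ∈ G.filter (fun e => ∀ i, ¬ R (X i) e.1 e.2),
        q e.1 * r e.2 * t3 e.1 e.2 * ((∏ i, t1 (X i) e.1) * (∏ i, t2 (X i) e.2))
        ≤ ∑ e ∈ G, q e.1 * r e.2 * t3 e.1 e.2 * ((∏ i, t1 (X i) e.1) * (∏ i, t2 (X i) e.2)) :=
          Finset.sum_le_sum_of_subset_of_nonneg (Finset.filter_subset _ _)
            fun e _ _ => mul_nonneg (hqrt e) (mul_nonneg (hp1 X _) (hp2 X _))
      _ ≤ ∑ e ∈ G, q e.1 * r e.2 * M ^ (2 * j + 1) := by
          apply Finset.sum_le_sum
          intro e _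
          have h1 : ∏ i, t1 (X i) e.1 ≤ M ^ j := by
            calc ∏ i, t1 (X i) e.1 ≤ ∏ _i : Fin j, M :=
                  Finset.prod_le_prod (fun i _ => h10 _ _) fun i _ => h1M _ _
              _ = M ^ j := by rw [Finset.prod_const, Finset.card_univ, Fintype.card_fin]
          have h2 : ∏ i, t2 (X i) e.2 ≤ M ^ j := by
            calc ∏ i, t2 (X i) e.2 ≤ ∏ _i : Fin j, M :=
                  Finset.prod_le_prod (fun i _ => h20 _ _) fun i _ => h2M _ _
              _ = M ^ j := by rw [Finset.prod_const, Finset.card_univ, Fintype.card_fin]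
          have h3 : (∏ i, t1 (X i) e.1) * (∏ i, t2 (X i) e.2) ≤ M ^ j * M ^ j :=
            mul_le_mul h1 h2 (hp2 X _) (by positivity)
          have h4 : t3 e.1 e.2 * ((∏ i, t1 (X i) e.1) * (∏ i, t2 (X i) e.2)) ≤ M * (M ^ j * M ^ j) :=
            mul_le_mul (h3M _ _) h3 (mul_nonneg (hp1 X _) (hp2 X _)) (by linarith)
          have h5 : M * (M ^ j * M ^ j) = M ^ (2 * j + 1) := by
            rw [← pow_add, ← pow_succ']
            congr 1
            omega
          rw [h5] at h4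
          rw [mul_assoc]
          exact mul_le_mul_of_nonneg_left h4 (mul_nonneg (hq.nonneg _) (hr.nonneg _))
      _ ≤ M ^ (2 * j + 1) := by
          rw [← Finset.sum_mul]
          have : (0 : ℝ) ≤ M ^ (2 * j + 1) := by positivity
          nlinarith
  -- the expectation of `D`
  have hED : ∑ X : Fin j → α, (∏ l, p (X l)) * D X ≤ Q := by
    refine le_trans (le_of_eq ?_) hQm
    have h1 : ∀ X : Fin j → α, (∏ l, p (X l)) * D X = ∑ y ∈ S, ∑ z ∈ S',
        q y * r z * ((∏ l, p (X l)) * ∏ l, (t1 (X l) y * t2 (X l) z)) := by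
      intro X
      rw [hD, Finset.sum_mul_sum, Finset.mul_sum]
      apply Finset.sum_congr rfl
      intro y _
      rw [Finset.mul_sum]
      apply Finset.sum_congr rfl
      intro z _
      rw [Finset.prod_mul_distrib]
      ring
    simp_rw [h1]
    rw [Finset.sum_comm]
    apply Finset.sum_congr rfl
    intro y _
    rw [Finset.sum_comm]
    apply Finset.sum_congr rfl
    intro z _
    rw [← Finset.mul_sum, exp_prod p (fun x => t1 x y * t2 x z) j]
  -- the expectation of `F`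
  obtain ⟨N, hN⟩ : ∃ N : β × γ → ℝ, ∀ e, N e = ∑ x, p x * (t1 x e.1 * t2 x e.2) := ⟨_, fun _ => rfl⟩
  obtain ⟨NR, hNR⟩ : ∃ NR : β × γ → ℝ, ∀ e, NR e =
      ∑ x, p x * (if R x e.1 e.2 then t1 x e.1 * t2 x e.2 else 0) := ⟨_, fun _ => rfl⟩
  have hNR0 : ∀ e, 0 ≤ NR e := by
    intro e
    rw [hNR]
    apply Finset.sum_nonneg
    intro x _
    apply mul_nonneg (hp.nonneg _)
    split_ifs
    · exact mul_nonneg (h10 _ _) (h20 _ _)
    · exact le_refl _
  have hNRN : ∀ e, NR e ≤ N e := by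
    intro e
    rw [hNR, hN]
    apply Finset.sum_le_sum
    intro x _
    apply mul_le_mul_of_nonneg_left _ (hp.nonneg _)
    split_ifs
    · exact le_refl _
    · exact mul_nonneg (h10 _ _) (h20 _ _)
  have hEF : ∑ X : Fin j → α, (∏ l, p (X l)) * F X =
      ∑ e ∈ G, q e.1 * r e.2 * t3 e.1 e.2 * (N e - NR e) ^ j := by
    have h1 : ∀ X : Fin j → α, (∏ l, p (X l)) * F X = ∑ e ∈ G,
        q e.1 * r e.2 * t3 e.1 e.2 * ((∏ l, p (X l)) *
          ∏ l, (if R (X l) e.1 e.2 then 0 else t1 (X l) e.1 * t2 (X l) e.2)) := by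
      intro X
      rw [hF, Finset.sum_filter, Finset.mul_sum]
      apply Finset.sum_congr rfl
      intro e _
      by_cases h : ∀ i, ¬ R (X i) e.1 e.2
      · rw [if_pos h]
        have h2 : ∏ l, (if R (X l) e.1 e.2 then 0 else t1 (X l) e.1 * t2 (X l) e.2) =
            (∏ i, t1 (X i) e.1) * (∏ i, t2 (X i) e.2) := by
          rw [← Finset.prod_mul_distrib]
          apply Finset.prod_congr rfl
          intro i _
          rw [if_neg (h i)]
        rw [h2]
        ring
      · rw [if_neg h]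
        push Not at h
        obtain ⟨i, hi⟩ := h
        have h2 : ∏ l, (if R (X l) e.1 e.2 then 0 else t1 (X l) e.1 * t2 (X l) e.2) = 0 :=
          Finset.prod_eq_zero (Finset.mem_univ i) (if_pos hi)
        rw [h2]
        ring
    simp_rw [h1]
    rw [Finset.sum_comm]
    apply Finset.sum_congr rfl
    intro e _
    rw [← Finset.mul_sum, exp_prod p (fun x => if R x e.1 e.2 then 0 else t1 x e.1 * t2 x e.2) j]
    congr 2
    rw [hN, hNR, ← Finset.sum_sub_distrib]
    apply Finset.sum_congr rfl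
    intro x _
    split_ifs <;> ring
  have hj1 : (1 : ℝ) ≤ j := by exact_mod_cast hj
  have hc1 : c ≤ 1 / 2 := by nlinarith
  have hlow : ∀ e ∈ G, 1 / 2 - 2 * j * NR e ≤ (N e - NR e) ^ j := by
    intro e he
    have h1 := hGN e he
    rw [← hN, abs_le] at h1
    have hN0 : 0 ≤ N e := (hNR0 e).trans (hNRN e)
    have h2 : 1 / 2 ≤ N e ^ j := by
      calc (1 : ℝ) / 2 ≤ 1 + (j : ℝ) * (-c) := by linarith
        _ ≤ (1 + -c) ^ j := one_add_mul_le_pow (by linarith) j
        _ ≤ N e ^ j := pow_le_pow_left₀ (by linarith) (by linarith) j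
    have h3 : N e ^ (j - 1) ≤ 2 := by
      calc N e ^ (j - 1) ≤ (1 + c) ^ (j - 1) := pow_le_pow_left₀ hN0 (by linarith) _
        _ ≤ (1 + c) ^ j := pow_le_pow_right₀ (by linarith) (by omega)
        _ ≤ (Real.exp c) ^ j := by
            apply pow_le_pow_left₀ (by linarith)
            have := Real.add_one_le_exp c
            linarith
        _ = Real.exp (j * c) := by rw [← Real.exp_nat_mul]
        _ ≤ Real.exp (1 / 2) := Real.exp_le_exp.mpr hjc
        _ ≤ 2 := by
            have h4 : Real.exp (1 / 2) ^ 2 ≤ 2 ^ 2 := by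
              rw [← Real.exp_nat_mul]
              have := Real.exp_one_lt_d9
              norm_num
              linarith
            exact le_of_sq_le_sq h4 (by norm_num)
    have h4 := pow_sub_ge (N e) (NR e) (hNR0 e) (hNRN e) j
    have h5 : (j : ℝ) * N e ^ (j - 1) * NR e ≤ 2 * j * NR e := by
      have h6 : (j : ℝ) * N e ^ (j - 1) ≤ j * 2 := mul_le_mul_of_nonneg_left h3 (by linarith)
      have h7 := mul_le_mul_of_nonneg_right h6 (hNR0 e)
      linarith
    linarith
  have hNRsum : ∑ e ∈ G, q e.1 * r e.2 * t3 e.1 e.2 * NR e ≤ lam := by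
    refine le_trans ?_ hR
    calc ∑ e ∈ G, q e.1 * r e.2 * t3 e.1 e.2 * NR e
        ≤ ∑ e : β × γ, q e.1 * r e.2 * t3 e.1 e.2 * NR e :=
          Finset.sum_le_sum_of_subset_of_nonneg (Finset.subset_univ _)
            fun e _ _ => mul_nonneg (hqrt e) (hNR0 e)
      _ = ∑ e : β × γ, ∑ x, (if R x e.1 e.2 then
          p x * q e.1 * r e.2 * (t1 x e.1 * t2 x e.2 * t3 e.1 e.2) else 0) := by
          apply Finset.sum_congr rfl
          intro e _
          rw [hNR, Finset.mul_sum]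
          apply Finset.sum_congr rfl
          intro x _
          split_ifs <;> ring
      _ = ∑ x, ∑ y, ∑ z, (if R x y z then p x * q y * r z * (t1 x y * t2 x z * t3 y z) else 0) := by
          rw [Finset.sum_comm]
          apply Finset.sum_congr rfl
          intro x _
          rw [Fintype.sum_prod_type]
      _ ≤ _ := le_refl _
  have hEF1 : 5 / 16 ≤ ∑ X : Fin j → α, (∏ l, p (X l)) * F X := by
    rw [hEF]
    have h1 : ∑ e ∈ G, q e.1 * r e.2 * t3 e.1 e.2 * (1 / 2 - 2 * j * NR e) ≤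
        ∑ e ∈ G, q e.1 * r e.2 * t3 e.1 e.2 * (N e - NR e) ^ j :=
      Finset.sum_le_sum fun e he => mul_le_mul_of_nonneg_left (hlow e he) (hqrt e)
    have h2 : ∑ e ∈ G, q e.1 * r e.2 * t3 e.1 e.2 * (1 / 2 - 2 * j * NR e) =
        (1 / 2) * (∑ e ∈ G, q e.1 * r e.2 * t3 e.1 e.2) -
        2 * j * ∑ e ∈ G, q e.1 * r e.2 * t3 e.1 e.2 * NR e := by
      rw [Finset.mul_sum, Finset.mul_sum, ← Finset.sum_sub_distrib]
      apply Finset.sum_congr rfl
      intro e _
      ring
    have h3 : 2 * (j : ℝ) * ∑ e ∈ G, q e.1 * r e.2 * t3 e.1 e.2 * NR e ≤ 2 * j * lam :=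
      mul_le_mul_of_nonneg_left hNRsum (by linarith)
    linarith
  -- non-injective tuples
  have hni : ∑ X ∈ (univ : Finset (Fin j → α)).filter (fun X => ¬ Function.Injective X),
      (∏ l, p (X l)) * F X ≤ 1 / 16 := by
    refine le_trans ?_ hinj
    calc ∑ X ∈ (univ : Finset (Fin j → α)).filter (fun X => ¬ Function.Injective X),
        (∏ l, p (X l)) * F X
        ≤ ∑ X ∈ (univ : Finset (Fin j → α)).filter (fun X => ¬ Function.Injective X),
        (∏ l, p (X l)) * M ^ (2 * j + 1) :=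
          Finset.sum_le_sum fun X _ => mul_le_mul_of_nonneg_left (hFM X) (hw X)
      _ = M ^ (2 * j + 1) * ∑ X ∈ (univ : Finset (Fin j → α)).filter
          (fun X => ¬ Function.Injective X), (∏ l, p (X l)) := by
          rw [← Finset.sum_mul, mul_comm]
      _ ≤ M ^ (2 * j + 1) * ((j : ℝ) ^ 2 * μ) :=
          mul_le_mul_of_nonneg_left (noninj_weight p hp μ hμ j) (by positivity)
  have hsplit := Finset.sum_filter_add_sum_filter_not (univ : Finset (Fin j → α))
    (fun X => Function.Injective X) (fun X => (∏ l, p (X l)) * F X)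
  have hFinj : 1 / 4 ≤ ∑ X ∈ (univ : Finset (Fin j → α)).filter (fun X => Function.Injective X),
      (∏ l, p (X l)) * F X := by linarith
  have hDinj : ∑ X ∈ (univ : Finset (Fin j → α)).filter (fun X => Function.Injective X),
      (∏ l, p (X l)) * D X ≤ Q := by
    refine le_trans ?_ hED
    exact Finset.sum_le_sum_of_subset_of_nonneg (Finset.filter_subset _ _)
      fun X _ _ => mul_nonneg (hw X) (hD0 X)
  have hcomb : 1 / 8 ≤ ∑ X ∈ (univ : Finset (Fin j → α)).filter (fun X => Function.Injective X),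
      (∏ l, p (X l)) * (F X - D X / (8 * Q)) := by
    have h1 : ∑ X ∈ (univ : Finset (Fin j → α)).filter (fun X => Function.Injective X),
        (∏ l, p (X l)) * (F X - D X / (8 * Q)) =
        (∑ X ∈ (univ : Finset (Fin j → α)).filter (fun X => Function.Injective X),
          (∏ l, p (X l)) * F X) -
        (∑ X ∈ (univ : Finset (Fin j → α)).filter (fun X => Function.Injective X),
          (∏ l, p (X l)) * D X) / (8 * Q) := by
      rw [Finset.sum_div, ← Finset.sum_sub_distrib]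
      apply Finset.sum_congr rfl
      intro X _
      ring
    have h2 : (∑ X ∈ (univ : Finset (Fin j → α)).filter (fun X => Function.Injective X),
          (∏ l, p (X l)) * D X) / (8 * Q) ≤ 1 / 8 := by
      rw [div_le_div_iff₀ (by linarith) (by norm_num)]
      linarith
    rw [h1]
    linarith
  have hex : ∃ X : Fin j → α, Function.Injective X ∧ 1 / 8 ≤ F X - D X / (8 * Q) := by
    by_contra hcon
    push Not at hcon
    have h1 : ∃ X ∈ (univ : Finset (Fin j → α)).filter (fun X => Function.Injective X),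
        0 < ∏ l, p (X l) := by
      by_contra h2
      push Not at h2
      have h3 : ∑ X ∈ (univ : Finset (Fin j → α)).filter (fun X => Function.Injective X),
          (∏ l, p (X l)) * (F X - D X / (8 * Q)) = 0 := by
        apply Finset.sum_eq_zero
        intro X hX
        have h4 : ∏ l, p (X l) = 0 := le_antisymm (h2 X hX) (hw X)
        rw [h4, zero_mul]
      linarith
    obtain ⟨X0, hX0, hX0'⟩ := h1
    have h2 : ∑ X ∈ (univ : Finset (Fin j → α)).filter (fun X => Function.Injective X),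
        (∏ l, p (X l)) * (F X - D X / (8 * Q)) <
        ∑ X ∈ (univ : Finset (Fin j → α)).filter (fun X => Function.Injective X),
        (∏ l, p (X l)) * (1 / 8) := by
      apply Finset.sum_lt_sum
      · intro X hX
        rw [Finset.mem_filter] at hX
        exact mul_le_mul_of_nonneg_left (hcon X hX.2).le (hw X)
      · refine ⟨X0, hX0, ?_⟩
        rw [Finset.mem_filter] at hX0
        exact mul_lt_mul_of_pos_left (hcon X0 hX0.2) hX0'
    have h3 : ∑ X ∈ (univ : Finset (Fin j → α)).filter (fun X => Function.Injective X),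
        (∏ l, p (X l)) * ((1 : ℝ) / 8) ≤ 1 / 8 := by
      rw [← Finset.sum_mul]
      have h4 : ∑ X ∈ (univ : Finset (Fin j → α)).filter (fun X => Function.Injective X),
          (∏ l, p (X l)) ≤ 1 := by
        rw [← tuple_weight p hp j]
        exact Finset.sum_le_sum_of_subset_of_nonneg (Finset.filter_subset _ _) fun X _ _ => hw X
      linarith
    linarith
  obtain ⟨X, hX1, hX2⟩ := hex
  have h1 : 0 ≤ D X / (8 * Q) := div_nonneg (hD0 X) (by linarith)
  refine ⟨X, hX1, ?_, ?_⟩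
  · rw [← hF]
    linarith
  · rw [← hF, ← hD]
    linarith

end

end Pool.Agent.Tri
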