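import Pool.Agent.Helper40_Tri.Defs

/-! # T8: weighted Kovari-Sos-Turan -/

set_option autoImplicit false
open scoped BigOperators
open Finset

namespace Pool.Agent.Tri

section

variable {α β γ : Type*} [Fintype α] [Fintype β] [Fintype γ]

/-- The weight of the tuples with two given equal coordinates. -/
theorem pair_weight [DecidableEq α] (p : α → ℝ) (hp : IsProb p) (μ : ℝ) (hμ : ∀ x, p x ≤ μ)
    (j : ℕ) (i i' : Fin j) (hii : i ≠ i') :
    ∑ X : Fin j → α, (if X i = X i' then ∏ l, p (X l) else 0) ≤ μ := by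
  classical
  have h1 : ∀ X : Fin j → α, (if X i = X i' then ∏ l, p (X l) else 0) =
      ∑ a, ∏ l, (p (X l) * (if l ∈ ({i, i'} : Finset (Fin j)) then (if X l = a then 1 else 0) else 1)) := by
    intro X
    have h2 : ∀ a, ∏ l, (p (X l) * (if l ∈ ({i, i'} : Finset (Fin j)) then
        (if X l = a then (1 : ℝ) else 0) else 1)) =
        (∏ l, p (X l)) * (if X i = a ∧ X i' = a then 1 else 0) := by
      intro a
      rw [Finset.prod_mul_distrib]
      congr 1
      rw [Finset.prod_ite_mem, Finset.univ_inter, Finset.prod_pair hii]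
      by_cases h : X i = a <;> by_cases h' : X i' = a <;> simp [h, h']
    simp_rw [h2]
    rw [← Finset.mul_sum]
    by_cases h : X i = X i'
    · have h3 : ∑ a, (if X i = a ∧ X i' = a then (1 : ℝ) else 0) = 1 := by
        rw [h]
        simp
      rw [if_pos h, h3, mul_one]
    · have h3 : ∑ a, (if X i = a ∧ X i' = a then (1 : ℝ) else 0) = 0 := by
        apply Finset.sum_eq_zero
        intro a _
        rw [if_neg]
        rintro ⟨h4, h5⟩
        exact h (h4.trans h5.symm)
      rw [if_neg h, h3, mul_zero]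
  simp_rw [h1]
  rw [Finset.sum_comm]
  have h2 : ∀ a, ∑ X : Fin j → α, ∏ l, (p (X l) * (if l ∈ ({i, i'} : Finset (Fin j)) then
      (if X l = a then (1 : ℝ) else 0) else 1)) = p a ^ 2 := by
    intro a
    have h3 := Finset.prod_univ_sum (fun _ : Fin j => (Finset.univ : Finset α))
      (fun l x => p x * (if l ∈ ({i, i'} : Finset (Fin j)) then (if x = a then (1 : ℝ) else 0) else 1))
    rw [Fintype.piFinset_univ] at h3
    rw [← h3]
    have h4 : ∀ l : Fin j, ∑ x, p x * (if l ∈ ({i, i'} : Finset (Fin j)) then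
        (if x = a then (1 : ℝ) else 0) else 1) = if l ∈ ({i, i'} : Finset (Fin j)) then p a else 1 := by
      intro l
      by_cases hl : l ∈ ({i, i'} : Finset (Fin j))
      · simp [hl]
      · simp only [hl, if_false, mul_one]
        exact hp.sum_one
    simp_rw [h4]
    rw [Finset.prod_ite_mem, Finset.univ_inter, Finset.prod_pair hii, sq]
  simp_rw [h2]
  calc ∑ a, p a ^ 2 ≤ ∑ a, μ * p a := by
        apply Finset.sum_le_sum
        intro a _
        rw [sq]
        exact mul_le_mul_of_nonneg_right (hμ a) (hp.nonneg a)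
    _ = μ := by rw [← Finset.mul_sum, hp.sum_one, mul_one]

/-- The total weight of the tuples is one. -/
theorem tuple_weight (p : α → ℝ) (hp : IsProb p) (j : ℕ) :
    ∑ X : Fin j → α, ∏ l, p (X l) = 1 := by
  rw [← Fintype.sum_pow, hp.sum_one, one_pow]

/-- The weight of the non-injective tuples. -/
theorem noninj_weight [DecidableEq α] (p : α → ℝ) (hp : IsProb p) (μ : ℝ) (hμ : ∀ x, p x ≤ μ) (j : ℕ) :
    ∑ X ∈ (univ : Finset (Fin j → α)).filter (fun X => ¬ Function.Injective X),
      ∏ l, p (X l) ≤ (j : ℝ) ^ 2 * μ := by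
  classical
  have hw : ∀ X : Fin j → α, 0 ≤ ∏ l, p (X l) := fun X => Finset.prod_nonneg fun l _ => hp.nonneg _
  have hμ0 : 0 ≤ μ := by
    by_contra h
    push Not at h
    have h1 : ∑ x, p x ≤ 0 := Finset.sum_nonpos fun x _ => (hμ x).trans h.le
    rw [hp.sum_one] at h1
    linarith
  have h1 : ∀ X ∈ (univ : Finset (Fin j → α)).filter (fun X => ¬ Function.Injective X),
      ∏ l, p (X l) ≤ ∑ e ∈ (univ : Finset (Fin j × Fin j)).filter (fun e => e.1 ≠ e.2),
        (if X e.1 = X e.2 then ∏ l, p (X l) else 0) := by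
    intro X hX
    rw [Finset.mem_filter] at hX
    have h2 : ∃ i i', X i = X i' ∧ i ≠ i' := by
      by_contra hcon
      push Not at hcon
      exact hX.2 fun i i' h => hcon i i' h
    obtain ⟨i, i', hX1, hne⟩ := h2
    have h3 : ∏ l, p (X l) = (if X (i, i').1 = X (i, i').2 then ∏ l, p (X l) else 0) := by
      rw [if_pos hX1]
    refine h3.trans_le (Finset.single_le_sum (f := fun e : Fin j × Fin j =>
      (if X e.1 = X e.2 then ∏ l, p (X l) else 0)) (fun e _ => ?_) (a := (i, i')) ?_)
    · split_ifs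
      · exact hw X
      · exact le_refl _
    · rw [Finset.mem_filter]
      exact ⟨Finset.mem_univ _, hne⟩
  calc ∑ X ∈ (univ : Finset (Fin j → α)).filter (fun X => ¬ Function.Injective X), ∏ l, p (X l)
      ≤ ∑ X ∈ (univ : Finset (Fin j → α)).filter (fun X => ¬ Function.Injective X),
        ∑ e ∈ (univ : Finset (Fin j × Fin j)).filter (fun e => e.1 ≠ e.2),
        (if X e.1 = X e.2 then ∏ l, p (X l) else 0) := Finset.sum_le_sum h1
    _ ≤ ∑ X : Fin j → α, ∑ e ∈ (univ : Finset (Fin j × Fin j)).filter (fun e => e.1 ≠ e.2),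
        (if X e.1 = X e.2 then ∏ l, p (X l) else 0) := by
        apply Finset.sum_le_sum_of_subset_of_nonneg (Finset.filter_subset _ _)
        intro X _ _
        apply Finset.sum_nonneg
        intro e _
        split_ifs
        · exact hw X
        · exact le_refl _
    _ = ∑ e ∈ (univ : Finset (Fin j × Fin j)).filter (fun e => e.1 ≠ e.2), ∑ X : Fin j → α,
        (if X e.1 = X e.2 then ∏ l, p (X l) else 0) := Finset.sum_comm
    _ ≤ ∑ e ∈ (univ : Finset (Fin j × Fin j)).filter (fun e => e.1 ≠ e.2), μ := by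
        apply Finset.sum_le_sum
        intro e he
        rw [Finset.mem_filter] at he
        exact pair_weight p hp μ hμ j e.1 e.2 he.2
    _ ≤ (j : ℝ) ^ 2 * μ := by
        rw [Finset.sum_const, nsmul_eq_mul]
        apply mul_le_mul_of_nonneg_right _ hμ0
        have h4 : ((univ : Finset (Fin j × Fin j)).filter (fun e => e.1 ≠ e.2)).card ≤ j ^ 2 := by
          refine (Finset.card_filter_le _ _).trans ?_
          rw [Finset.card_univ, Fintype.card_prod, Fintype.card_fin, sq]
        exact_mod_cast h4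

/-- T8: weighted Kovari-Sos-Turan. -/
theorem kst (ν : β → ℝ) (ν' : γ → ℝ) (hν : IsProb ν) (hν' : IsProb ν') (μ ρ : ℝ) (s : ℕ)
    (hμ : ∀ y, ν y ≤ μ) (hμ' : ∀ z, ν' z ≤ μ) (E : Finset (β × γ)) (hρ : 0 ≤ ρ)
    (hE : ρ ≤ ∑ e ∈ E, ν e.1 * ν' e.2) (hs : 1 ≤ s) (hsm : ((s : ℝ) ^ 2 + s) * μ ≤ ρ ^ s) :
    ∃ B : Finset β, ∃ C : Finset γ, B.card = s ∧ C.card = s ∧ ∀ y ∈ B, ∀ z ∈ C, (y, z) ∈ E := by
  classical
  have hμ0 : 0 < μ := by
    by_contra h
    push Not at h
    have h1 : ∑ x, ν x ≤ 0 := Finset.sum_nonpos fun x _ => (hμ x).trans h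
    rw [hν.sum_one] at h1
    linarith
  by_contra hcon
  push Not at hcon
  -- injective tuples have small common neighbourhoods
  have hinj : ∀ Z : Fin s → γ, Function.Injective Z →
      (univ.filter (fun y => ∀ i, (y, Z i) ∈ E)).card < s := by
    intro Z hZ
    by_contra h
    push Not at h
    obtain ⟨B, hB, hBs⟩ := Finset.exists_subset_card_eq h
    obtain ⟨y, hy, z, hz, hyz⟩ := hcon B (Finset.univ.image Z) hBs
      (by rw [Finset.card_image_of_injective _ hZ, Finset.card_univ, Fintype.card_fin])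
    rw [Finset.mem_image] at hz
    obtain ⟨i, _, rfl⟩ := hz
    have := hB hy
    rw [Finset.mem_filter] at this
    exact hyz (this.2 i)
  have hw : ∀ Z : Fin s → γ, 0 ≤ ∏ l, ν' (Z l) := fun Z => Finset.prod_nonneg fun l _ => hν'.nonneg _
  have hc0 : ∀ Z : Fin s → γ, 0 ≤ ∑ y ∈ univ.filter (fun y => ∀ i, (y, Z i) ∈ E), ν y :=
    fun Z => Finset.sum_nonneg fun y _ => hν.nonneg y
  -- the moment
  have hmom : ρ ^ s ≤ ∑ Z : Fin s → γ, (∏ l, ν' (Z l)) *
      ∑ y ∈ univ.filter (fun y => ∀ i, (y, Z i) ∈ E), ν y := by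
    have h1 : ∑ e ∈ E, ν e.1 * ν' e.2 = ∑ y, ν y * ∑ z, ν' z * (if (y, z) ∈ E then 1 else 0) := by
      have h2 : ∑ e ∈ E, ν e.1 * ν' e.2 =
          ∑ e : β × γ, (ν e.1 * (ν' e.2 * (if (e.1, e.2) ∈ E then 1 else 0))) := by
        rw [← Finset.sum_filter_add_sum_filter_not univ (fun e => e ∈ E)]
        have h3 : ∑ e ∈ univ.filter (fun e => ¬ e ∈ E),
            (ν e.1 * (ν' e.2 * (if (e.1, e.2) ∈ E then (1 : ℝ) else 0))) = 0 := by
          apply Finset.sum_eq_zero
          intro e he
          rw [Finset.mem_filter] at he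
          rw [if_neg he.2]
          ring
        rw [h3, add_zero]
        have h4 : univ.filter (fun e => e ∈ E) = E := by
          ext e
          simp
        rw [h4]
        apply Finset.sum_congr rfl
        intro e he
        rw [if_pos he, mul_one]
      rw [h2, Fintype.sum_prod_type]
      apply Finset.sum_congr rfl
      intro y _
      rw [Finset.mul_sum]
    have h2 : ρ ^ s ≤ (∑ y, ν y * ∑ z, ν' z * (if (y, z) ∈ E then 1 else 0)) ^ s := by
      rw [← h1]
      exact pow_le_pow_left₀ hρ hE s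
    have h3 := Real.pow_arith_mean_le_arith_mean_pow (Finset.univ : Finset β) ν
      (fun y => ∑ z, ν' z * (if (y, z) ∈ E then 1 else 0)) (fun y _ => hν.nonneg y) hν.sum_one
      (fun y _ => Finset.sum_nonneg fun z _ => mul_nonneg (hν'.nonneg z) (by split_ifs <;> norm_num)) s
    refine h2.trans (h3.trans (le_of_eq ?_))
    have h4 : ∀ y, (∑ z, ν' z * (if (y, z) ∈ E then (1 : ℝ) else 0)) ^ s =
        ∑ Z : Fin s → γ, (∏ l, ν' (Z l)) * (if ∀ i, (y, Z i) ∈ E then 1 else 0) := by
      intro y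
      rw [Fintype.sum_pow]
      apply Finset.sum_congr rfl
      intro Z _
      rw [Finset.prod_mul_distrib]
      congr 1
      by_cases h : ∀ i, (y, Z i) ∈ E
      · rw [if_pos h]
        apply Finset.prod_eq_one
        intro i _
        rw [if_pos (h i)]
      · rw [if_neg h]
        push Not at h
        obtain ⟨i, hi⟩ := h
        exact Finset.prod_eq_zero (Finset.mem_univ i) (if_neg hi)
    simp_rw [h4, Finset.mul_sum]
    rw [Finset.sum_comm]
    apply Finset.sum_congr rfl
    intro Z _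
    rw [Finset.sum_filter]
    apply Finset.sum_congr rfl
    intro y _
    split_ifs <;> ring
  -- split into injective and non-injective tuples
  have hsplit := Finset.sum_filter_add_sum_filter_not (univ : Finset (Fin s → γ))
    (fun Z => Function.Injective Z) (fun Z => (∏ l, ν' (Z l)) *
      ∑ y ∈ univ.filter (fun y => ∀ i, (y, Z i) ∈ E), ν y)
  have h1 : ∑ Z ∈ (univ : Finset (Fin s → γ)).filter (fun Z => Function.Injective Z),
      (∏ l, ν' (Z l)) * ∑ y ∈ univ.filter (fun y => ∀ i, (y, Z i) ∈ E), ν y ≤ ((s : ℝ) - 1) * μ := by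
    have hs1 : (0 : ℝ) ≤ (s : ℝ) - 1 := by
      have : (1 : ℝ) ≤ s := by exact_mod_cast hs
      linarith
    calc ∑ Z ∈ (univ : Finset (Fin s → γ)).filter (fun Z => Function.Injective Z),
        (∏ l, ν' (Z l)) * ∑ y ∈ univ.filter (fun y => ∀ i, (y, Z i) ∈ E), ν y
        ≤ ∑ Z ∈ (univ : Finset (Fin s → γ)).filter (fun Z => Function.Injective Z),
        (∏ l, ν' (Z l)) * (((s : ℝ) - 1) * μ) := by
          apply Finset.sum_le_sum
          intro Z hZ
          rw [Finset.mem_filter] at hZ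
          apply mul_le_mul_of_nonneg_left _ (hw Z)
          have h2 := hinj Z hZ.2
          calc ∑ y ∈ univ.filter (fun y => ∀ i, (y, Z i) ∈ E), ν y
              ≤ ∑ y ∈ univ.filter (fun y => ∀ i, (y, Z i) ∈ E), μ :=
                Finset.sum_le_sum fun y _ => hμ y
            _ = ((univ.filter (fun y => ∀ i, (y, Z i) ∈ E)).card : ℝ) * μ := by
                rw [Finset.sum_const, nsmul_eq_mul]
            _ ≤ ((s : ℝ) - 1) * μ := by
                apply mul_le_mul_of_nonneg_right _ hμ0.le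
                have h3 : (univ.filter (fun y => ∀ i, (y, Z i) ∈ E)).card + 1 ≤ s := h2
                have h4 : (((univ.filter (fun y => ∀ i, (y, Z i) ∈ E)).card + 1 : ℕ) : ℝ) ≤ s := by
                  exact_mod_cast h3
                push_cast at h4
                linarith
      _ ≤ ∑ Z : Fin s → γ, (∏ l, ν' (Z l)) * (((s : ℝ) - 1) * μ) := by
          apply Finset.sum_le_sum_of_subset_of_nonneg (Finset.filter_subset _ _)
          intro Z _ _
          exact mul_nonneg (hw Z) (mul_nonneg hs1 hμ0.le)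
      _ = ((s : ℝ) - 1) * μ := by
          rw [← Finset.sum_mul, tuple_weight ν' hν' s, one_mul]
  have h2 : ∑ Z ∈ (univ : Finset (Fin s → γ)).filter (fun Z => ¬ Function.Injective Z),
      (∏ l, ν' (Z l)) * ∑ y ∈ univ.filter (fun y => ∀ i, (y, Z i) ∈ E), ν y ≤ (s : ℝ) ^ 2 * μ := by
    refine le_trans (Finset.sum_le_sum fun Z _ => ?_) (noninj_weight ν' hν' μ hμ' s)
    have h3 : ∑ y ∈ univ.filter (fun y => ∀ i, (y, Z i) ∈ E), ν y ≤ 1 := by
      rw [← hν.sum_one]
      exact Finset.sum_le_sum_of_subset_of_nonneg (Finset.filter_subset _ _) fun y _ _ => hν.nonneg y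
    calc (∏ l, ν' (Z l)) * ∑ y ∈ univ.filter (fun y => ∀ i, (y, Z i) ∈ E), ν y
        ≤ (∏ l, ν' (Z l)) * 1 := mul_le_mul_of_nonneg_left h3 (hw Z)
      _ = ∏ l, ν' (Z l) := mul_one _
  have h3 : ρ ^ s ≤ ((s : ℝ) - 1) * μ + (s : ℝ) ^ 2 * μ := by
    refine hmom.trans ?_
    rw [← hsplit]
    exact add_le_add h1 h2
  nlinarith

end

end Pool.Agent.Tri
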