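import Pool.Agent.Helper40_Tri.Defs

/-!
T9: the optimal sub-box (MP_185e9d_co).
-/

set_option autoImplicit false
open scoped BigOperators
open Finset

namespace Pool.Agent.Tri

namespace Opt

variable {α β γ : Type*} [DecidableEq α] [DecidableEq β] [DecidableEq γ]

/-- weight of a triple -/
def T (R : Finset (α × β × γ)) (b : ℝ) (Q1 : Finset (α × β)) (Q2 : Finset (α × γ))
    (Q3 : Finset (β × γ)) (x : α) (y : β) (z : γ) : ℝ :=
  if (x, y) ∈ Q1 ∧ (x, z) ∈ Q2 ∧ (y, z) ∈ Q3 then (if (x, y, z) ∈ R then 1 - b else 1) else 0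

/-- weight of a box -/
def S (R : Finset (α × β × γ)) (b : ℝ) (Q1 : Finset (α × β)) (Q2 : Finset (α × γ))
    (Q3 : Finset (β × γ)) (X : Finset α) (Y : Finset β) (Z : Finset γ) : ℝ :=
  ∑ x ∈ X, ∑ y ∈ Y, ∑ z ∈ Z, T R b Q1 Q2 Q3 x y z

theorem S_erase1 (R : Finset (α × β × γ)) (b : ℝ) (Q1 : Finset (α × β)) (Q2 : Finset (α × γ))
    (Q3 : Finset (β × γ)) (X : Finset α) (Y : Finset β) (Z : Finset γ) (x0 : α) (y0 : β)
    (hx : x0 ∈ X) (hy : y0 ∈ Y) :
    S R b (Q1.erase (x0, y0)) Q2 Q3 X Y Z =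
      S R b Q1 Q2 Q3 X Y Z - ∑ z ∈ Z, T R b Q1 Q2 Q3 x0 y0 z := by
  have h : ∀ x y z, T R b (Q1.erase (x0, y0)) Q2 Q3 x y z =
      T R b Q1 Q2 Q3 x y z - (if x = x0 then (if y = y0 then T R b Q1 Q2 Q3 x0 y0 z else 0) else 0) := by
    intro x y z
    by_cases hxx : x = x0
    · by_cases hyy : y = y0
      · subst hxx hyy
        simp [T]
      · simp [T, hxx, hyy]
    · simp [T, hxx]
  unfold S
  simp only [h, Finset.sum_sub_distrib]
  congr 1
  have : ∀ x ∈ X, ∑ y ∈ Y, ∑ z ∈ Z, (if x = x0 then (if y = y0 then T R b Q1 Q2 Q3 x0 y0 z else 0) else 0) =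
      if x = x0 then ∑ z ∈ Z, T R b Q1 Q2 Q3 x0 y0 z else 0 := by
    intro x _
    by_cases hxx : x = x0
    · simp only [hxx, if_true]
      have : ∀ y ∈ Y, ∑ z ∈ Z, (if y = y0 then T R b Q1 Q2 Q3 x0 y0 z else 0) =
        if y = y0 then ∑ z ∈ Z, T R b Q1 Q2 Q3 x0 y0 z else 0 := by
        intro y _
        by_cases hyy : y = y0
        · simp [hyy]
        · simp [hyy]
      rw [Finset.sum_congr rfl this, Finset.sum_ite_eq' Y y0, if_pos hy]
    · simp [hxx]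
  rw [Finset.sum_congr rfl this, Finset.sum_ite_eq' X x0, if_pos hx]

theorem S_erase2 (R : Finset (α × β × γ)) (b : ℝ) (Q1 : Finset (α × β)) (Q2 : Finset (α × γ))
    (Q3 : Finset (β × γ)) (X : Finset α) (Y : Finset β) (Z : Finset γ) (x0 : α) (z0 : γ)
    (hx : x0 ∈ X) (hz : z0 ∈ Z) :
    S R b Q1 (Q2.erase (x0, z0)) Q3 X Y Z =
      S R b Q1 Q2 Q3 X Y Z - ∑ y ∈ Y, T R b Q1 Q2 Q3 x0 y z0 := by
  have h : ∀ x y z, T R b Q1 (Q2.erase (x0, z0)) Q3 x y z =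
      T R b Q1 Q2 Q3 x y z - (if x = x0 then (if z = z0 then T R b Q1 Q2 Q3 x0 y z0 else 0) else 0) := by
    intro x y z
    by_cases hxx : x = x0
    · by_cases hzz : z = z0
      · subst hxx hzz
        simp [T]
      · simp [T, hxx, hzz]
    · simp [T, hxx]
  unfold S
  simp only [h, Finset.sum_sub_distrib]
  congr 1
  have : ∀ x ∈ X, ∑ y ∈ Y, ∑ z ∈ Z, (if x = x0 then (if z = z0 then T R b Q1 Q2 Q3 x0 y z0 else 0) else 0) =
      if x = x0 then ∑ y ∈ Y, T R b Q1 Q2 Q3 x0 y z0 else 0 := by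
    intro x _
    by_cases hxx : x = x0
    · simp only [hxx, if_true]
      refine Finset.sum_congr rfl fun y _ => ?_
      rw [Finset.sum_ite_eq' Z z0, if_pos hz]
    · simp [hxx]
  rw [Finset.sum_congr rfl this, Finset.sum_ite_eq' X x0, if_pos hx]

theorem S_erase3 (R : Finset (α × β × γ)) (b : ℝ) (Q1 : Finset (α × β)) (Q2 : Finset (α × γ))
    (Q3 : Finset (β × γ)) (X : Finset α) (Y : Finset β) (Z : Finset γ) (y0 : β) (z0 : γ)
    (hy : y0 ∈ Y) (hz : z0 ∈ Z) :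
    S R b Q1 Q2 (Q3.erase (y0, z0)) X Y Z =
      S R b Q1 Q2 Q3 X Y Z - ∑ x ∈ X, T R b Q1 Q2 Q3 x y0 z0 := by
  have h : ∀ x y z, T R b Q1 Q2 (Q3.erase (y0, z0)) x y z =
      T R b Q1 Q2 Q3 x y z - (if y = y0 then (if z = z0 then T R b Q1 Q2 Q3 x y0 z0 else 0) else 0) := by
    intro x y z
    by_cases hyy : y = y0
    · by_cases hzz : z = z0
      · subst hyy hzz
        simp [T]
      · simp [T, hyy, hzz]
    · simp [T, hyy]
  unfold S
  simp only [h, Finset.sum_sub_distrib]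
  congr 1
  refine Finset.sum_congr rfl fun x _ => ?_
  have : ∀ y ∈ Y, ∑ z ∈ Z, (if y = y0 then (if z = z0 then T R b Q1 Q2 Q3 x y0 z0 else 0) else 0) =
      if y = y0 then T R b Q1 Q2 Q3 x y0 z0 else 0 := by
    intro y _
    by_cases hyy : y = y0
    · simp only [hyy, if_true]
      rw [Finset.sum_ite_eq' Z z0, if_pos hz]
    · simp [hyy]
  rw [Finset.sum_congr rfl this, Finset.sum_ite_eq' Y y0, if_pos hy]

theorem T_le_one (R : Finset (α × β × γ)) (b : ℝ) (hb : 0 ≤ b) (Q1 : Finset (α × β))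
    (Q2 : Finset (α × γ)) (Q3 : Finset (β × γ)) (x : α) (y : β) (z : γ) :
    T R b Q1 Q2 Q3 x y z ≤ 1 := by
  unfold T
  split_ifs <;> linarith

theorem S_le (R : Finset (α × β × γ)) (b : ℝ) (hb : 0 ≤ b) (Q1 : Finset (α × β))
    (Q2 : Finset (α × γ)) (Q3 : Finset (β × γ)) (X : Finset α) (Y : Finset β) (Z : Finset γ) :
    S R b Q1 Q2 Q3 X Y Z ≤ (X.card : ℝ) * Y.card * Z.card := by
  unfold S
  calc ∑ x ∈ X, ∑ y ∈ Y, ∑ z ∈ Z, T R b Q1 Q2 Q3 x y z
      ≤ ∑ x ∈ X, ∑ y ∈ Y, ∑ z ∈ Z, (1 : ℝ) :=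
        Finset.sum_le_sum fun x _ => Finset.sum_le_sum fun y _ => Finset.sum_le_sum fun z _ =>
          T_le_one R b hb Q1 Q2 Q3 x y z
    _ = (X.card : ℝ) * Y.card * Z.card := by simp; ring

/-- configurations -/
abbrev Cfg (α β γ : Type*) :=
  Finset α × Finset β × Finset γ × Finset (α × β) × Finset (α × γ) × Finset (β × γ)

variable [Fintype α] [Fintype β] [Fintype γ]

theorem S_univ (R : Finset (α × β × γ)) (b : ℝ) (hb : 0 ≤ b) (P1 : Finset (α × β))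
    (P2 : Finset (α × γ)) (P3 : Finset (β × γ)) :
    ((Tri P1 P2 P3).card : ℝ) - b * R.card ≤ S R b P1 P2 P3 univ univ univ := by
  have h1 : ((Tri P1 P2 P3).card : ℝ) = ∑ x : α, ∑ y : β, ∑ z : γ,
      (if (x, y) ∈ P1 ∧ (x, z) ∈ P2 ∧ (y, z) ∈ P3 then (1 : ℝ) else 0) := by
    rw [Tri, Finset.card_filter]
    push_cast
    rw [← Finset.univ_product_univ, Finset.sum_product]
    refine Finset.sum_congr rfl fun x _ => ?_
    rw [← Finset.univ_product_univ, Finset.sum_product]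
  have h2 : (R.card : ℝ) = ∑ x : α, ∑ y : β, ∑ z : γ, (if (x, y, z) ∈ R then (1 : ℝ) else 0) := by
    have : R = univ.filter (fun e => e ∈ R) := by ext; simp
    conv_lhs => rw [this]
    rw [Finset.card_filter]
    push_cast
    rw [← Finset.univ_product_univ, Finset.sum_product]
    refine Finset.sum_congr rfl fun x _ => ?_
    rw [← Finset.univ_product_univ, Finset.sum_product]
  rw [h1, h2, Finset.mul_sum, ← Finset.sum_sub_distrib]
  unfold S
  refine Finset.sum_le_sum fun x _ => ?_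
  rw [Finset.mul_sum, ← Finset.sum_sub_distrib]
  refine Finset.sum_le_sum fun y _ => ?_
  rw [Finset.mul_sum, ← Finset.sum_sub_distrib]
  refine Finset.sum_le_sum fun z _ => ?_
  unfold T
  split_ifs <;> linarith

/-- The extremal configuration. -/
theorem exists_opt (m : ℕ) (hm : 1 ≤ m)
    (hα : Fintype.card α = m) (hβ : Fintype.card β = m) (hγ : Fintype.card γ = m)
    (P1 : Finset (α × β)) (P2 : Finset (α × γ)) (P3 : Finset (β × γ)) (R : Finset (α × β × γ))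
    (M η b : ℝ) (hM : 2 ≤ M) (hη0 : 0 < η) (hη1 : η < 1) (hb : 0 ≤ b)
    (hS : (m : ℝ) ^ 3 / M ≤ S R b P1 P2 P3 univ univ univ) :
    ∃ (X : Finset α) (Y : Finset β) (Z : Finset γ) (Q1 : Finset (α × β)) (Q2 : Finset (α × γ))
      (Q3 : Finset (β × γ)), X.Nonempty ∧ Y.Nonempty ∧ Z.Nonempty ∧ Q1 ⊆ P1 ∧ Q2 ⊆ P2 ∧ Q3 ⊆ P3 ∧
      0 < S R b Q1 Q2 Q3 X Y Z ∧
      ((X.card : ℝ) * Y.card * Z.card) / M ≤ S R b Q1 Q2 Q3 X Y Z ∧
      (m : ℝ) ^ 3 ≤ M ^ (1 / η) * ((X.card : ℝ) * Y.card * Z.card) ∧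
      (∀ x ∈ X, ∀ y ∈ Y, 0 ≤ ∑ z ∈ Z, T R b Q1 Q2 Q3 x y z) ∧
      (∀ x ∈ X, ∀ z ∈ Z, 0 ≤ ∑ y ∈ Y, T R b Q1 Q2 Q3 x y z) ∧
      (∀ y ∈ Y, ∀ z ∈ Z, 0 ≤ ∑ x ∈ X, T R b Q1 Q2 Q3 x y z) ∧
      (∀ X1 ⊆ X, ∀ Y1 ⊆ Y, ∀ Z1 ⊆ Z, X1.Nonempty → Y1.Nonempty → Z1.Nonempty →
        S R b Q1 Q2 Q3 X1 Y1 Z1 / ((X1.card : ℝ) * Y1.card * Z1.card) ^ (1 - η) ≤
          S R b Q1 Q2 Q3 X Y Z / ((X.card : ℝ) * Y.card * Z.card) ^ (1 - η)) := by
  classical
  have hneα : Nonempty α := Fintype.card_pos_iff.mp (by omega)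
  have hneβ : Nonempty β := Fintype.card_pos_iff.mp (by omega)
  have hneγ : Nonempty γ := Fintype.card_pos_iff.mp (by omega)
  let F : Finset (Cfg α β γ) := univ.filter (fun c => c.1.Nonempty ∧ c.2.1.Nonempty ∧
    c.2.2.1.Nonempty ∧ c.2.2.2.1 ⊆ P1 ∧ c.2.2.2.2.1 ⊆ P2 ∧ c.2.2.2.2.2 ⊆ P3)
  let Ψ : Cfg α β γ → ℝ := fun c => S R b c.2.2.2.1 c.2.2.2.2.1 c.2.2.2.2.2 c.1 c.2.1 c.2.2.1 /
    ((c.1.card : ℝ) * c.2.1.card * c.2.2.1.card) ^ (1 - η)
  have h0 : ((univ, univ, univ, P1, P2, P3) : Cfg α β γ) ∈ F := by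
    simp [F]
  obtain ⟨⟨X, Y, Z, Q1, Q2, Q3⟩, hc, hmax⟩ := Finset.exists_max_image F Ψ ⟨_, h0⟩
  have hc' : X.Nonempty ∧ Y.Nonempty ∧ Z.Nonempty ∧ Q1 ⊆ P1 ∧ Q2 ⊆ P2 ∧ Q3 ⊆ P3 := by
    simpa [F] using hc
  obtain ⟨hX, hY, hZ, hQ1, hQ2, hQ3⟩ := hc'
  have hXc : (0 : ℝ) < X.card := by exact_mod_cast hX.card_pos
  have hYc : (0 : ℝ) < Y.card := by exact_mod_cast hY.card_pos
  have hZc : (0 : ℝ) < Z.card := by exact_mod_cast hZ.card_pos
  set V : ℝ := (X.card : ℝ) * Y.card * Z.card with hV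
  have hVpos : 0 < V := by positivity
  have hM0 : 0 < M := by linarith
  have hmpos : (0 : ℝ) < m := by exact_mod_cast hm
  have hX2 : (X.card : ℝ) ≤ m := by rw [← hα]; exact_mod_cast Finset.card_le_univ X
  have hY2 : (Y.card : ℝ) ≤ m := by rw [← hβ]; exact_mod_cast Finset.card_le_univ Y
  have hZ2 : (Z.card : ℝ) ≤ m := by rw [← hγ]; exact_mod_cast Finset.card_le_univ Z
  have hVm : V ≤ (m : ℝ) ^ 3 := by
    have : (X.card : ℝ) * Y.card ≤ m * m := by gcongr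
    calc V ≤ (m * m) * m := by rw [hV]; gcongr
      _ = (m : ℝ) ^ 3 := by ring
  have hΨ0 := hmax _ h0
  have hΨ0' : S R b P1 P2 P3 univ univ univ / ((m : ℝ) ^ 3) ^ (1 - η) ≤
      S R b Q1 Q2 Q3 X Y Z / V ^ (1 - η) := by
    have e : ((univ : Finset α).card : ℝ) * (univ : Finset β).card * (univ : Finset γ).card =
        (m : ℝ) ^ 3 := by
      rw [Finset.card_univ, Finset.card_univ, Finset.card_univ, hα, hβ, hγ]; ring
    have := hΨ0
    simp only [Ψ] at this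
    rw [e] at this
    exact this
  have hm3 : (0 : ℝ) < (m : ℝ) ^ 3 := by positivity
  have hVr : 0 < V ^ (1 - η) := Real.rpow_pos_of_pos hVpos _
  have hmr : 0 < ((m : ℝ) ^ 3) ^ (1 - η) := Real.rpow_pos_of_pos hm3 _
  have hkey : (m : ℝ) ^ 3 / M / ((m : ℝ) ^ 3) ^ (1 - η) ≤ S R b Q1 Q2 Q3 X Y Z / V ^ (1 - η) :=
    le_trans (div_le_div_of_nonneg_right hS hmr.le) hΨ0'
  have e1 : (m : ℝ) ^ 3 / M / ((m : ℝ) ^ 3) ^ (1 - η) = ((m : ℝ) ^ 3) ^ η / M := by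
    have : (m : ℝ) ^ 3 = ((m : ℝ) ^ 3) ^ η * ((m : ℝ) ^ 3) ^ (1 - η) := by
      rw [← Real.rpow_add hm3]; simp
    rw [div_div, div_eq_div_iff (by positivity) (by positivity)]
    calc (m : ℝ) ^ 3 * M = (((m : ℝ) ^ 3) ^ η * ((m : ℝ) ^ 3) ^ (1 - η)) * M := by rw [← this]
      _ = _ := by ring
  rw [e1] at hkey
  have e2 : V = V ^ η * V ^ (1 - η) := by rw [← Real.rpow_add hVpos]; simp
  have hVη : 0 < V ^ η := Real.rpow_pos_of_pos hVpos _
  have hSlow : ((m : ℝ) ^ 3) ^ η / M * V ^ (1 - η) ≤ S R b Q1 Q2 Q3 X Y Z := by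
    rwa [le_div_iff₀ hVr] at hkey
  have hmV : V ^ η ≤ ((m : ℝ) ^ 3) ^ η := Real.rpow_le_rpow hVpos.le hVm hη0.le
  have hSV : V / M ≤ S R b Q1 Q2 Q3 X Y Z := by
    refine le_trans ?_ hSlow
    calc V / M = V ^ η / M * V ^ (1 - η) := by
          conv_lhs => rw [e2]
          ring
      _ ≤ ((m : ℝ) ^ 3) ^ η / M * V ^ (1 - η) :=
          mul_le_mul_of_nonneg_right (div_le_div_of_nonneg_right hmV hM0.le) hVr.le
  have hSpos : 0 < S R b Q1 Q2 Q3 X Y Z := lt_of_lt_of_le (div_pos hVpos hM0) hSV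
  have hSle : S R b Q1 Q2 Q3 X Y Z ≤ V := S_le R b hb Q1 Q2 Q3 X Y Z
  have hmV3 : (m : ℝ) ^ 3 ≤ M ^ (1 / η) * V := by
    have h3 : ((m : ℝ) ^ 3) ^ η / M ≤ V ^ η := by
      have : S R b Q1 Q2 Q3 X Y Z / V ^ (1 - η) ≤ V ^ η := by
        rw [div_le_iff₀ hVr, ← e2]; exact hSle
      exact le_trans hkey this
    have h4 : ((m : ℝ) ^ 3) ^ η ≤ M * V ^ η := by
      rw [div_le_iff₀ hM0] at h3; linarith
    have h6 : (0 : ℝ) ≤ 1 / η := (one_div_pos.mpr hη0).le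
    have h5 : (((m : ℝ) ^ 3) ^ η) ^ (1 / η) ≤ (M * V ^ η) ^ (1 / η) :=
      Real.rpow_le_rpow (Real.rpow_nonneg hm3.le _) h4 h6
    rw [← Real.rpow_mul hm3.le, Real.mul_rpow hM0.le hVη.le, ← Real.rpow_mul hVpos.le,
      mul_one_div_cancel hη0.ne', Real.rpow_one, Real.rpow_one] at h5
    exact h5
  refine ⟨X, Y, Z, Q1, Q2, Q3, hX, hY, hZ, hQ1, hQ2, hQ3, hSpos, hSV, hmV3, ?_, ?_, ?_, ?_⟩
  · intro x hx y hy
    by_contra hneg
    rw [not_le] at hneg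
    have hmem : ((X, Y, Z, Q1.erase (x, y), Q2, Q3) : Cfg α β γ) ∈ F := by
      simp only [F, Finset.mem_filter, Finset.mem_univ, true_and]
      exact ⟨hX, hY, hZ, (Finset.erase_subset _ _).trans hQ1, hQ2, hQ3⟩
    have h1 := hmax _ hmem
    simp only [Ψ] at h1
    rw [div_le_div_iff_of_pos_right hVr, S_erase1 R b Q1 Q2 Q3 X Y Z x y hx hy] at h1
    linarith
  · intro x hx z hz
    by_contra hneg
    rw [not_le] at hneg
    have hmem : ((X, Y, Z, Q1, Q2.erase (x, z), Q3) : Cfg α β γ) ∈ F := by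
      simp only [F, Finset.mem_filter, Finset.mem_univ, true_and]
      exact ⟨hX, hY, hZ, hQ1, (Finset.erase_subset _ _).trans hQ2, hQ3⟩
    have h1 := hmax _ hmem
    simp only [Ψ] at h1
    rw [div_le_div_iff_of_pos_right hVr, S_erase2 R b Q1 Q2 Q3 X Y Z x z hx hz] at h1
    linarith
  · intro y hy z hz
    by_contra hneg
    rw [not_le] at hneg
    have hmem : ((X, Y, Z, Q1, Q2, Q3.erase (y, z)) : Cfg α β γ) ∈ F := by
      simp only [F, Finset.mem_filter, Finset.mem_univ, true_and]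
      exact ⟨hX, hY, hZ, hQ1, hQ2, (Finset.erase_subset _ _).trans hQ3⟩
    have h1 := hmax _ hmem
    simp only [Ψ] at h1
    rw [div_le_div_iff_of_pos_right hVr, S_erase3 R b Q1 Q2 Q3 X Y Z y z hy hz] at h1
    linarith
  · intro X1 _ Y1 _ Z1 _ hX1 hY1 hZ1
    have hmem : ((X1, Y1, Z1, Q1, Q2, Q3) : Cfg α β γ) ∈ F := by
      simp only [F, Finset.mem_filter, Finset.mem_univ, true_and]
      exact ⟨hX1, hY1, hZ1, hQ1, hQ2, hQ3⟩
    have h1 := hmax _ hmem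
    simp only [Ψ] at h1
    exact h1

/-- uniform weights -/
noncomputable def w {ι : Type*} [DecidableEq ι] (X : Finset ι) (x : ι) : ℝ :=
  if x ∈ X then 1 / (X.card : ℝ) else 0

theorem sum_w {ι : Type*} [DecidableEq ι] (X A : Finset ι) (f : ι → ℝ) :
    ∑ x ∈ A, w X x * f x = 1 / (X.card : ℝ) * ∑ x ∈ A ∩ X, f x := by
  unfold w
  simp only [ite_mul, zero_mul]
  rw [Finset.sum_ite_mem, Finset.mul_sum]

theorem sum_w_univ {ι : Type*} [Fintype ι] [DecidableEq ι] (X : Finset ι) (f : ι → ℝ) :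
    ∑ x, w X x * f x = 1 / (X.card : ℝ) * ∑ x ∈ X, f x := by
  rw [sum_w, Finset.univ_inter]

theorem sum_w_one {ι : Type*} [DecidableEq ι] (X A : Finset ι) :
    ∑ x ∈ A, w X x = ((A ∩ X).card : ℝ) / (X.card : ℝ) := by
  have := sum_w X A (fun _ => 1)
  simp only [mul_one, Finset.sum_const, nsmul_eq_mul] at this
  rw [this]; ring

theorem w_prob {ι : Type*} [Fintype ι] [DecidableEq ι] (X : Finset ι) (hX : X.Nonempty) :
    IsProb (w X) := by
  constructor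
  · intro x
    unfold w
    split_ifs
    · positivity
    · exact le_rfl
  · rw [sum_w_one, Finset.univ_inter]
    have : (0 : ℝ) < X.card := by exact_mod_cast hX.card_pos
    exact div_self this.ne'

theorem w_le {ι : Type*} [DecidableEq ι] (X : Finset ι) (c : ℝ) (hc : 1 / (X.card : ℝ) ≤ c) (x : ι) :
    w X x ≤ c := by
  unfold w
  split_ifs
  · exact hc
  · exact le_trans (by positivity) hc

/-- kernel -/
noncomputable def ker {ι κ : Type*} [DecidableEq ι] [DecidableEq κ] (X : Finset ι) (Y : Finset κ)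
    (s : ℝ) (f : ι → κ → ℝ) (x : ι) (y : κ) : ℝ :=
  if x ∈ X ∧ y ∈ Y then (X.card : ℝ) * Y.card / s * f x y else 0

theorem ker_nonneg {ι κ : Type*} [DecidableEq ι] [DecidableEq κ] (X : Finset ι) (Y : Finset κ)
    (s : ℝ) (hs : 0 < s) (f : ι → κ → ℝ) (hf : ∀ x ∈ X, ∀ y ∈ Y, 0 ≤ f x y) (x : ι) (y : κ) :
    0 ≤ ker X Y s f x y := by
  unfold ker
  split_ifs with h
  · have := hf x h.1 y h.2
    positivity
  · exact le_rfl

theorem ker_le {ι κ : Type*} [DecidableEq ι] [DecidableEq κ] (X : Finset ι) (Y : Finset κ)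
    (s c M : ℝ) (hs : 0 < s) (hM : 0 ≤ M) (f : ι → κ → ℝ) (hf : ∀ x ∈ X, ∀ y ∈ Y, f x y ≤ c)
    (hc : (X.card : ℝ) * Y.card * c / M ≤ s) (hM' : 0 < M) (x : ι) (y : κ) :
    ker X Y s f x y ≤ M := by
  unfold ker
  split_ifs with h
  · have h1 := hf x h.1 y h.2
    rw [div_le_iff₀ hM'] at hc
    rw [div_mul_eq_mul_div, div_le_iff₀ hs]
    calc (X.card : ℝ) * Y.card * f x y ≤ (X.card : ℝ) * Y.card * c := by gcongr
      _ ≤ s * M := hc
      _ = M * s := by ring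
  · exact hM

theorem ker_rect {ι κ : Type*} [DecidableEq ι] [DecidableEq κ] (X : Finset ι) (Y : Finset κ)
    (hX : X.Nonempty) (hY : Y.Nonempty) (s : ℝ) (f : ι → κ → ℝ) (A : Finset ι) (B : Finset κ) :
    ∑ x ∈ A, ∑ y ∈ B, w X x * w Y y * ker X Y s f x y =
      (∑ x ∈ A ∩ X, ∑ y ∈ B ∩ Y, f x y) / s := by
  have hXc : (0 : ℝ) < X.card := by exact_mod_cast hX.card_pos
  have hYc : (0 : ℝ) < Y.card := by exact_mod_cast hY.card_pos
  have h1 : ∀ x ∈ A, ∑ y ∈ B, w X x * w Y y * ker X Y s f x y =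
      w X x * (1 / (Y.card : ℝ) * ∑ y ∈ B ∩ Y, ker X Y s f x y) := by
    intro x _
    rw [← sum_w, Finset.mul_sum]
    refine Finset.sum_congr rfl fun y _ => by ring
  rw [Finset.sum_congr rfl h1, sum_w, Finset.mul_sum, Finset.sum_div]
  refine Finset.sum_congr rfl fun x hx => ?_
  have hx' : x ∈ X := (Finset.mem_inter.mp hx).2
  rw [Finset.mul_sum, Finset.mul_sum, Finset.sum_div]
  refine Finset.sum_congr rfl fun y hy => ?_
  have hy' : y ∈ Y := (Finset.mem_inter.mp hy).2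
  rw [ker, if_pos ⟨hx', hy'⟩]
  field_simp

theorem ker_reg {ι κ : Type*} [Fintype ι] [Fintype κ] [DecidableEq ι] [DecidableEq κ]
    (X : Finset ι) (Y : Finset κ)
    (hX : X.Nonempty) (hY : Y.Nonempty) (s η : ℝ) (hs : 0 < s) (hη : η < 1) (f : ι → κ → ℝ)
    (c : ℝ) (hc : 0 < c)
    (hmax : ∀ X1 ⊆ X, ∀ Y1 ⊆ Y, X1.Nonempty → Y1.Nonempty →
      (∑ x ∈ X1, ∑ y ∈ Y1, f x y) / ((X1.card : ℝ) * Y1.card * c) ^ (1 - η) ≤
        s / ((X.card : ℝ) * Y.card * c) ^ (1 - η)) :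
    Reg (w X) (w Y) (ker X Y s f) η := by
  intro A B
  rw [ker_rect X Y hX hY, sum_w_one, sum_w_one]
  have hXc : (0 : ℝ) < X.card := by exact_mod_cast hX.card_pos
  have hYc : (0 : ℝ) < Y.card := by exact_mod_cast hY.card_pos
  rcases (A ∩ X).eq_empty_or_nonempty with h1 | h1
  · rw [h1]; simp
    have : (1 - η) ≠ 0 := by linarith
    rw [Real.zero_rpow this]
  rcases (B ∩ Y).eq_empty_or_nonempty with h2 | h2
  · rw [h2]; simp
    have : (1 - η) ≠ 0 := by linarith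
    rw [Real.zero_rpow this]
  have hac : (0 : ℝ) < (A ∩ X).card := by exact_mod_cast h1.card_pos
  have hbc : (0 : ℝ) < (B ∩ Y).card := by exact_mod_cast h2.card_pos
  have h3 := hmax (A ∩ X) Finset.inter_subset_right (B ∩ Y) Finset.inter_subset_right h1 h2
  have hV : (0 : ℝ) < (X.card : ℝ) * Y.card * c := by positivity
  have hV1 : (0 : ℝ) < ((A ∩ X).card : ℝ) * (B ∩ Y).card * c := by positivity
  rw [div_le_div_iff₀ (Real.rpow_pos_of_pos hV1 _) (Real.rpow_pos_of_pos hV _)] at h3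
  have e : ((A ∩ X).card : ℝ) / X.card * ((B ∩ Y).card / Y.card) =
      (((A ∩ X).card : ℝ) * (B ∩ Y).card * c) / ((X.card : ℝ) * Y.card * c) := by
    field_simp
  rw [e, Real.div_rpow hV1.le hV.le, div_le_div_iff₀ hs (Real.rpow_pos_of_pos hV _)]
  linarith

end Opt

variable {α β γ : Type*} [Fintype α] [Fintype β] [Fintype γ]

open Opt in
/-- T9: the optimal sub-box. -/
theorem opt [DecidableEq α] [DecidableEq β] [DecidableEq γ] (m : ℕ) (hm : 1 ≤ m)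
    (hα : Fintype.card α = m) (hβ : Fintype.card β = m) (hγ : Fintype.card γ = m)
    (P1 : Finset (α × β)) (P2 : Finset (α × γ)) (P3 : Finset (β × γ)) (R : Finset (α × β × γ))
    (M η βr : ℝ) (hM : 2 ≤ M) (hη0 : 0 < η) (hη1 : η < 1) (hβr : 0 < βr)
    (hT : 2 / M * (m : ℝ) ^ 3 ≤ (Tri P1 P2 P3).card) (hR : (R.card : ℝ) ≤ βr * (m : ℝ) ^ 3) :
    ∃ (p : α → ℝ) (q : β → ℝ) (r : γ → ℝ) (t1 : α → β → ℝ) (t2 : α → γ → ℝ) (t3 : β → γ → ℝ),
      IsProb p ∧ IsProb q ∧ IsProb r ∧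
      (∀ x, p x ≤ M ^ (1 / η) / m) ∧ (∀ y, q y ≤ M ^ (1 / η) / m) ∧ (∀ z, r z ≤ M ^ (1 / η) / m) ∧
      (∀ x y, 0 ≤ t1 x y) ∧ (∀ x y, t1 x y ≤ M) ∧
      (∀ x z, 0 ≤ t2 x z) ∧ (∀ x z, t2 x z ≤ M) ∧
      (∀ y z, 0 ≤ t3 y z) ∧ (∀ y z, t3 y z ≤ M) ∧
      Reg p q t1 η ∧ Reg p r t2 η ∧
      (∀ y, ∑ z, r z * t3 y z = ∑ x, p x * t1 x y) ∧
      (∀ z, ∑ y, q y * t3 y z = ∑ x, p x * t2 x z) ∧
      (∑ y, q y * ∑ x, p x * t1 x y = 1) ∧
      (∀ x y, 0 < t1 x y → (x, y) ∈ P1) ∧ (∀ x z, 0 < t2 x z → (x, z) ∈ P2) ∧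
      (∀ y z, 0 < t3 y z → (y, z) ∈ P3) ∧
      (∑ x, ∑ y, ∑ z, (if (x, y, z) ∈ R ∧ 0 < t1 x y ∧ 0 < t2 x z ∧ 0 < t3 y z then
        p x * q y * r z else 0)) ≤ M * βr := by
  have hM0 : 0 < M := by linarith
  have hmpos : (0 : ℝ) < m := by exact_mod_cast hm
  set b : ℝ := 1 / (M * βr) with hb
  have hb0 : 0 < b := by positivity
  have hS0 : (m : ℝ) ^ 3 / M ≤ S R b P1 P2 P3 univ univ univ := by
    refine le_trans ?_ (S_univ R b hb0.le P1 P2 P3)
    have h1 : b * (R.card : ℝ) ≤ (m : ℝ) ^ 3 / M := by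
      calc b * (R.card : ℝ) ≤ b * (βr * (m : ℝ) ^ 3) := by gcongr
        _ = (m : ℝ) ^ 3 / M := by rw [hb]; field_simp
    have h2 : 2 / M * (m : ℝ) ^ 3 = (m : ℝ) ^ 3 / M + (m : ℝ) ^ 3 / M := by ring
    linarith
  obtain ⟨X, Y, Z, Q1, Q2, Q3, hX, hY, hZ, hQ1, hQ2, hQ3, hSpos, hSV, hmV, hp1, hp2, hp3, hmax⟩ :=
    exists_opt m hm hα hβ hγ P1 P2 P3 R M η b hM hη0 hη1 hb0.le hS0
  set s : ℝ := S R b Q1 Q2 Q3 X Y Z with hs
  have hXc : (0 : ℝ) < X.card := by exact_mod_cast hX.card_pos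
  have hYc : (0 : ℝ) < Y.card := by exact_mod_cast hY.card_pos
  have hZc : (0 : ℝ) < Z.card := by exact_mod_cast hZ.card_pos
  have hX2 : (X.card : ℝ) ≤ m := by rw [← hα]; exact_mod_cast Finset.card_le_univ X
  have hY2 : (Y.card : ℝ) ≤ m := by rw [← hβ]; exact_mod_cast Finset.card_le_univ Y
  have hZ2 : (Z.card : ℝ) ≤ m := by rw [← hγ]; exact_mod_cast Finset.card_le_univ Z
  have hMr : 0 < M ^ (1 / η) := Real.rpow_pos_of_pos hM0 _
  have hTle : ∀ x y z, T R b Q1 Q2 Q3 x y z ≤ 1 := T_le_one R b hb0.le Q1 Q2 Q3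
  have hsideX : 1 / (X.card : ℝ) ≤ M ^ (1 / η) / m := by
    rw [div_le_div_iff₀ hXc hmpos, one_mul]
    have h1 : (m : ℝ) ^ 3 ≤ M ^ (1 / η) * ((X.card : ℝ) * m * m) :=
      le_trans hmV (by gcongr)
    have h2 : (m : ℝ) * (m * m) ≤ (M ^ (1 / η) * X.card) * (m * m) := by
      calc (m : ℝ) * (m * m) = (m : ℝ) ^ 3 := by ring
        _ ≤ _ := h1
        _ = _ := by ring
    exact le_of_mul_le_mul_right h2 (by positivity)
  have hsideY : 1 / (Y.card : ℝ) ≤ M ^ (1 / η) / m := by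
    rw [div_le_div_iff₀ hYc hmpos, one_mul]
    have h1 : (m : ℝ) ^ 3 ≤ M ^ (1 / η) * ((m : ℝ) * Y.card * m) :=
      le_trans hmV (by gcongr)
    have h2 : (m : ℝ) * (m * m) ≤ (M ^ (1 / η) * Y.card) * (m * m) := by
      calc (m : ℝ) * (m * m) = (m : ℝ) ^ 3 := by ring
        _ ≤ _ := h1
        _ = _ := by ring
    exact le_of_mul_le_mul_right h2 (by positivity)
  have hsideZ : 1 / (Z.card : ℝ) ≤ M ^ (1 / η) / m := by
    rw [div_le_div_iff₀ hZc hmpos, one_mul]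
    have h1 : (m : ℝ) ^ 3 ≤ M ^ (1 / η) * ((m : ℝ) * m * Z.card) :=
      le_trans hmV (by gcongr)
    have h2 : (m : ℝ) * (m * m) ≤ (M ^ (1 / η) * Z.card) * (m * m) := by
      calc (m : ℝ) * (m * m) = (m : ℝ) ^ 3 := by ring
        _ ≤ _ := h1
        _ = _ := by ring
    exact le_of_mul_le_mul_right h2 (by positivity)
  let f1 : α → β → ℝ := fun x y => ∑ z ∈ Z, T R b Q1 Q2 Q3 x y z
  let f2 : α → γ → ℝ := fun x z => ∑ y ∈ Y, T R b Q1 Q2 Q3 x y z
  let f3 : β → γ → ℝ := fun y z => ∑ x ∈ X, T R b Q1 Q2 Q3 x y z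
  have hf1 : ∀ x y, f1 x y ≤ Z.card := by
    intro x y
    calc f1 x y ≤ ∑ z ∈ Z, (1 : ℝ) := Finset.sum_le_sum fun z _ => hTle x y z
      _ = Z.card := by simp
  have hf2 : ∀ x z, f2 x z ≤ Y.card := by
    intro x z
    calc f2 x z ≤ ∑ y ∈ Y, (1 : ℝ) := Finset.sum_le_sum fun y _ => hTle x y z
      _ = Y.card := by simp
  have hf3 : ∀ y z, f3 y z ≤ X.card := by
    intro y z
    calc f3 y z ≤ ∑ x ∈ X, (1 : ℝ) := Finset.sum_le_sum fun x _ => hTle x y z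
      _ = X.card := by simp
  have hf1z : ∀ x y, (x, y) ∉ Q1 → f1 x y = 0 := by
    intro x y h
    refine Finset.sum_eq_zero fun z _ => ?_
    simp [T, h]
  have hf2z : ∀ x z, (x, z) ∉ Q2 → f2 x z = 0 := by
    intro x z h
    refine Finset.sum_eq_zero fun y _ => ?_
    simp [T, h]
  have hf3z : ∀ y z, (y, z) ∉ Q3 → f3 y z = 0 := by
    intro y z h
    refine Finset.sum_eq_zero fun x _ => ?_
    simp [T, h]
  have hd1 : ∀ y, ∑ x, w X x * ker X Y s f1 x y =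
      if y ∈ Y then (Y.card : ℝ) / s * ∑ x ∈ X, ∑ z ∈ Z, T R b Q1 Q2 Q3 x y z else 0 := by
    intro y
    rw [sum_w_univ]
    split_ifs with hy
    · rw [Finset.mul_sum, Finset.mul_sum]
      refine Finset.sum_congr rfl fun x hx => ?_
      rw [ker, if_pos ⟨hx, hy⟩]
      simp only [f1]
      field_simp
    · rw [Finset.sum_eq_zero, mul_zero]
      intro x _
      rw [ker, if_neg (fun h => hy h.2)]
  have hd3 : ∀ y, ∑ z, w Z z * ker Y Z s f3 y z =
      if y ∈ Y then (Y.card : ℝ) / s * ∑ x ∈ X, ∑ z ∈ Z, T R b Q1 Q2 Q3 x y z else 0 := by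
    intro y
    rw [sum_w_univ]
    split_ifs with hy
    · rw [Finset.sum_comm, Finset.mul_sum, Finset.mul_sum]
      refine Finset.sum_congr rfl fun z hz => ?_
      rw [ker, if_pos ⟨hy, hz⟩]
      simp only [f3]
      field_simp
    · rw [Finset.sum_eq_zero, mul_zero]
      intro z _
      rw [ker, if_neg (fun h => hy h.1)]
  have hd2 : ∀ z, ∑ x, w X x * ker X Z s f2 x z =
      if z ∈ Z then (Z.card : ℝ) / s * ∑ x ∈ X, ∑ y ∈ Y, T R b Q1 Q2 Q3 x y z else 0 := by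
    intro z
    rw [sum_w_univ]
    split_ifs with hz
    · rw [Finset.mul_sum, Finset.mul_sum]
      refine Finset.sum_congr rfl fun x hx => ?_
      rw [ker, if_pos ⟨hx, hz⟩]
      simp only [f2]
      field_simp
    · rw [Finset.sum_eq_zero, mul_zero]
      intro x _
      rw [ker, if_neg (fun h => hz h.2)]
  have hd4 : ∀ z, ∑ y, w Y y * ker Y Z s f3 y z =
      if z ∈ Z then (Z.card : ℝ) / s * ∑ x ∈ X, ∑ y ∈ Y, T R b Q1 Q2 Q3 x y z else 0 := by
    intro z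
    rw [sum_w_univ]
    split_ifs with hz
    · rw [Finset.sum_comm, Finset.mul_sum, Finset.mul_sum]
      refine Finset.sum_congr rfl fun y hy => ?_
      rw [ker, if_pos ⟨hy, hz⟩]
      simp only [f3]
      field_simp
    · rw [Finset.sum_eq_zero, mul_zero]
      intro y _
      rw [ker, if_neg (fun h => hz h.2)]
  refine ⟨w X, w Y, w Z, ker X Y s f1, ker X Z s f2, ker Y Z s f3, w_prob X hX, w_prob Y hY,
    w_prob Z hZ, w_le X _ hsideX, w_le Y _ hsideY, w_le Z _ hsideZ,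
    ker_nonneg X Y s hSpos f1 hp1, ?_, ker_nonneg X Z s hSpos f2 hp2, ?_,
    ker_nonneg Y Z s hSpos f3 hp3, ?_, ?_, ?_, ?_, ?_, ?_, ?_, ?_, ?_, ?_⟩
  · exact ker_le X Y s Z.card M hSpos hM0.le f1 (fun x _ y _ => hf1 x y) hSV hM0
  · refine ker_le X Z s Y.card M hSpos hM0.le f2 (fun x _ z _ => hf2 x z) ?_ hM0
    calc (X.card : ℝ) * Z.card * Y.card / M = (X.card : ℝ) * Y.card * Z.card / M := by ring
      _ ≤ s := hSV
  · refine ker_le Y Z s X.card M hSpos hM0.le f3 (fun y _ z _ => hf3 y z) ?_ hM0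
    calc (Y.card : ℝ) * Z.card * X.card / M = (X.card : ℝ) * Y.card * Z.card / M := by ring
      _ ≤ s := hSV
  · refine ker_reg X Y hX hY s η hSpos hη1 f1 Z.card hZc ?_
    intro X1 hX1 Y1 hY1 hX1n hY1n
    exact hmax X1 hX1 Y1 hY1 Z (Finset.Subset.refl _) hX1n hY1n hZ
  · refine ker_reg X Z hX hZ s η hSpos hη1 f2 Y.card hYc ?_
    intro X1 hX1 Z1 hZ1 hX1n hZ1n
    have h1 := hmax X1 hX1 Y (Finset.Subset.refl _) Z1 hZ1 hX1n hY hZ1n
    have e1 : ∑ x ∈ X1, ∑ z ∈ Z1, f2 x z = S R b Q1 Q2 Q3 X1 Y Z1 := by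
      unfold S
      refine Finset.sum_congr rfl fun x _ => ?_
      simp only [f2]
      rw [Finset.sum_comm]
    have e2 : (X1.card : ℝ) * Z1.card * Y.card = (X1.card : ℝ) * Y.card * Z1.card := by ring
    have e3 : (X.card : ℝ) * Z.card * Y.card = (X.card : ℝ) * Y.card * Z.card := by ring
    rw [e1, e2, e3]
    exact h1
  · intro y; rw [hd1, hd3]
  · intro z; rw [hd2, hd4]
  · simp only [hd1]
    rw [sum_w_univ]
    have : ∀ y ∈ Y, (if y ∈ Y then (Y.card : ℝ) / s * ∑ x ∈ X, ∑ z ∈ Z, T R b Q1 Q2 Q3 x y z else 0)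
        = (Y.card : ℝ) / s * ∑ x ∈ X, ∑ z ∈ Z, T R b Q1 Q2 Q3 x y z := by
      intro y hy; rw [if_pos hy]
    rw [Finset.sum_congr rfl this, ← Finset.mul_sum, Finset.sum_comm]
    have e : ∑ x ∈ X, ∑ y ∈ Y, ∑ z ∈ Z, T R b Q1 Q2 Q3 x y z = s := rfl
    rw [e]
    field_simp
  · intro x y h
    apply hQ1
    by_contra hn
    unfold ker at h
    rw [hf1z x y hn] at h
    simp at h
  · intro x z h
    apply hQ2
    by_contra hn
    unfold ker at h
    rw [hf2z x z hn] at h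
    simp at h
  · intro y z h
    apply hQ3
    by_contra hn
    unfold ker at h
    rw [hf3z y z hn] at h
    simp at h
  · -- the red mass
    have key : ∀ x y z, (if (x, y, z) ∈ R ∧ 0 < ker X Y s f1 x y ∧ 0 < ker X Z s f2 x z ∧
        0 < ker Y Z s f3 y z then w X x * w Y y * w Z z else 0) ≤
        w X x * (w Y y * (w Z z * (1 / b * (1 - T R b Q1 Q2 Q3 x y z)))) := by
      intro x y z
      have hwx : 0 ≤ w X x := (w_prob X hX).nonneg x
      have hwy : 0 ≤ w Y y := (w_prob Y hY).nonneg y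
      have hwz : 0 ≤ w Z z := (w_prob Z hZ).nonneg z
      split_ifs with h
      · obtain ⟨hr, h1, h2, h3⟩ := h
        have m1 : (x, y) ∈ Q1 := by
          by_contra hn
          unfold ker at h1
          rw [hf1z x y hn] at h1
          simp at h1
        have m2 : (x, z) ∈ Q2 := by
          by_contra hn
          unfold ker at h2
          rw [hf2z x z hn] at h2
          simp at h2
        have m3 : (y, z) ∈ Q3 := by
          by_contra hn
          unfold ker at h3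
          rw [hf3z y z hn] at h3
          simp at h3
        have : T R b Q1 Q2 Q3 x y z = 1 - b := by
          simp [T, m1, m2, m3, hr]
        rw [this]
        have : 1 / b * (1 - (1 - b)) = 1 := by field_simp; ring
        rw [this]
        apply le_of_eq; ring
      · have := hTle x y z
        have h1 : 0 ≤ 1 / b * (1 - T R b Q1 Q2 Q3 x y z) := by
          apply mul_nonneg (by positivity); linarith
        positivity
    calc _ ≤ ∑ x, ∑ y, ∑ z, w X x * (w Y y * (w Z z * (1 / b * (1 - T R b Q1 Q2 Q3 x y z)))) :=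
          Finset.sum_le_sum fun x _ => Finset.sum_le_sum fun y _ => Finset.sum_le_sum fun z _ =>
            key x y z
      _ = 1 / ((X.card : ℝ) * Y.card * Z.card) * (1 / b) *
          ((X.card : ℝ) * Y.card * Z.card - s) := by
          have e1 : ∀ x y, ∑ z, w X x * (w Y y * (w Z z * (1 / b * (1 - T R b Q1 Q2 Q3 x y z)))) =
              w X x * (w Y y * (1 / (Z.card : ℝ) * ∑ z ∈ Z, (1 / b * (1 - T R b Q1 Q2 Q3 x y z)))) := by
            intro x y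
            rw [← Finset.mul_sum, ← Finset.mul_sum, sum_w_univ]
          simp only [e1]
          have e2 : ∀ x, ∑ y, w X x * (w Y y * (1 / (Z.card : ℝ) *
              ∑ z ∈ Z, (1 / b * (1 - T R b Q1 Q2 Q3 x y z)))) =
              w X x * (1 / (Y.card : ℝ) * ∑ y ∈ Y, (1 / (Z.card : ℝ) *
              ∑ z ∈ Z, (1 / b * (1 - T R b Q1 Q2 Q3 x y z)))) := by
            intro x
            rw [← Finset.mul_sum, sum_w_univ]
          simp only [e2]
          rw [sum_w_univ]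
          simp only [← Finset.mul_sum, Finset.sum_sub_distrib]
          have e3 : ∑ x ∈ X, ∑ y ∈ Y, ∑ z ∈ Z, T R b Q1 Q2 Q3 x y z = s := rfl
          rw [e3]
          simp only [Finset.sum_const, nsmul_eq_mul, mul_one]
          field_simp
      _ ≤ 1 / ((X.card : ℝ) * Y.card * Z.card) * (1 / b) * ((X.card : ℝ) * Y.card * Z.card) := by
          gcongr
          linarith
      _ = M * βr := by
          rw [hb]; field_simp

end Pool.Agent.Tri
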