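import Pool.Agent.Helper40_Tri.Defs
import Pool.Agent.Helper40_Tri.T1
import Pool.Agent.Helper40_Tri.T5
import Pool.Agent.Helper40_Tri.T6
import Pool.Agent.Helper40_Tri.T7
import Pool.Agent.Helper40_Tri.T8
import Pool.Agent.Helper40_Tri.T9

set_option autoImplicit false
open scoped BigOperators
open Finset

namespace Pool.Agent.Tri

variable {α β γ : Type*} [Fintype α] [Fintype β] [Fintype γ]

/-- T10: parametric main theorem. -/
theorem param [DecidableEq α] [DecidableEq β] [DecidableEq γ] (m : ℕ) (hm : 1 ≤ m)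
    (hα : Fintype.card α = m) (hβ : Fintype.card β = m) (hγ : Fintype.card γ = m)
    (P1 : Finset (α × β)) (P2 : Finset (α × γ)) (P3 : Finset (β × γ)) (R : Finset (α × β × γ))
    (M η u δ βr : ℝ) (k j s : ℕ) (hP : Params m M η u δ βr k j s)
    (hT : 2 / M * (m : ℝ) ^ 3 ≤ (Tri P1 P2 P3).card) (hR : (R.card : ℝ) ≤ βr * (m : ℝ) ^ 3) :
    ∃ (A : Finset α) (B : Finset β) (D : Finset γ), A.card = j ∧ B.card = s ∧ D.card = s ∧
      ∀ a ∈ A, ∀ b ∈ B, ∀ d ∈ D, (a, b) ∈ P1 ∧ (a, d) ∈ P2 ∧ (b, d) ∈ P3 ∧ (a, b, d) ∉ R := by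
  classical
  obtain ⟨hM, hη0, hη1, hk, hk2, hj, hs, hu, hu1, htail, hδ, hδ2, hjδ, hjη, hβr, hredn, hinjn,
    hkst⟩ := hP
  obtain ⟨p, q, r, t1, t2, t3, hp, hq, hr, hpμ, hqμ, hrμ, h10, h1M, h20, h2M, h30, h3M, hreg1,
    hreg2, hd1, hd2, htot, hP1, hP2, hP3, hred⟩ :=
    opt m hm hα hβ hγ P1 P2 P3 R M η βr hM hη0 (by linarith) hβr hT hR
  have hM0 : (0 : ℝ) < M := by linarith
  have hM1 : (1 : ℝ) ≤ M := by linarith
  set S : Finset β := univ.filter (fun y => |(∑ x, p x * t1 x y) - 1| ≤ 20 * η) with hSdef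
  set S' : Finset γ := univ.filter (fun z => |(∑ x, p x * t2 x z) - 1| ≤ 20 * η) with hS'def
  have hS : ∀ y, y ∈ S ↔ |(∑ x, p x * t1 x y) - 1| ≤ 20 * η := by
    intro y; rw [hSdef, mem_filter]; simp
  have hS' : ∀ z, z ∈ S' ↔ |(∑ x, p x * t2 x z) - 1| ≤ 20 * η := by
    intro z; rw [hS'def, mem_filter]; simp
  set G : Finset (β × γ) := univ.filter (fun e => e.1 ∈ S ∧ e.2 ∈ S' ∧
    |∑ x, p x * ((t1 x e.1 - 1) * (t2 x e.2 - 1))| ≤ δ) with hGdef
  have hG : ∀ y z, (y, z) ∈ G ↔ y ∈ S ∧ z ∈ S' ∧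
      |∑ x, p x * ((t1 x y - 1) * (t2 x z - 1))| ≤ δ := by
    intro y z; rw [hGdef, mem_filter]; simp
  have hGm := core p q r hp hq hr t1 t2 t3 M η u δ k hM hη0 hη1 h10 h1M hreg1 h20 h2M hreg2
    h30 h3M hd1 hd2 htot hk hk2 hu hu1 htail hδ hδ2 S S' hS hS' G hG
  -- N is close to 1 on G
  have hGN : ∀ e ∈ G, |(∑ x, p x * (t1 x e.1 * t2 x e.2)) - 1| ≤ δ + 40 * η := by
    rintro ⟨y, z⟩ he
    obtain ⟨h1, h2, h3⟩ := (hG y z).1 he
    rw [hS] at h1
    rw [hS'] at h2
    have hexp : ∑ x, p x * ((t1 x y - 1) * (t2 x z - 1)) =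
        (∑ x, p x * (t1 x y * t2 x z)) - (∑ x, p x * t1 x y) - (∑ x, p x * t2 x z) + 1 := by
      have h1' : ∑ x, p x = 1 := hp.sum_one
      calc ∑ x, p x * ((t1 x y - 1) * (t2 x z - 1))
          = ∑ x, (p x * (t1 x y * t2 x z) - p x * t1 x y - p x * t2 x z + p x) := by
            apply Finset.sum_congr rfl
            intro x _
            ring
        _ = _ := by
            rw [Finset.sum_add_distrib, Finset.sum_sub_distrib, Finset.sum_sub_distrib, h1']
    rw [hexp] at h3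
    rw [abs_le] at h1 h2 h3 ⊢
    constructor
    · simp only; linarith [h1.1, h2.1, h3.1]
    · simp only; linarith [h1.2, h2.2, h3.2]
  -- the moment bound
  set Q : ℝ := 1 + 4 * (M * Real.exp 20) with hQdef
  have hQ1 : 1 ≤ Q := by rw [hQdef]; have := Real.exp_pos 20; nlinarith
  have hC : M * (1 + 20 * η) ^ (1 / η) ≤ M * Real.exp 20 := by
    apply mul_le_mul_of_nonneg_left _ hM0.le
    have h1 : 1 + 20 * η ≤ Real.exp (20 * η) := by linarith [Real.add_one_le_exp (20 * η)]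
    calc (1 + 20 * η) ^ (1 / η) ≤ (Real.exp (20 * η)) ^ (1 / η) :=
          Real.rpow_le_rpow (by linarith) h1 (by positivity)
      _ = Real.exp 20 := by
          rw [← Real.exp_mul]; congr 1; field_simp
  have hQm : ∑ y ∈ S, ∑ z ∈ S', q y * r z * (∑ x, p x * (t1 x y * t2 x z)) ^ j ≤ Q := by
    rw [Finset.sum_comm]
    have hz : ∀ z ∈ S', ∑ y ∈ S, q y * r z * (∑ x, p x * (t1 x y * t2 x z)) ^ j ≤ r z * Q := by
      intro z hz
      rw [hS'] at hz
      have hN0 : ∀ y, 0 ≤ ∑ x, p x * (t1 x y * t2 x z) := fun y =>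
        Finset.sum_nonneg fun x _ => mul_nonneg (hp.nonneg x) (mul_nonneg (h10 x y) (h20 x z))
      have hmom := tail_moment q hq (fun y => ∑ x, p x * (t1 x y * t2 x z)) hN0
        (M * (1 + 20 * η) ^ (1 / η)) η j (by positivity) hη0 hj hjη (by
          intro w hw
          have := weak_type p q t1 hp hq M η (20 * η) hM1 hη0 (by linarith) (by linarith) h10 hreg1
            (fun x => t2 x z) (fun x => h20 x z) (fun x => h2M x z)
            (by rw [abs_le] at hz; linarith [hz.2])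
            (univ.filter (fun y => w ≤ ∑ x, p x * (t1 x y * t2 x z))) w (by linarith)
            (by intro y hy; rw [mem_filter] at hy; exact hy.2)
          refine le_trans this (le_of_eq ?_)
          rw [mul_assoc, ← Real.mul_rpow (by linarith) (by positivity)]
          congr 2
          rw [div_eq_mul_one_div])
      calc ∑ y ∈ S, q y * r z * (∑ x, p x * (t1 x y * t2 x z)) ^ j
          ≤ ∑ y, q y * r z * (∑ x, p x * (t1 x y * t2 x z)) ^ j := by
            apply Finset.sum_le_sum_of_subset_of_nonneg (Finset.subset_univ _)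
            intro y _ _
            exact mul_nonneg (mul_nonneg (hq.nonneg y) (hr.nonneg z)) (pow_nonneg (hN0 y) j)
        _ = r z * ∑ y, q y * (∑ x, p x * (t1 x y * t2 x z)) ^ j := by
            rw [Finset.mul_sum]
            apply Finset.sum_congr rfl; intro y _; ring
        _ ≤ r z * Q := by
            apply mul_le_mul_of_nonneg_left _ (hr.nonneg z)
            rw [hQdef]; linarith
    calc ∑ z ∈ S', ∑ y ∈ S, q y * r z * (∑ x, p x * (t1 x y * t2 x z)) ^ j
        ≤ ∑ z ∈ S', r z * Q := Finset.sum_le_sum hz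
      _ ≤ ∑ z, r z * Q := by
          apply Finset.sum_le_sum_of_subset_of_nonneg (Finset.subset_univ _)
          intro z _ _
          exact mul_nonneg (hr.nonneg z) (by linarith)
      _ = Q := by rw [← Finset.sum_mul, hr.sum_one, one_mul]
  -- red
  have hRl : ∑ x, ∑ y, ∑ z, (if (x, y, z) ∈ R then p x * q y * r z *
      (t1 x y * t2 x z * t3 y z) else 0) ≤ M ^ 4 * βr := by
    have hterm : ∀ x y z, (if (x, y, z) ∈ R then p x * q y * r z *
        (t1 x y * t2 x z * t3 y z) else 0) ≤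
        M ^ 3 * (if (x, y, z) ∈ R ∧ 0 < t1 x y ∧ 0 < t2 x z ∧ 0 < t3 y z then
        p x * q y * r z else 0) := by
      intro x y z
      have hw : 0 ≤ p x * q y * r z :=
        mul_nonneg (mul_nonneg (hp.nonneg x) (hq.nonneg y)) (hr.nonneg z)
      by_cases hRx : (x, y, z) ∈ R
      · rw [if_pos hRx]
        by_cases hpos : 0 < t1 x y ∧ 0 < t2 x z ∧ 0 < t3 y z
        · rw [if_pos ⟨hRx, hpos⟩, mul_comm]
          apply mul_le_mul_of_nonneg_right _ hw
          calc t1 x y * t2 x z * t3 y z ≤ M * M * M := by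
                apply mul_le_mul _ (h3M y z) (h30 y z) (by positivity)
                exact mul_le_mul (h1M x y) (h2M x z) (h20 x z) (by positivity)
            _ = M ^ 3 := by ring
        · rw [if_neg (fun h => hpos h.2)]
          have : t1 x y * t2 x z * t3 y z = 0 := by
            by_contra hne
            apply hpos
            have hne' : t1 x y * t2 x z ≠ 0 ∧ t3 y z ≠ 0 := mul_ne_zero_iff.1 hne
            have hne'' := mul_ne_zero_iff.1 hne'.1
            exact ⟨lt_of_le_of_ne (h10 x y) (Ne.symm hne''.1),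
              lt_of_le_of_ne (h20 x z) (Ne.symm hne''.2),
              lt_of_le_of_ne (h30 y z) (Ne.symm hne'.2)⟩
          rw [this]; simp
      · rw [if_neg hRx, if_neg (fun h => hRx h.1)]; simp
    calc ∑ x, ∑ y, ∑ z, (if (x, y, z) ∈ R then p x * q y * r z *
      (t1 x y * t2 x z * t3 y z) else 0) ≤ ∑ x, ∑ y, ∑ z, M ^ 3 *
        (if (x, y, z) ∈ R ∧ 0 < t1 x y ∧ 0 < t2 x z ∧ 0 < t3 y z then
        p x * q y * r z else 0) := Finset.sum_le_sum fun x _ => Finset.sum_le_sum fun y _ =>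
          Finset.sum_le_sum fun z _ => hterm x y z
      _ = M ^ 3 * ∑ x, ∑ y, ∑ z, (if (x, y, z) ∈ R ∧ 0 < t1 x y ∧ 0 < t2 x z ∧ 0 < t3 y z then
        p x * q y * r z else 0) := by simp only [Finset.mul_sum]
      _ ≤ M ^ 3 * (M * βr) := mul_le_mul_of_nonneg_left hred (by positivity)
      _ = M ^ 4 * βr := by ring
  obtain ⟨X, hXinj, hF1, hF2⟩ := sampling p q r hp hq hr t1 t2 t3 M (δ + 40 * η) Q
    (M ^ (1 / η) / m) (M ^ 4 * βr) j hM1 hQ1 hj h10 h1M h20 h2M h30 h3M hpμ S S' G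
    (by rintro ⟨y, z⟩ he; exact ⟨((hG y z).1 he).1, ((hG y z).1 he).2.1⟩)
    hGm hGN (by positivity) hjδ hQm (fun x y z => (x, y, z) ∈ R) hRl hredn hinjn
  -- names
  set G' : Finset (β × γ) := G.filter (fun e => ∀ i, ¬ (X i, e.1, e.2) ∈ R) with hG'def
  set ω : β → ℝ := fun y => ∏ i, t1 (X i) y with hωdef
  set ω' : γ → ℝ := fun z => ∏ i, t2 (X i) z with hω'def
  have hω0 : ∀ y, 0 ≤ ω y := fun y => Finset.prod_nonneg fun i _ => h10 _ _
  have hω'0 : ∀ z, 0 ≤ ω' z := fun z => Finset.prod_nonneg fun i _ => h20 _ _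
  have hωM : ∀ y, ω y ≤ M ^ j := by
    intro y
    calc ω y ≤ ∏ _i : Fin j, M := Finset.prod_le_prod (fun i _ => h10 _ _) (fun i _ => h1M _ _)
      _ = M ^ j := by simp
  have hω'M : ∀ z, ω' z ≤ M ^ j := by
    intro z
    calc ω' z ≤ ∏ _i : Fin j, M := Finset.prod_le_prod (fun i _ => h20 _ _) (fun i _ => h2M _ _)
      _ = M ^ j := by simp
  set F : ℝ := ∑ e ∈ G', q e.1 * r e.2 * t3 e.1 e.2 * (ω e.1 * ω' e.2) with hFdef
  set D1 : ℝ := ∑ y ∈ S, q y * ω y with hD1def
  set D2 : ℝ := ∑ z ∈ S', r z * ω' z with hD2def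
  have hF1' : 1 / 8 ≤ F := hF1
  have hF2' : D1 * D2 / (8 * Q) ≤ F := hF2
  have hD10 : 0 ≤ D1 := Finset.sum_nonneg fun y _ => mul_nonneg (hq.nonneg y) (hω0 y)
  have hD20 : 0 ≤ D2 := Finset.sum_nonneg fun z _ => mul_nonneg (hr.nonneg z) (hω'0 z)
  have hG'sub : G' ⊆ S ×ˢ S' := by
    rintro ⟨y, z⟩ he
    rw [hG'def, mem_filter, hG] at he
    rw [mem_product]
    exact ⟨he.1.1, he.1.2.1⟩
  have hsum_prod : ∑ e ∈ S ×ˢ S', (q e.1 * ω e.1) * (r e.2 * ω' e.2) = D1 * D2 := by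
    rw [Finset.sum_product, hD1def, hD2def, Finset.sum_mul_sum]
  have hFle : F ≤ M * (D1 * D2) := by
    rw [← hsum_prod, hFdef, Finset.mul_sum]
    calc ∑ e ∈ G', q e.1 * r e.2 * t3 e.1 e.2 * (ω e.1 * ω' e.2)
        ≤ ∑ e ∈ G', M * ((q e.1 * ω e.1) * (r e.2 * ω' e.2)) := by
          apply Finset.sum_le_sum
          intro e _
          have hw : 0 ≤ (q e.1 * ω e.1) * (r e.2 * ω' e.2) :=
            mul_nonneg (mul_nonneg (hq.nonneg _) (hω0 _)) (mul_nonneg (hr.nonneg _) (hω'0 _))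
          calc q e.1 * r e.2 * t3 e.1 e.2 * (ω e.1 * ω' e.2)
              = t3 e.1 e.2 * ((q e.1 * ω e.1) * (r e.2 * ω' e.2)) := by ring
            _ ≤ M * ((q e.1 * ω e.1) * (r e.2 * ω' e.2)) :=
              mul_le_mul_of_nonneg_right (h3M _ _) hw
      _ ≤ ∑ e ∈ S ×ˢ S', M * ((q e.1 * ω e.1) * (r e.2 * ω' e.2)) := by
          apply Finset.sum_le_sum_of_subset_of_nonneg hG'sub
          intro e _ _
          exact mul_nonneg hM0.le
            (mul_nonneg (mul_nonneg (hq.nonneg _) (hω0 _)) (mul_nonneg (hr.nonneg _) (hω'0 _)))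
  have hD1M : D1 ≤ M ^ j := by
    calc D1 ≤ ∑ y ∈ S, q y * M ^ j :=
          Finset.sum_le_sum fun y _ => mul_le_mul_of_nonneg_left (hωM y) (hq.nonneg y)
      _ ≤ ∑ y, q y * M ^ j := Finset.sum_le_sum_of_subset_of_nonneg (Finset.subset_univ _)
          fun y _ _ => mul_nonneg (hq.nonneg y) (by positivity)
      _ = M ^ j := by rw [← Finset.sum_mul, hq.sum_one, one_mul]
  have hD2M : D2 ≤ M ^ j := by
    calc D2 ≤ ∑ z ∈ S', r z * M ^ j :=
          Finset.sum_le_sum fun z _ => mul_le_mul_of_nonneg_left (hω'M z) (hr.nonneg z)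
      _ ≤ ∑ z, r z * M ^ j := Finset.sum_le_sum_of_subset_of_nonneg (Finset.subset_univ _)
          fun z _ _ => mul_nonneg (hr.nonneg z) (by positivity)
      _ = M ^ j := by rw [← Finset.sum_mul, hr.sum_one, one_mul]
  have hMj : (0 : ℝ) < M ^ j := by positivity
  have hD1low : 1 / (8 * M ^ (j + 1)) ≤ D1 := by
    have h1 : 1 / 8 ≤ M * (D1 * M ^ j) := by
      calc (1 : ℝ) / 8 ≤ F := hF1'
        _ ≤ M * (D1 * D2) := hFle
        _ ≤ M * (D1 * M ^ j) := by
          apply mul_le_mul_of_nonneg_left _ hM0.le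
          exact mul_le_mul_of_nonneg_left hD2M hD10
    rw [div_le_iff₀ (by positivity)]
    rw [pow_succ]
    nlinarith
  have hD2low : 1 / (8 * M ^ (j + 1)) ≤ D2 := by
    have h1 : 1 / 8 ≤ M * (M ^ j * D2) := by
      calc (1 : ℝ) / 8 ≤ F := hF1'
        _ ≤ M * (D1 * D2) := hFle
        _ ≤ M * (M ^ j * D2) := by
          apply mul_le_mul_of_nonneg_left _ hM0.le
          exact mul_le_mul_of_nonneg_right hD1M hD20
    rw [div_le_iff₀ (by positivity)]
    rw [pow_succ]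
    nlinarith
  have hD1pos : 0 < D1 := lt_of_lt_of_le (by positivity) hD1low
  have hD2pos : 0 < D2 := lt_of_lt_of_le (by positivity) hD2low
  set μ : ℝ := M ^ (1 / η) / m with hμdef
  have hmpos : (0 : ℝ) < m := by exact_mod_cast hm
  have hμ0 : 0 < μ := by rw [hμdef]; positivity
  set ν : β → ℝ := fun y => if y ∈ S then q y * ω y / D1 else 0 with hνdef
  set ν' : γ → ℝ := fun z => if z ∈ S' then r z * ω' z / D2 else 0 with hν'def
  have hνP : IsProb ν := by
    constructor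
    · intro y
      simp only [hνdef]
      split_ifs
      · exact div_nonneg (mul_nonneg (hq.nonneg y) (hω0 y)) hD10
      · exact le_refl _
    · simp only [hνdef]
      rw [Finset.sum_ite_mem, Finset.univ_inter, ← Finset.sum_div]
      exact div_self hD1pos.ne'
  have hν'P : IsProb ν' := by
    constructor
    · intro y
      simp only [hν'def]
      split_ifs
      · exact div_nonneg (mul_nonneg (hr.nonneg y) (hω'0 y)) hD20
      · exact le_refl _
    · simp only [hν'def]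
      rw [Finset.sum_ite_mem, Finset.univ_inter, ← Finset.sum_div]
      exact div_self hD2pos.ne'
  have hMμ : 8 * M ^ (2 * j + 1) * μ = μ * M ^ j / (1 / (8 * M ^ (j + 1))) := by
    have : M ^ (2 * j + 1) = M ^ j * M ^ (j + 1) := by rw [← pow_add]; congr 1; ring
    rw [this]; field_simp
  have hνle : ∀ y, ν y ≤ 8 * M ^ (2 * j + 1) * μ := by
    intro y
    simp only [hνdef]
    split_ifs
    · rw [hMμ]
      apply div_le_div₀ (by positivity) _ (by positivity) hD1low
      exact mul_le_mul (hqμ y) (hωM y) (hω0 y) hμ0.le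
    · positivity
  have hν'le : ∀ z, ν' z ≤ 8 * M ^ (2 * j + 1) * μ := by
    intro z
    simp only [hν'def]
    split_ifs
    · rw [hMμ]
      apply div_le_div₀ (by positivity) _ (by positivity) hD2low
      exact mul_le_mul (hrμ z) (hω'M z) (hω'0 z) hμ0.le
    · positivity
  set E : Finset (β × γ) := G'.filter (fun e => 0 < t3 e.1 e.2 ∧ 0 < ω e.1 ∧ 0 < ω' e.2) with hEdef
  have hEF : F = ∑ e ∈ E, q e.1 * r e.2 * t3 e.1 e.2 * (ω e.1 * ω' e.2) := by
    rw [hFdef, hEdef]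
    symm
    apply Finset.sum_filter_of_ne
    intro e _ hne
    have h1 := mul_ne_zero_iff.1 hne
    have h2 := mul_ne_zero_iff.1 h1.1
    have h3 := mul_ne_zero_iff.1 h1.2
    exact ⟨lt_of_le_of_ne (h30 _ _) (Ne.symm h2.2), lt_of_le_of_ne (hω0 _) (Ne.symm h3.1),
      lt_of_le_of_ne (hω'0 _) (Ne.symm h3.2)⟩
  have hEsum : 1 / (8 * M * Q) ≤ ∑ e ∈ E, ν e.1 * ν' e.2 := by
    have h1 : F / (M * (D1 * D2)) ≤ ∑ e ∈ E, ν e.1 * ν' e.2 := by
      rw [hEF, Finset.sum_div]
      apply Finset.sum_le_sum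
      intro e he
      have heS : e.1 ∈ S ∧ e.2 ∈ S' := by
        have := hG'sub (Finset.filter_subset _ _ he)
        rwa [mem_product] at this
      simp only [hνdef, hν'def]
      rw [if_pos heS.1, if_pos heS.2]
      have hw : 0 ≤ (q e.1 * ω e.1) * (r e.2 * ω' e.2) :=
        mul_nonneg (mul_nonneg (hq.nonneg _) (hω0 _)) (mul_nonneg (hr.nonneg _) (hω'0 _))
      calc q e.1 * r e.2 * t3 e.1 e.2 * (ω e.1 * ω' e.2) / (M * (D1 * D2))
          = t3 e.1 e.2 * ((q e.1 * ω e.1) * (r e.2 * ω' e.2)) / (M * (D1 * D2)) := by ring_nf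
        _ ≤ M * ((q e.1 * ω e.1) * (r e.2 * ω' e.2)) / (M * (D1 * D2)) := by
            apply div_le_div_of_nonneg_right _ (by positivity)
            exact mul_le_mul_of_nonneg_right (h3M _ _) hw
        _ = q e.1 * ω e.1 / D1 * (r e.2 * ω' e.2 / D2) := by field_simp
    refine le_trans ?_ h1
    rw [div_le_div_iff₀ (by positivity) (by positivity)]
    have h2 : D1 * D2 ≤ F * (8 * Q) := by
      rwa [div_le_iff₀ (by positivity)] at hF2'
    nlinarith
  obtain ⟨B, D, hB, hD, hBD⟩ := kst ν ν' hνP hν'P (8 * M ^ (2 * j + 1) * μ) (1 / (8 * M * Q)) s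
    hνle hν'le E (by positivity) hEsum hs (by rw [hQdef]; exact hkst)
  refine ⟨univ.image X, B, D, ?_, hB, hD, ?_⟩
  · rw [Finset.card_image_of_injective _ hXinj]; simp
  · intro a ha b hb d hd
    rw [mem_image] at ha
    obtain ⟨i, _, rfl⟩ := ha
    have hE' := hBD b hb d hd
    rw [hEdef, mem_filter, hG'def, mem_filter] at hE'
    obtain ⟨⟨_, hnR⟩, ht3, hωb, hω'd⟩ := hE'
    refine ⟨hP1 _ _ ?_, hP2 _ _ ?_, hP3 _ _ ht3, hnR i⟩
    · refine lt_of_le_of_ne (h10 _ _) (fun h0 => ?_)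
      have : ω b = 0 := Finset.prod_eq_zero (Finset.mem_univ i) h0.symm
      simp only at hωb
      linarith
    · refine lt_of_le_of_ne (h20 _ _) (fun h0 => ?_)
      have : ω' d = 0 := Finset.prod_eq_zero (Finset.mem_univ i) h0.symm
      simp only at hω'd
      linarith

end Pool.Agent.Tri
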