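import Pool.Agent.Helper40_Tri.Defs

/-!
Module T11 of MP_185e9d_co: the numerical parameters exist for large `m`.
-/

set_option autoImplicit false
open scoped BigOperators
open Finset

namespace Pool.Agent.Tri

theorem asymp_ev (K a : ℝ) (ha : 0 < a) :
    ∀ᶠ L : ℝ in Filter.atTop, K * (Real.log L) ^ 2 ≤ L ^ a := by
  have h := isLittleO_log_rpow_rpow_atTop 2 ha
  have h2 := h.bound (c := 1 / (|K| + 1)) (by positivity)
  filter_upwards [h2, Filter.eventually_gt_atTop 1] with L hL hL1
  have hl : 0 < Real.log L := Real.log_pos hL1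
  have hLa : 0 < L ^ a := Real.rpow_pos_of_pos (by linarith) a
  rw [Real.norm_of_nonneg (Real.rpow_nonneg hl.le _), Real.norm_of_nonneg hLa.le,
    Real.rpow_two] at hL
  have hK : 0 < |K| + 1 := by positivity
  have h3 : (|K| + 1) * (Real.log L) ^ 2 ≤ L ^ a := by
    have := mul_le_mul_of_nonneg_left hL hK.le
    calc (|K| + 1) * (Real.log L) ^ 2 ≤ (|K| + 1) * (1 / (|K| + 1) * L ^ a) := this
      _ = L ^ a := by field_simp
  have h4 : K * (Real.log L) ^ 2 ≤ (|K| + 1) * (Real.log L) ^ 2 := by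
    apply mul_le_mul_of_nonneg_right _ (by positivity)
    have := le_abs_self K
    linarith
  linarith

/-- the deterministic part; `x = L ^ (ε / 4)`. -/
theorem asymp_det (C k m : ℕ) (L x lM : ℝ) (hk : Even k) (hk2 : 2 ≤ k)
    (hL : Real.log m = L) (hLbig : 1000000 ≤ L) (hLk : 240 * 2 ^ (k - 1) ≤ L)
    (hlM : lM = Real.log (2 * L ^ C))
    (hx1 : 500 * lM ≤ x) (hx0 : 1000 ≤ x)
    (hx2 : 8 * lM * ((2 * k + 1) * lM + 20 + k * Real.log L) ≤ x)
    (hx3 : x ^ 4 ≤ L) (hx4 : L ^ (C + 3) ≤ x ^ k) :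
    Params m (2 * L ^ C) (4 * lM / L) (x / L) (x ^ 2 / L) (1 / L ^ (5 * C + 5)) k
      ⌈L / x ^ 4⌉₊ ⌈L / x ^ 4⌉₊ := by
  have hL0 : 0 < L := by linarith
  have hx00 : 0 < x := by linarith
  have hLC : 1 ≤ L ^ C := one_le_pow₀ (by linarith)
  have hM2 : (2 : ℝ) ≤ 2 * L ^ C := by linarith
  have hM0 : (0 : ℝ) < 2 * L ^ C := by linarith
  have hlMpos : 0 < lM := by rw [hlM]; exact Real.log_pos (by linarith)
  have hexpM : Real.exp lM = 2 * L ^ C := by rw [hlM, Real.exp_log hM0]
  have hm : (m : ℝ) = Real.exp L := by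
    rw [← hL, Real.exp_log]
    by_contra h
    push Not at h
    have : (m : ℝ) = 0 := le_antisymm h (Nat.cast_nonneg _)
    rw [this, Real.log_zero] at hL
    linarith
  set M : ℝ := 2 * L ^ C with hMdef
  set η : ℝ := 4 * lM / L with hη
  have hη0 : 0 < η := by positivity
  have hMη : M ^ (1 / η) = Real.exp (L / 4) := by
    rw [← hexpM, ← Real.exp_mul]
    congr 1
    rw [hη]
    field_simp
  have hMm : M ^ (1 / η) / m = Real.exp (-(3 * L / 4)) := by
    rw [hMη, hm, ← Real.exp_sub]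
    congr 1
    ring
  have h2x : 2 * x ≤ L := by
    have h1 : (2 : ℝ) * x ≤ x ^ 4 := by
      have : (2 : ℝ) ≤ x ^ 3 := by
        have : (1000 : ℝ) ^ 3 ≤ x ^ 3 := pow_le_pow_left₀ (by norm_num) hx0 3
        linarith [this]
      calc (2 : ℝ) * x ≤ x ^ 3 * x := mul_le_mul_of_nonneg_right this hx00.le
        _ = x ^ 4 := by ring
    linarith
  have h40 : 40 * η ≤ x / L := by
    rw [hη]
    rw [show 40 * (4 * lM / L) = 160 * lM / L by ring]
    apply div_le_div_of_nonneg_right _ hL0.le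
    linarith
  have hxx : x ≤ x ^ 2 := by
    rw [pow_two]
    calc x = 1 * x := (one_mul x).symm
      _ ≤ x * x := mul_le_mul_of_nonneg_right (by linarith) hx00.le
  have h40' : 40 * η ≤ x ^ 2 / L := h40.trans (div_le_div_of_nonneg_right hxx hL0.le)
  have hx4pos : 0 < x ^ 4 := by positivity
  have hjx0 : 1 ≤ L / x ^ 4 := by
    rw [le_div_iff₀ hx4pos]
    linarith
  set j : ℕ := ⌈L / x ^ 4⌉₊ with hj
  have hj1 : 1 ≤ j := by
    rw [hj]
    exact Nat.one_le_ceil_iff.mpr (by linarith)
  have hjr1 : (1 : ℝ) ≤ j := by exact_mod_cast hj1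
  have hjx : (j : ℝ) ≤ 2 * (L / x ^ 4) := by
    have := Nat.ceil_lt_add_one (show 0 ≤ L / x ^ 4 by positivity)
    rw [← hj] at this
    linarith
  have hjL : (j : ℝ) ≤ 2 * L := by
    refine hjx.trans ?_
    have : L / x ^ 4 ≤ L := by
      apply div_le_self hL0.le
      exact one_le_pow₀ (by linarith)
    linarith
  have hxsq : (1000000 : ℝ) ≤ x ^ 2 := by
    have : (1000 : ℝ) ^ 2 ≤ x ^ 2 := pow_le_pow_left₀ (by norm_num) hx0 2
    linarith [this]
  have hjδ : (j : ℝ) * (x ^ 2 / L + 40 * η) ≤ 1 / 2 := by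
    have h1 : x ^ 2 / L + 40 * η ≤ 2 * (x ^ 2 / L) := by linarith
    calc (j : ℝ) * (x ^ 2 / L + 40 * η) ≤ (2 * (L / x ^ 4)) * (2 * (x ^ 2 / L)) := by
          apply mul_le_mul hjx h1 (by positivity) (by positivity)
      _ = 4 / x ^ 2 := by
          field_simp
          ring
      _ ≤ 1 / 2 := by
          rw [div_le_div_iff₀ (by positivity) (by norm_num)]
          linarith
  -- j * lM is small compared with L
  have hjlM : (j : ℝ) * lM ≤ L / 250 / x ^ 3 := by
    calc (j : ℝ) * lM ≤ (2 * (L / x ^ 4)) * (x / 500) := by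
          apply mul_le_mul hjx (by linarith) hlMpos.le (by positivity)
      _ = L / 250 / x ^ 3 := by
          field_simp
          ring
  have hx3big : (1000000000 : ℝ) ≤ x ^ 3 := by
    have : (1000 : ℝ) ^ 3 ≤ x ^ 3 := pow_le_pow_left₀ (by norm_num) hx0 3
    linarith [this]
  have hjlM' : (j : ℝ) * lM ≤ L / 1000 := by
    refine hjlM.trans ?_
    rw [div_div, div_le_div_iff₀ (by positivity) (by norm_num)]
    apply mul_le_mul_of_nonneg_left _ hL0.le
    linarith
  have hlM1 : lM ≤ L / 1000 := by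
    refine le_trans ?_ hjlM'
    calc lM = 1 * lM := (one_mul _).symm
      _ ≤ j * lM := mul_le_mul_of_nonneg_right hjr1 hlMpos.le
  have hjL1000 : (j : ℝ) ≤ L / 1000 := by
    refine hjx.trans ?_
    have h1 : L / x ^ 4 ≤ L / 2000 := by
      apply div_le_div_of_nonneg_left hL0.le (by norm_num)
      have : x ^ 3 * 1 ≤ x ^ 3 * x := mul_le_mul_of_nonneg_left (by linarith) (by positivity)
      have h2 : x ^ 3 * x = x ^ 4 := by ring
      linarith
    linarith
  have hMj : M ^ (2 * j + 1) ≤ Real.exp (L / 16) := by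
    rw [← hexpM, ← Real.exp_nat_mul]
    apply Real.exp_le_exp.mpr
    push_cast
    nlinarith [hjlM', hlM1]
  have hexp8 : 1000 * L ^ 2 ≤ Real.exp (L / 4) := by
    have h1 := Real.pow_div_factorial_le_exp (L / 4) (by positivity) 3
    refine le_trans ?_ h1
    have : ((3 : ℕ).factorial : ℝ) = 6 := by norm_num [Nat.factorial]
    rw [this]
    have h2 : (L / 4) ^ 3 / 6 = L ^ 2 * (L / 384) := by ring
    rw [h2]
    rw [mul_comm]
    apply mul_le_mul_of_nonneg_left _ (by positivity)
    linarith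
  refine
    { hM := hM2
      hη0 := hη0
      hη1 := ?_
      hk := hk
      hk2 := hk2
      hj := hj1
      hs := hj1
      hu := by positivity
      hu1 := ?_
      htail := ?_
      hδ := by positivity
      hδ2 := ?_
      hjδ := hjδ
      hjη := ?_
      hβ := by positivity
      hred := ?_
      hinj := ?_
      hkst := ?_ }
  · have : x / L ≤ 1 := by rw [div_le_one hL0]; linarith
    linarith
  · have : x / L ≤ 1 / 2 := by rw [div_le_div_iff₀ hL0 (by norm_num)]; linarith
    linarith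
  · -- tail
    have hu0 : 0 < x / L := by positivity
    have hu12 : x / L ≤ 1 / 2 := by rw [div_le_div_iff₀ hL0 (by norm_num)]; linarith
    have hl1' : Real.log (1 + 20 * η) ≤ 20 * η := by
      have := Real.log_le_sub_one_of_pos (show 0 < 1 + 20 * η by positivity)
      linarith
    have hl2 : x / L / 2 ≤ Real.log (1 + x / L) := by
      have h1 := Real.one_sub_inv_le_log_of_pos (show 0 < 1 + x / L by positivity)
      refine le_trans ?_ h1
      have h2 : 1 - (1 + x / L)⁻¹ = (x / L) / (1 + x / L) := by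
        field_simp
        ring
      rw [h2]
      apply div_le_div_of_nonneg_left hu0.le (by positivity)
      linarith
    have hl3 : Real.log ((1 + 20 * η) / (1 + x / L)) ≤ 20 * η - x / L / 2 := by
      rw [Real.log_div (by positivity) (by positivity)]
      linarith
    have hratio : 0 < (1 + 20 * η) / (1 + x / L) := by positivity
    have e1 : ((1 + 20 * η) / (1 + x / L)) ^ (1 / η) ≤ Real.exp (20 - x / (8 * lM)) := by
      rw [Real.rpow_def_of_pos hratio]
      apply Real.exp_le_exp.mpr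
      calc Real.log ((1 + 20 * η) / (1 + x / L)) * (1 / η)
          ≤ (20 * η - x / L / 2) * (1 / η) :=
            mul_le_mul_of_nonneg_right hl3 (by positivity)
        _ = 20 - x / (8 * lM) := by
            rw [hη]
            field_simp
            ring
    have e2 : M ^ (2 * k + 1) = Real.exp ((2 * k + 1) * lM) := by
      rw [← hexpM, ← Real.exp_nat_mul]
      push_cast
      rfl
    have e3 : (x / L) ^ k = Real.exp (k * (Real.log x - Real.log L)) := by
      rw [Real.exp_nat_mul, Real.exp_sub, Real.exp_log hx00, Real.exp_log hL0]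
    rw [e2, e3]
    calc Real.exp ((2 * k + 1) * lM) * ((1 + 20 * η) / (1 + x / L)) ^ (1 / η)
        ≤ Real.exp ((2 * k + 1) * lM) * Real.exp (20 - x / (8 * lM)) :=
          mul_le_mul_of_nonneg_left e1 (Real.exp_pos _).le
      _ = Real.exp ((2 * k + 1) * lM + (20 - x / (8 * lM))) := by rw [Real.exp_add]
      _ ≤ _ := by
          apply Real.exp_le_exp.mpr
          have h4 : (2 * k + 1) * lM + 20 + k * Real.log L ≤ x / (8 * lM) := by
            rw [le_div_iff₀ (by positivity)]
            linarith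
          have h5 : 0 ≤ (k : ℝ) * Real.log x :=
            mul_nonneg (Nat.cast_nonneg _) (Real.log_nonneg (by linarith))
          linarith
  · obtain ⟨n, rfl⟩ : ∃ n, k = n + 1 := ⟨k - 1, by omega⟩
    rw [Nat.add_sub_cancel] at hLk ⊢
    have h1 : (x / L + 40 * η) ^ n ≤ (2 * (x / L)) ^ n := by
      apply pow_le_pow_left₀ (by positivity)
      linarith
    have h2 : (2 * (x / L)) ^ n / (x ^ 2 / L) ^ (n + 1) = 2 ^ n * L / (x ^ (n + 1) * x) := by
      rw [mul_pow, div_pow, div_pow]
      field_simp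
      ring
    have h3 : (2 : ℝ) ^ n * L / (x ^ (n + 1) * x) ≤ 2 ^ n * L / L ^ (C + 3) := by
      apply div_le_div_of_nonneg_left (by positivity) (by positivity)
      calc L ^ (C + 3) ≤ x ^ (n + 1) := hx4
        _ = x ^ (n + 1) * 1 := (mul_one _).symm
        _ ≤ x ^ (n + 1) * x := mul_le_mul_of_nonneg_left (by linarith) (by positivity)
    have h4 : 6 * (2 ^ n * L / L ^ (C + 3)) ≤ 1 / (20 * M) := by
      rw [← mul_div_assoc, div_le_div_iff₀ (by positivity) (by positivity), hMdef]
      have h5 : (240 : ℝ) * 2 ^ n ≤ L ^ 2 := by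
        calc (240 : ℝ) * 2 ^ n ≤ L := hLk
          _ = L * 1 := (mul_one _).symm
          _ ≤ L * L := mul_le_mul_of_nonneg_left (by linarith) hL0.le
          _ = L ^ 2 := by ring
      calc 6 * (2 ^ n * L) * (20 * (2 * L ^ C)) = (240 * 2 ^ n) * (L * L ^ C) := by ring
        _ ≤ L ^ 2 * (L * L ^ C) := mul_le_mul_of_nonneg_right h5 (by positivity)
        _ = 1 * L ^ (C + 3) := by ring
    calc 6 * (x / L + 40 * η) ^ n / (x ^ 2 / L) ^ (n + 1)
        ≤ 6 * (2 * (x / L)) ^ n / (x ^ 2 / L) ^ (n + 1) := by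
          apply div_le_div_of_nonneg_right _ (by positivity)
          linarith
      _ = 6 * ((2 * (x / L)) ^ n / (x ^ 2 / L) ^ (n + 1)) := by ring
      _ ≤ 6 * (2 ^ n * L / L ^ (C + 3)) := by
          rw [h2]
          linarith
      _ ≤ _ := h4
  · have h1 : (0 : ℝ) ≤ (j : ℝ) * (x ^ 2 / L) := by positivity
    have h2 : (j : ℝ) * (x ^ 2 / L + 40 * η) = j * (x ^ 2 / L) + 20 * (2 * j * η) := by ring
    linarith
  · have h1 : M ^ 4 * (1 / L ^ (5 * C + 5)) ≤ 16 / L ^ 5 := by
      rw [mul_one_div, div_le_div_iff₀ (by positivity) (by positivity), hMdef]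
      have h2 : L ^ (4 * C) ≤ L ^ (5 * C) := pow_le_pow_right₀ (by linarith) (by omega)
      calc (2 * L ^ C) ^ 4 * L ^ 5 = 16 * (L ^ (4 * C) * L ^ 5) := by ring
        _ ≤ 16 * (L ^ (5 * C) * L ^ 5) := by
            apply mul_le_mul_of_nonneg_left _ (by norm_num)
            exact mul_le_mul_of_nonneg_right h2 (by positivity)
        _ = 16 * L ^ (5 * C + 5) := by ring
    calc 2 * (j : ℝ) * (M ^ 4 * (1 / L ^ (5 * C + 5))) ≤ 2 * (2 * L) * (16 / L ^ 5) := by
          apply mul_le_mul (by linarith) h1 (by positivity) (by positivity)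
      _ = 64 / L ^ 4 := by
          field_simp
          ring
      _ ≤ 1 / 16 := by
          rw [div_le_div_iff₀ (by positivity) (by norm_num)]
          have : (1000000 : ℝ) ^ 4 ≤ L ^ 4 := pow_le_pow_left₀ (by norm_num) hLbig 4
          linarith [this]
  · rw [hMm]
    have hj2 : (j : ℝ) ^ 2 ≤ 4 * L ^ 2 := by
      calc (j : ℝ) ^ 2 ≤ (2 * L) ^ 2 := pow_le_pow_left₀ (by positivity) hjL 2
        _ = 4 * L ^ 2 := by ring
    have hj3 : (j : ℝ) ^ 2 ≤ Real.exp (L / 4) / 250 := by linarith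
    calc M ^ (2 * j + 1) * ((j : ℝ) ^ 2 * Real.exp (-(3 * L / 4)))
        ≤ Real.exp (L / 16) * (Real.exp (L / 4) / 250 * Real.exp (-(3 * L / 4))) := by
          apply mul_le_mul hMj _ (by positivity) (Real.exp_pos _).le
          exact mul_le_mul_of_nonneg_right hj3 (Real.exp_pos _).le
      _ = Real.exp (L / 16) * Real.exp (L / 4) * Real.exp (-(3 * L / 4)) / 250 := by ring
      _ = Real.exp (L / 16 + L / 4 + (-(3 * L / 4))) / 250 := by
          rw [Real.exp_add, Real.exp_add]
      _ ≤ 1 / 16 := by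
          have : Real.exp (L / 16 + L / 4 + (-(3 * L / 4))) ≤ 1 := by
            apply Real.exp_le_one_iff.mpr
            linarith
          linarith
  · rw [hMm]
    have hj2 : (j : ℝ) ^ 2 + j ≤ 6 * L ^ 2 := by
      have h1 : (j : ℝ) ^ 2 ≤ (2 * L) ^ 2 := pow_le_pow_left₀ (by positivity) hjL 2
      have h2 : (j : ℝ) ≤ 2 * L ^ 2 := by
        refine hjL.trans ?_
        have : L * 1 ≤ L * L := mul_le_mul_of_nonneg_left (by linarith) hL0.le
        nlinarith
      nlinarith
    have hj3 : ((j : ℝ) ^ 2 + j) * 8 ≤ Real.exp (L / 4) := by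
      have : 0 ≤ L ^ 2 := by positivity
      linarith
    have hlhs : ((j : ℝ) ^ 2 + j) * (8 * M ^ (2 * j + 1) * Real.exp (-(3 * L / 4))) ≤
        Real.exp (-(L / 16)) := by
      calc ((j : ℝ) ^ 2 + j) * (8 * M ^ (2 * j + 1) * Real.exp (-(3 * L / 4)))
          = (((j : ℝ) ^ 2 + j) * 8) * M ^ (2 * j + 1) * Real.exp (-(3 * L / 4)) := by ring
        _ ≤ Real.exp (L / 4) * Real.exp (L / 16) * Real.exp (-(3 * L / 4)) := by
            apply mul_le_mul_of_nonneg_right _ (Real.exp_pos _).le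
            exact mul_le_mul hj3 hMj (by positivity) (Real.exp_pos _).le
        _ = Real.exp (L / 4 + L / 16 + (-(3 * L / 4))) := by
            rw [Real.exp_add, Real.exp_add]
        _ ≤ _ := by
            apply Real.exp_le_exp.mpr
            linarith
    refine hlhs.trans ?_
    have hden : 8 * M * (1 + 4 * (M * Real.exp 20)) ≤ Real.exp (25 + 2 * lM) := by
      have h8 : (8 : ℝ) ≤ Real.exp 3 := by
        have := Real.add_one_le_exp (1 : ℝ)
        have h3 : Real.exp 3 = Real.exp 1 * Real.exp 1 * Real.exp 1 := by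
          rw [← Real.exp_add, ← Real.exp_add]; norm_num
        rw [h3]
        have h2 : (2 : ℝ) ≤ Real.exp 1 := by linarith
        nlinarith [mul_le_mul h2 h2 (by norm_num) (by positivity)]
      have h5 : (5 : ℝ) ≤ Real.exp 2 := by
        have h := Real.exp_one_gt_d9
        have h3 : Real.exp 2 = Real.exp 1 * Real.exp 1 := by
          rw [← Real.exp_add]; norm_num
        rw [h3]
        nlinarith
      have h20 : (1 : ℝ) ≤ Real.exp 20 := Real.one_le_exp (by norm_num)
      have hM20 : 1 ≤ M * Real.exp 20 := by nlinarith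
      calc 8 * M * (1 + 4 * (M * Real.exp 20)) ≤ Real.exp 3 * M * (Real.exp 2 * (M * Real.exp 20)) := by
            apply mul_le_mul _ _ (by positivity) (by positivity)
            · exact mul_le_mul_of_nonneg_right h8 (by positivity)
            · calc 1 + 4 * (M * Real.exp 20) ≤ 5 * (M * Real.exp 20) := by linarith
                _ ≤ Real.exp 2 * (M * Real.exp 20) :=
                    mul_le_mul_of_nonneg_right h5 (by positivity)
        _ = Real.exp 3 * Real.exp lM * (Real.exp 2 * (Real.exp lM * Real.exp 20)) := by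
            rw [hexpM]
        _ = Real.exp (3 + lM + (2 + (lM + 20))) := by
            rw [Real.exp_add, Real.exp_add, Real.exp_add 2, Real.exp_add lM]
        _ = Real.exp (25 + 2 * lM) := by ring_nf
    have hden0 : 0 < 8 * M * (1 + 4 * (M * Real.exp 20)) := by positivity
    calc Real.exp (-(L / 16)) ≤ Real.exp (-(j * (25 + 2 * lM))) := by
          apply Real.exp_le_exp.mpr
          nlinarith
      _ = (Real.exp (-(25 + 2 * lM))) ^ j := by
          rw [← Real.exp_nat_mul]
          ring_nf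
      _ ≤ _ := by
          apply pow_le_pow_left₀ (Real.exp_pos _).le
          rw [Real.exp_neg, one_div]
          exact inv_anti₀ hden0 hden

/-- T11: the parameters exist for large m. -/
theorem asymp (C : ℕ) (ε : ℝ) (hε : 0 < ε) (hε1 : ε < 1) :
    ∃ N : ℕ, ∀ m : ℕ, N ≤ m → 1 < Real.log m ∧ ∃ (η u δ : ℝ) (k j s : ℕ),
      Params m (2 * Real.log m ^ C) η u δ (1 / Real.log m ^ (5 * C + 5)) k j s ∧
      Real.log m ^ (1 - ε) ≤ j ∧ Real.log m ^ (1 - ε) ≤ s := by
  obtain ⟨k₀, hk₀⟩ := exists_nat_ge (10 * ((C : ℝ) + 3) / ε)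
  set k : ℕ := 2 * (k₀ + 1) with hk
  have hkε : 4 * ((C : ℝ) + 3) ≤ k * ε := by
    have h1 : 10 * ((C : ℝ) + 3) ≤ k₀ * ε := by
      rwa [div_le_iff₀ hε] at hk₀
    have h2 : (k : ℝ) = 2 * (k₀ + 1) := by rw [hk]; push_cast; ring
    rw [h2]
    have h3 : 0 ≤ (C : ℝ) := Nat.cast_nonneg _
    have h4 : 0 ≤ (k₀ : ℝ) := Nat.cast_nonneg _
    nlinarith
  set c : ℝ := (C : ℝ) + 1 with hc
  have hc1 : 1 ≤ c := by
    have : (0 : ℝ) ≤ C := Nat.cast_nonneg _
    linarith
  set K₁ : ℝ := 1000 * c + 8 * c * ((2 * k + 1) * c + 20 + k) with hK₁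
  have hev := asymp_ev K₁ (ε / 4) (by positivity)
  have hall : ∀ᶠ L : ℝ in Filter.atTop, 1000000 ≤ L ∧ 240 * 2 ^ (k - 1) ≤ L ∧
      1 ≤ Real.log L ∧ K₁ * (Real.log L) ^ 2 ≤ L ^ (ε / 4) := by
    filter_upwards [Filter.eventually_ge_atTop (1000000 : ℝ),
      Filter.eventually_ge_atTop (240 * 2 ^ (k - 1) : ℝ),
      Real.tendsto_log_atTop.eventually_ge_atTop 1, hev] with L h1 h2 h3 h4
    exact ⟨h1, h2, h3, h4⟩
  have hall2 := (Real.tendsto_log_atTop.comp tendsto_natCast_atTop_atTop).eventually hall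
  obtain ⟨N, hN⟩ := Filter.eventually_atTop.mp hall2
  refine ⟨N, fun m hm => ?_⟩
  obtain ⟨h1, h2, h3, h4⟩ := hN m hm
  simp only [Function.comp_apply] at h1 h2 h3 h4
  set L : ℝ := Real.log m with hL
  refine ⟨by linarith, ?_⟩
  set x : ℝ := L ^ (ε / 4) with hx
  have hL0 : 0 < L := by linarith
  have hL1 : 1 ≤ L := by linarith
  have hx0 : 0 < x := Real.rpow_pos_of_pos hL0 _
  set lM : ℝ := Real.log (2 * L ^ C) with hlM
  have hlM' : lM ≤ c * Real.log L := by
    rw [hlM, Real.log_mul (by norm_num) (by positivity), Real.log_pow, hc]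
    have : Real.log 2 ≤ 1 := by
      have := Real.log_le_sub_one_of_pos (show (0 : ℝ) < 2 by norm_num)
      linarith
    linarith
  have hlM0 : 0 ≤ lM := by
    rw [hlM]
    apply Real.log_nonneg
    have : 1 ≤ L ^ C := one_le_pow₀ hL1
    linarith
  have hll : Real.log L ≤ (Real.log L) ^ 2 := by nlinarith
  have hk0 : (0 : ℝ) ≤ k := Nat.cast_nonneg _
  have hA : (8 * c * ((2 * k + 1) * c + 20 + k)) * (Real.log L) ^ 2 ≤ x := by
    refine le_trans ?_ h4
    rw [hK₁]
    have : 0 ≤ 1000 * c * (Real.log L) ^ 2 := by positivity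
    linarith
  have hB : 1000 * c * (Real.log L) ^ 2 ≤ x := by
    refine le_trans ?_ h4
    rw [hK₁]
    have : 0 ≤ (8 * c * ((2 * k + 1) * c + 20 + k)) * (Real.log L) ^ 2 := by positivity
    linarith
  have hBl : 1000 * (c * Real.log L) ≤ x := by
    refine le_trans ?_ hB
    have : c * Real.log L ≤ c * (Real.log L) ^ 2 := mul_le_mul_of_nonneg_left hll (by linarith)
    linarith
  have hx4 : x ^ 4 = L ^ ε := by
    rw [hx, ← Real.rpow_natCast, ← Real.rpow_mul hL0.le]
    congr 1
    push_cast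
    ring
  have hxk : L ^ (C + 3) ≤ x ^ k := by
    rw [hx, ← Real.rpow_natCast (L ^ (ε / 4)), ← Real.rpow_mul hL0.le, ← Real.rpow_natCast]
    apply Real.rpow_le_rpow_of_exponent_le hL1
    push_cast
    nlinarith
  have hjs : L ^ (1 - ε) = L / x ^ 4 := by
    rw [hx4, Real.rpow_sub hL0, Real.rpow_one]
  refine ⟨_, _, _, k, _, _, asymp_det C k m L x lM ⟨k₀ + 1, by omega⟩ (by omega) hL.symm h1 h2
    hlM ?_ ?_ ?_ ?_ hxk, ?_, ?_⟩
  · linarith
  · have : 1 ≤ c * Real.log L := by nlinarith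
    linarith
  · refine le_trans ?_ hA
    have h5 : (2 * k + 1) * lM + 20 + k * Real.log L ≤
        ((2 * k + 1) * c + 20 + k) * Real.log L := by
      have := mul_le_mul_of_nonneg_left hlM' (show (0:ℝ) ≤ 2 * k + 1 by linarith)
      nlinarith
    calc 8 * lM * ((2 * k + 1) * lM + 20 + k * Real.log L)
        ≤ 8 * (c * Real.log L) * (((2 * k + 1) * c + 20 + k) * Real.log L) := by
          apply mul_le_mul (by linarith) h5 (by positivity) (by positivity)
      _ = _ := by ring
  · rw [hx4]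
    calc L ^ ε ≤ L ^ (1 : ℝ) := Real.rpow_le_rpow_of_exponent_le hL1 hε1.le
      _ = L := Real.rpow_one L
  · rw [hjs]
    exact Nat.le_ceil _
  · rw [hjs]
    exact Nat.le_ceil _

end Pool.Agent.Tri
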