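import Pool.Agent.Helper40_Tri.Defs

/-!
T12: the embedding step.
-/

set_option autoImplicit false
open scoped BigOperators
open Finset

namespace Pool.Agent.Tri

/-- replace three coordinates of a tuple -/
def upd3 {k m : ℕ} (a b c : Fin k) (x : Fin k → Fin m) (e : Fin m × Fin m × Fin m) :
    Fin k → Fin m :=
  fun i => if i = a then e.1 else if i = b then e.2.1 else if i = c then e.2.2 else x i

theorem upd3_upd3 {k m : ℕ} (a b c : Fin k) (x : Fin k → Fin m) (e : Fin m × Fin m × Fin m) :
    upd3 a b c (upd3 a b c x e) (x a, x b, x c) = x := by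
  funext i
  simp only [upd3]
  split_ifs with h1 h2 h3
  · rw [h1]
  · rw [h2]
  · rw [h3]
  · rfl

/-- the number of pairs (tuple, new coordinates) landing in `S` -/
theorem sum_upd3 {k m : ℕ} (a b c : Fin k) (hab : a ≠ b) (hac : a ≠ c) (hbc : b ≠ c)
    (S : Finset (Fin k → Fin m)) :
    ∑ x : Fin k → Fin m, (univ.filter (fun e => upd3 a b c x e ∈ S)).card = m ^ 3 * S.card := by
  classical
  have h1 : ∑ x : Fin k → Fin m, (univ.filter (fun e => upd3 a b c x e ∈ S)).card
      = ((univ : Finset ((Fin k → Fin m) × (Fin m × Fin m × Fin m))).filter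
          (fun p => upd3 a b c p.1 p.2 ∈ S)).card := by
    simp only [Finset.card_filter]
    rw [Fintype.sum_prod_type]
  have h2 : m ^ 3 * S.card = ((univ : Finset ((Fin k → Fin m) × (Fin m × Fin m × Fin m))).filter
          (fun p => p.1 ∈ S)).card := by
    have : (univ : Finset ((Fin k → Fin m) × (Fin m × Fin m × Fin m))).filter
          (fun p => p.1 ∈ S) = S ×ˢ univ := by
      ext p; simp
    rw [this, Finset.card_product]
    simp only [Finset.card_univ, Fintype.card_prod, Fintype.card_fin]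
    ring
  rw [h1, h2]
  have hinv : ∀ p : (Fin k → Fin m) × (Fin m × Fin m × Fin m),
      (upd3 a b c (upd3 a b c p.1 p.2) (p.1 a, p.1 b, p.1 c),
        (upd3 a b c p.1 p.2 a, upd3 a b c p.1 p.2 b, upd3 a b c p.1 p.2 c)) = p := by
    intro p
    rw [upd3_upd3]
    refine Prod.ext rfl ?_
    simp [upd3, hab.symm, hac.symm, hbc.symm]
  refine Finset.card_nbij' (fun p => (upd3 a b c p.1 p.2, (p.1 a, p.1 b, p.1 c)))
    (fun p => (upd3 a b c p.1 p.2, (p.1 a, p.1 b, p.1 c))) ?_ ?_ ?_ ?_
  · intro p hp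
    simpa using hp
  · intro p hp
    simp only [coe_filter, mem_univ, true_and, Set.mem_ofPred_eq] at hp ⊢
    rw [upd3_upd3]; exact hp
  · intro p _
    exact hinv p
  · intro p _
    exact hinv p

theorem image_upd3 {k n m : ℕ} (g : Fin k → Fin m → Fin n) (a b c : Fin k) (hab : a ≠ b)
    (hac : a ≠ c) (hbc : b ≠ c) (x : Fin k → Fin m) (u v w : Fin m) :
    ({a, b, c} : Finset (Fin k)).image (fun i => g i (upd3 a b c x (u, v, w) i))
      = {g a u, g b v, g c w} := by
  simp [Finset.image_insert, upd3, hab.symm, hac.symm, hbc.symm]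

/-- T12: the embedding step. -/
theorem embed (k n m : ℕ) (hm : 1 ≤ m) (H : Finset (Finset (Fin k))) (G : Finset (Finset (Fin n)))
    (g : Fin k → Fin m → Fin n) (hg : ∀ i x i' x', g i x = g i' x' → i = i' ∧ x = x')
    (hfree : ¬ ∃ f : Fin k ↪ Fin n, ∀ s : Finset (Fin k), s.card = 3 → (s ∈ H ↔ s.map f ∈ G))
    (τ : ℕ → ℝ) (hτ0 : τ 0 ≤ 1) (hτ : ∀ i, 0 < τ i) :
    ∃ i, i ≤ 2 ^ k ∧ ∃ a b c : Fin k, a ≠ b ∧ a ≠ c ∧ b ≠ c ∧
      ∃ (P1 P2 P3 : Finset (Fin m × Fin m)) (R : Finset (Fin m × Fin m × Fin m)) (col : Prop),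
        τ i / 2 * (m : ℝ) ^ 3 ≤ (Tri P1 P2 P3).card ∧
        (R.card : ℝ) ≤ 2 * τ (i + 1) / τ i * (m : ℝ) ^ 3 ∧
        ∀ x y z, (x, y) ∈ P1 → (x, z) ∈ P2 → (y, z) ∈ P3 → (x, y, z) ∉ R →
          (({g a x, g b y, g c z} : Finset (Fin n)) ∈ G ↔ col) := by
  classical
  -- enumeration of the triples
  set T : Finset (Finset (Fin k)) := (univ : Finset (Fin k)).powersetCard 3 with hT
  set L := T.card with hL
  have hLk : L ≤ 2 ^ k := by
    rw [hL, hT, Finset.card_powersetCard, Finset.card_univ, Fintype.card_fin]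
    exact Nat.choose_le_two_pow k 3
  obtain ⟨E, hE1, hE2, hE3⟩ : ∃ E : ℕ → Finset (Fin k), (∀ i < L, (E i).card = 3) ∧
      (∀ i < L, ∀ j < L, E i = E j → i = j) ∧
      (∀ e : Finset (Fin k), e.card = 3 → ∃ i < L, E i = e) := by
    refine ⟨fun i => if h : i < L then ((T.equivFin.symm ⟨i, h⟩ : T) : Finset (Fin k)) else ∅,
      ?_, ?_, ?_⟩
    · intro i hi
      simp only [hi, dif_pos]
      have := (T.equivFin.symm ⟨i, hi⟩).2
      exact (Finset.mem_powersetCard.1 this).2
    · intro i hi j hj hij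
      simp only [hi, hj, dif_pos] at hij
      have h1 := Subtype.ext hij
      have h2 := T.equivFin.symm.injective h1
      simpa using h2
    · intro e he
      have heT : e ∈ T := by
        rw [hT, Finset.mem_powersetCard]; exact ⟨Finset.subset_univ _, he⟩
      refine ⟨(T.equivFin ⟨e, heT⟩ : Fin T.card), (T.equivFin ⟨e, heT⟩).2, ?_⟩
      have : ((T.equivFin ⟨e, heT⟩ : Fin T.card) : ℕ) < L := (T.equivFin ⟨e, heT⟩).2
      simp only [this, dif_pos]
      simp
  -- right triples
  let right : Finset (Fin k) → (Fin k → Fin m) → Prop := fun e x =>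
    (e ∈ H ↔ e.image (fun i => g i (x i)) ∈ G)
  have hcongr : ∀ (e : Finset (Fin k)) (x y : Fin k → Fin m), (∀ i ∈ e, x i = y i) →
      (right e x ↔ right e y) := by
    intro e x y hxy
    have : e.image (fun i => g i (x i)) = e.image (fun i => g i (y i)) := by
      apply Finset.image_congr
      intro i hi
      simp only [hxy i hi]
    simp only [right, this]
  let N : ℕ → Finset (Fin k → Fin m) := fun s => univ.filter (fun x => ∀ i < s, right (E i) x)
  have hN0 : ((N 0).card : ℝ) = (m : ℝ) ^ k := by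
    have : N 0 = univ := by
      ext x; simp [N]
    rw [this, Finset.card_univ, Fintype.card_fun, Fintype.card_fin, Fintype.card_fin]
    push_cast; rfl
  have hNL : (N L).card = 0 := by
    rw [Finset.card_eq_zero, Finset.eq_empty_iff_forall_notMem]
    intro x hx
    have hx' := (Finset.mem_filter.1 hx).2
    apply hfree
    refine ⟨⟨fun i => g i (x i), fun i j hij => (hg _ _ _ _ hij).1⟩, ?_⟩
    intro s hs
    obtain ⟨i, hi, rfl⟩ := hE3 s hs
    have := hx' i hi
    simp only [right] at this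
    rw [Finset.map_eq_image]
    exact this
  have hmk : (0 : ℝ) < (m : ℝ) ^ k := by
    have : (0 : ℝ) < m := by exact_mod_cast hm
    positivity
  have hex : ∃ s, ((N s).card : ℝ) < τ s * (m : ℝ) ^ k := by
    refine ⟨L, ?_⟩
    rw [hNL]; push_cast
    exact mul_pos (hτ _) hmk
  have hs0 : Nat.find hex ≠ 0 := by
    intro h0
    have := Nat.find_spec hex
    rw [h0, hN0] at this
    nlinarith
  have hsL : Nat.find hex ≤ L := by
    apply Nat.find_min' hex
    rw [hNL]; push_cast
    exact mul_pos (hτ _) hmk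
  obtain ⟨s, hs⟩ := Nat.exists_eq_succ_of_ne_zero hs0
  have hs1 : ((N (s + 1)).card : ℝ) < τ (s + 1) * (m : ℝ) ^ k := by
    have := Nat.find_spec hex
    rw [hs] at this
    exact this
  have hs2 : τ s * (m : ℝ) ^ k ≤ ((N s).card : ℝ) := by
    have := Nat.find_min hex (m := s) (by omega)
    exact not_lt.1 this
  have hsL' : s < L := by omega
  obtain ⟨a, b, c, hab, hac, hbc, hEs⟩ := Finset.card_eq_three.1 (hE1 s hsL')
  refine ⟨s, by omega, a, b, c, hab, hac, hbc, ?_⟩
  -- choice of the base tuple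
  let Tx : (Fin k → Fin m) → Finset (Fin m × Fin m × Fin m) := fun x =>
    univ.filter (fun e => upd3 a b c x e ∈ N s)
  let Rx : (Fin k → Fin m) → Finset (Fin m × Fin m × Fin m) := fun x =>
    univ.filter (fun e => upd3 a b c x e ∈ N (s + 1))
  set lam : ℝ := τ s / (2 * τ (s + 1)) with hlam
  have hτs := hτ s
  have hτs1 := hτ (s + 1)
  have hlam0 : 0 < lam := by positivity
  have hm0 : (0 : ℝ) < m := by exact_mod_cast hm
  have hsumT : ∑ x : Fin k → Fin m, ((Tx x).card : ℝ) = (m : ℝ) ^ 3 * (N s).card := by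
    have := sum_upd3 a b c hab hac hbc (N s)
    exact_mod_cast this
  have hsumR : ∑ x : Fin k → Fin m, ((Rx x).card : ℝ) = (m : ℝ) ^ 3 * (N (s + 1)).card := by
    have := sum_upd3 a b c hab hac hbc (N (s + 1))
    exact_mod_cast this
  have hxe : ∃ x : Fin k → Fin m, τ s / 2 * (m : ℝ) ^ 3 ≤ (Tx x).card - lam * (Rx x).card := by
    by_contra hcon
    push Not at hcon
    have h1 : ∑ x : Fin k → Fin m, (((Tx x).card : ℝ) - lam * (Rx x).card)
        ≤ ∑ _x : Fin k → Fin m, τ s / 2 * (m : ℝ) ^ 3 :=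
      Finset.sum_le_sum (fun x _ => (hcon x).le)
    rw [Finset.sum_sub_distrib, ← Finset.mul_sum, hsumT, hsumR, Finset.sum_const, Finset.card_univ,
      Fintype.card_fun, Fintype.card_fin, Fintype.card_fin, nsmul_eq_mul] at h1
    push_cast at h1
    have h2 : lam * ((m : ℝ) ^ 3 * ((N (s + 1)).card : ℝ))
        < lam * ((m : ℝ) ^ 3 * (τ (s + 1) * (m : ℝ) ^ k)) := by
      apply mul_lt_mul_of_pos_left _ hlam0
      apply mul_lt_mul_of_pos_left hs1
      positivity
    have h3 : lam * ((m : ℝ) ^ 3 * (τ (s + 1) * (m : ℝ) ^ k))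
        = τ s / 2 * ((m : ℝ) ^ 3 * (m : ℝ) ^ k) := by
      rw [hlam]; field_simp
    have h4 : (m : ℝ) ^ 3 * (τ s * (m : ℝ) ^ k) ≤ (m : ℝ) ^ 3 * ((N s).card : ℝ) := by
      apply mul_le_mul_of_nonneg_left hs2
      positivity
    nlinarith
  obtain ⟨x, hx⟩ := hxe
  have hTx3 : ((Tx x).card : ℝ) ≤ (m : ℝ) ^ 3 := by
    have h1 : (Tx x).card ≤ m ^ 3 := by
      calc (Tx x).card ≤ (univ : Finset (Fin m × Fin m × Fin m)).card := Finset.card_filter_le _ _
        _ = m ^ 3 := by
          rw [Finset.card_univ]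
          simp only [Fintype.card_prod, Fintype.card_fin]
          ring
    exact_mod_cast h1
  have hR0 : (0 : ℝ) ≤ (Rx x).card := Nat.cast_nonneg _
  let P1 : Finset (Fin m × Fin m) := univ.filter (fun p =>
    ∀ i < s, c ∉ E i → right (E i) (upd3 a b c x (p.1, p.2, x c)))
  let P2 : Finset (Fin m × Fin m) := univ.filter (fun p =>
    ∀ i < s, b ∉ E i → right (E i) (upd3 a b c x (p.1, x b, p.2)))
  let P3 : Finset (Fin m × Fin m) := univ.filter (fun p =>
    ∀ i < s, a ∉ E i → right (E i) (upd3 a b c x (x a, p.1, p.2)))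
  have hk1 : ∀ (e : Finset (Fin k)) (u v w w' : Fin m), c ∉ e →
      (right e (upd3 a b c x (u, v, w)) ↔ right e (upd3 a b c x (u, v, w'))) := by
    intro e u v w w' hc
    apply hcongr
    intro i hi
    have : i ≠ c := by rintro rfl; exact hc hi
    simp [upd3, this]
  have hk2 : ∀ (e : Finset (Fin k)) (u v v' w : Fin m), b ∉ e →
      (right e (upd3 a b c x (u, v, w)) ↔ right e (upd3 a b c x (u, v', w))) := by
    intro e u v v' w hb
    apply hcongr
    intro i hi
    have : i ≠ b := by rintro rfl; exact hb hi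
    simp [upd3, this]
  have hk3 : ∀ (e : Finset (Fin k)) (u u' v w : Fin m), a ∉ e →
      (right e (upd3 a b c x (u, v, w)) ↔ right e (upd3 a b c x (u', v, w))) := by
    intro e u u' v w ha
    apply hcongr
    intro i hi
    have : i ≠ a := by rintro rfl; exact ha hi
    simp [upd3, this]
  have hTri : Tri P1 P2 P3 = Tx x := by
    ext ⟨u, v, w⟩
    simp only [Tri, Tx, N, P1, P2, P3, Finset.mem_filter, Finset.mem_univ, true_and]
    constructor
    · rintro ⟨h1, h2, h3⟩ i hi
      have hmiss : c ∉ E i ∨ b ∉ E i ∨ a ∉ E i := by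
        by_contra hcon
        push Not at hcon
        obtain ⟨hc, hb, ha⟩ := hcon
        have hsub : E s ⊆ E i := by
          rw [hEs]
          intro y hy
          simp only [Finset.mem_insert, Finset.mem_singleton] at hy
          rcases hy with rfl | rfl | rfl <;> assumption
        have heq : E s = E i := by
          apply Finset.eq_of_subset_of_card_le hsub
          rw [hE1 s hsL', hE1 i (by omega)]
        have := hE2 s hsL' i (by omega) heq
        omega
      rcases hmiss with hc | hb | ha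
      · exact (hk1 _ _ _ _ _ hc).1 (h1 i hi hc)
      · exact (hk2 _ _ _ _ _ hb).1 (h2 i hi hb)
      · exact (hk3 _ _ _ _ _ ha).1 (h3 i hi ha)
    · intro h
      refine ⟨fun i hi hc => ?_, fun i hi hb => ?_, fun i hi ha => ?_⟩
      · exact (hk1 _ _ _ _ _ hc).1 (h i hi)
      · exact (hk2 _ _ _ _ _ hb).1 (h i hi)
      · exact (hk3 _ _ _ _ _ ha).1 (h i hi)
  refine ⟨P1, P2, P3, Rx x, E s ∉ H, ?_, ?_, ?_⟩
  · rw [hTri]
    have : 0 ≤ lam * ((Rx x).card : ℝ) := by positivity
    linarith
  · have h1 : 0 ≤ τ s / 2 * (m : ℝ) ^ 3 := by positivity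
    have h2 : lam * ((Rx x).card : ℝ) ≤ (m : ℝ) ^ 3 := by linarith
    have h3 : 2 * τ (s + 1) / τ s * (lam * ((Rx x).card : ℝ)) = ((Rx x).card : ℝ) := by
      rw [hlam]; field_simp
    rw [← h3]
    apply mul_le_mul_of_nonneg_left h2
    positivity
  · intro u v w h1 h2 h3 hR
    have hmem : (u, v, w) ∈ Tx x := by
      rw [← hTri]
      simp only [Tri, Finset.mem_filter, Finset.mem_univ, true_and]
      exact ⟨h1, h2, h3⟩
    have hNs : ∀ i < s, right (E i) (upd3 a b c x (u, v, w)) := by
      have := (Finset.mem_filter.1 hmem).2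
      exact (Finset.mem_filter.1 this).2
    have hnot : ¬ right (E s) (upd3 a b c x (u, v, w)) := by
      intro hr
      apply hR
      simp only [Rx, N, Finset.mem_filter, Finset.mem_univ, true_and]
      intro i hi
      rcases Nat.lt_succ_iff_lt_or_eq.1 hi with h | h
      · exact hNs i h
      · rw [h]; exact hr
    have himg : (E s).image (fun i => g i (upd3 a b c x (u, v, w) i)) = {g a u, g b v, g c w} := by
      rw [hEs]
      exact image_upd3 g a b c hab hac hbc x u v w
    simp only [right, himg] at hnot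
    tauto

end Pool.Agent.Tri
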