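import Pool.Agent.Helper40_Tri.T10
import Pool.Agent.Helper40_Tri.T11
import Pool.Agent.Helper40_Tri.T12

set_option autoImplicit false
open scoped BigOperators
open Finset

namespace Pool.Agent.Tri

theorem main (C : ℕ) (ε : ℝ) (hε : 0 < ε) (hε1 : ε < 1) : ∃ N : ℕ, ∀ m : ℕ, N ≤ m →
    ∀ (P1 P2 P3 : Finset (Fin m × Fin m)) (R : Finset (Fin m × Fin m × Fin m)),
    (m : ℝ) ^ 3 / Real.log m ^ C ≤ (Tri P1 P2 P3).card →
    (R.card : ℝ) ≤ (m : ℝ) ^ 3 / Real.log m ^ (5 * C + 5) →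
    ∃ A B D : Finset (Fin m), Real.log m ^ (1 - ε) ≤ A.card ∧ Real.log m ^ (1 - ε) ≤ B.card ∧
      Real.log m ^ (1 - ε) ≤ D.card ∧
      ∀ a ∈ A, ∀ b ∈ B, ∀ d ∈ D, (a, b) ∈ P1 ∧ (a, d) ∈ P2 ∧ (b, d) ∈ P3 ∧ (a, b, d) ∉ R := by
  obtain ⟨N, hN⟩ := asymp C ε hε hε1
  refine ⟨max N 1, fun m hm P1 P2 P3 R hT hR => ?_⟩
  obtain ⟨hlog, η, u, δ, k, j, s, hP, hj, hs⟩ := hN m (le_trans (le_max_left _ _) hm)
  have hl0 : (0 : ℝ) < Real.log m ^ C := by positivity
  obtain ⟨A, B, D, hA, hB, hD, h⟩ := param (α := Fin m) (β := Fin m) (γ := Fin m) m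
    (le_trans (le_max_right _ _) hm) (Fintype.card_fin m) (Fintype.card_fin m)
    (Fintype.card_fin m) P1 P2 P3 R _ η u δ _ k j s hP
    (by
      refine le_trans (le_of_eq ?_) hT
      field_simp) (by
      refine le_trans hR (le_of_eq ?_)
      field_simp)
  exact ⟨A, B, D, by rw [hA]; exact hj, by rw [hB]; exact hs, by rw [hD]; exact hs, h⟩

/-- exponents of the thresholds -/
def cexp : ℕ → ℕ
  | 0 => 0
  | n + 1 => 6 * cexp n + 11

theorem final :
    ∀ (k : ℕ) (H : Finset (Finset (Fin k))), (∀ e ∈ H, e.card = 3) →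
    ∀ ε : ℝ, 0 < ε → ∃ N : ℕ, ∀ n : ℕ, N ≤ n →
    ∀ G : Finset (Finset (Fin n)), (∀ e ∈ G, e.card = 3) →
    (¬ ∃ f : Fin k ↪ Fin n, ∀ s : Finset (Fin k), s.card = 3 → (s ∈ H ↔ s.map f ∈ G)) →
    ∃ A B C : Finset (Fin n), Disjoint A B ∧ Disjoint A C ∧ Disjoint B C ∧
      (Real.log (n : ℝ)) ^ (1 - ε) ≤ (A.card : ℝ) ∧
      (Real.log (n : ℝ)) ^ (1 - ε) ≤ (B.card : ℝ) ∧
      (Real.log (n : ℝ)) ^ (1 - ε) ≤ (C.card : ℝ) ∧
      ((∀ a ∈ A, ∀ b ∈ B, ∀ c ∈ C, ({a, b, c} : Finset (Fin n)) ∈ G) ∨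
       (∀ a ∈ A, ∀ b ∈ B, ∀ c ∈ C, ({a, b, c} : Finset (Fin n)) ∉ G)) := by
  intro k H hH ε hε
  rcases Nat.eq_zero_or_pos k with hk0 | hk0
  · subst hk0
    refine ⟨0, fun n _ G _ hfree => ?_⟩
    exfalso
    apply hfree
    refine ⟨⟨fun x => x.elim0, fun x => x.elim0⟩, fun s hs => ?_⟩
    have : s.card ≤ Fintype.card (Fin 0) := Finset.card_le_univ s
    simp at this
    simp [this] at hs
  -- reduce the exponent
  set ε0 : ℝ := min ε (1 / 2) with hε0
  have hε0p : 0 < ε0 := by rw [hε0]; exact lt_min hε (by norm_num)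
  have hε01 : ε0 ≤ 1 / 2 := min_le_right _ _
  have hε0ε : ε0 ≤ ε := min_le_left _ _
  have hmain : ∀ i : ℕ, ∃ N : ℕ, ∀ m : ℕ, N ≤ m →
    ∀ (P1 P2 P3 : Finset (Fin m × Fin m)) (R : Finset (Fin m × Fin m × Fin m)),
    (m : ℝ) ^ 3 / Real.log m ^ (cexp i + 1) ≤ (Tri P1 P2 P3).card →
    (R.card : ℝ) ≤ (m : ℝ) ^ 3 / Real.log m ^ (5 * (cexp i + 1) + 5) →
    ∃ A B D : Finset (Fin m), Real.log m ^ (1 - ε0 / 2) ≤ A.card ∧
      Real.log m ^ (1 - ε0 / 2) ≤ B.card ∧
      Real.log m ^ (1 - ε0 / 2) ≤ D.card ∧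
      ∀ a ∈ A, ∀ b ∈ B, ∀ d ∈ D, (a, b) ∈ P1 ∧ (a, d) ∈ P2 ∧ (b, d) ∈ P3 ∧ (a, b, d) ∉ R :=
    fun i => main (cexp i + 1) (ε0 / 2) (by linarith) (by linarith)
  choose Nf hNf using hmain
  -- a bound for all stages
  obtain ⟨N1, hN1⟩ : ∃ N1 : ℕ, ∀ i, i ≤ 2 ^ k → Nf i ≤ N1 := by
    refine ⟨(Finset.range (2 ^ k + 1)).sup Nf, fun i hi => ?_⟩
    exact Finset.le_sup (f := Nf) (Finset.mem_range.2 (by omega))
  -- logarithm of m is large
  obtain ⟨N2, hN2⟩ : ∃ N2 : ℕ, ∀ m : ℕ, N2 ≤ m → 2 ≤ Real.log m ∧ 2 ≤ Real.log m ^ (ε0 / 2) := by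
    have h1 : Filter.Tendsto (fun m : ℕ => Real.log (m : ℝ)) Filter.atTop Filter.atTop :=
      Real.tendsto_log_atTop.comp tendsto_natCast_atTop_atTop
    have h2 : Filter.Tendsto (fun m : ℕ => Real.log (m : ℝ) ^ (ε0 / 2)) Filter.atTop Filter.atTop :=
      (tendsto_rpow_atTop (by linarith : 0 < ε0 / 2)).comp h1
    have h3 := (h1.eventually_ge_atTop 2).and (h2.eventually_ge_atTop 2)
    rw [Filter.eventually_atTop] at h3
    exact h3
  refine ⟨k * (N1 + N2 + 2 * k + 2), fun n hn G hG hfree => ?_⟩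
  set m : ℕ := n / k with hm
  have hmbig : N1 + N2 + 2 * k + 2 ≤ m := by
    rw [hm]
    exact (Nat.le_div_iff_mul_le hk0).2 (by rw [mul_comm]; exact hn)
  have hkm : k * m ≤ n := Nat.mul_div_le n k
  have hnm : n < k * (m + 1) := by
    rw [hm]; exact Nat.lt_mul_div_succ n hk0
  have hm1 : 1 ≤ m := by omega
  obtain ⟨hlog2, hlogε⟩ := hN2 m (by omega)
  have hmpos : (0 : ℝ) < m := by exact_mod_cast hm1
  -- the embedding of the parts
  have hlt : ∀ (i : Fin k) (x : Fin m), i.val * m + x.val < n := by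
    intro i x
    have h1 : (i.val + 1) * m ≤ k * m := Nat.mul_le_mul_right m i.isLt
    have h2 := x.isLt
    nlinarith
  let g : Fin k → Fin m → Fin n := fun i x => ⟨i.val * m + x.val, hlt i x⟩
  have hg : ∀ i x i' x', g i x = g i' x' → i = i' ∧ x = x' := by
    intro i x i' x' h
    have h1 : i.val * m + x.val = i'.val * m + x'.val := by
      have := congrArg Fin.val h
      simpa [g] using this
    have h2 : i.val = i'.val := by
      have e1 : (i.val * m + x.val) / m = i.val := by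
        rw [mul_comm, Nat.mul_add_div (by omega), Nat.div_eq_of_lt x.isLt]; simp
      have e2 : (i'.val * m + x'.val) / m = i'.val := by
        rw [mul_comm, Nat.mul_add_div (by omega), Nat.div_eq_of_lt x'.isLt]; simp
      rw [← e1, ← e2, h1]
    refine ⟨Fin.ext h2, Fin.ext ?_⟩
    rw [h2] at h1
    omega
  have hL0 : (0 : ℝ) < Real.log m := by linarith
  obtain ⟨i, hi, a, b, c, hab, hac, hbc, P1, P2, P3, R, col, hT, hR, hcol⟩ :=
    embed k n m hm1 H G g hg hfree (fun i => 1 / Real.log m ^ cexp i)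
      (by simp [cexp]) (fun i => by positivity)
  have hm3 : (0 : ℝ) < (m : ℝ) ^ 3 := by positivity
  obtain ⟨A, B, D, hA, hB, hD, h⟩ := hNf i m (by have := hN1 i hi; omega) P1 P2 P3 R
    (by
      refine le_trans ?_ hT
      rw [div_eq_mul_one_div, mul_comm]
      apply mul_le_mul_of_nonneg_right _ hm3.le
      rw [pow_succ, div_div]
      apply one_div_le_one_div_of_le (by positivity)
      apply mul_le_mul_of_nonneg_left hlog2 (by positivity))
    (by
      refine le_trans hR ?_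
      rw [div_eq_mul_one_div ((m : ℝ) ^ 3), mul_comm ((m : ℝ) ^ 3)]
      apply mul_le_mul_of_nonneg_right _ hm3.le
      have e1 : cexp (i + 1) = (5 * (cexp i + 1) + 5) + (cexp i + 1) := by
        simp [cexp]; ring
      have e2 : 2 * (1 / Real.log m ^ cexp (i + 1)) / (1 / Real.log m ^ cexp i) =
          (2 / Real.log m) * (1 / Real.log m ^ (5 * (cexp i + 1) + 5)) := by
        rw [e1, pow_add]
        field_simp
        ring
      rw [e2]
      have : 2 / Real.log m ≤ 1 := by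
        rw [div_le_one hL0]; exact hlog2
      calc (2 / Real.log m) * (1 / Real.log m ^ (5 * (cexp i + 1) + 5))
          ≤ 1 * (1 / Real.log m ^ (5 * (cexp i + 1) + 5)) :=
            mul_le_mul_of_nonneg_right this (by positivity)
        _ = _ := one_mul _)
  -- comparison of the logarithms
  have hlogn : Real.log n ≤ 2 * Real.log m := by
    have h1 : (n : ℝ) ≤ (m : ℝ) ^ 2 := by
      have : n ≤ m ^ 2 := by nlinarith
      exact_mod_cast this
    have hn0 : (0 : ℝ) < n := by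
      have : 0 < n := by nlinarith
      exact_mod_cast this
    calc Real.log n ≤ Real.log ((m : ℝ) ^ 2) := Real.log_le_log hn0 h1
      _ = 2 * Real.log m := by rw [Real.log_pow]; norm_num
  have hlogn1 : 1 ≤ Real.log n := by
    have : Real.log m ≤ Real.log n := by
      apply Real.log_le_log hmpos
      have : m ≤ n := Nat.div_le_self n k
      exact_mod_cast this
    linarith
  have hsize : Real.log n ^ (1 - ε) ≤ Real.log m ^ (1 - ε0 / 2) := by
    calc Real.log n ^ (1 - ε) ≤ Real.log n ^ (1 - ε0) :=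
          Real.rpow_le_rpow_of_exponent_le hlogn1 (by linarith)
      _ ≤ (2 * Real.log m) ^ (1 - ε0) :=
          Real.rpow_le_rpow (by linarith) hlogn (by linarith)
      _ = 2 ^ (1 - ε0) * Real.log m ^ (1 - ε0) := Real.mul_rpow (by norm_num) hL0.le
      _ ≤ 2 ^ (1 : ℝ) * Real.log m ^ (1 - ε0) := by
          apply mul_le_mul_of_nonneg_right _ (by positivity)
          exact Real.rpow_le_rpow_of_exponent_le (by norm_num) (by linarith)
      _ = 2 * Real.log m ^ (1 - ε0) := by rw [Real.rpow_one]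
      _ ≤ Real.log m ^ (ε0 / 2) * Real.log m ^ (1 - ε0) :=
          mul_le_mul_of_nonneg_right hlogε (by positivity)
      _ = Real.log m ^ (1 - ε0 / 2) := by
          rw [← Real.rpow_add hL0]; congr 1; ring
  have hinj : ∀ i, Function.Injective (g i) := fun i x x' h => (hg i x i x' h).2
  have hdisj : ∀ (i i' : Fin k) (X Y : Finset (Fin m)), i ≠ i' →
      Disjoint (X.image (g i)) (Y.image (g i')) := by
    intro i i' X Y hii
    rw [Finset.disjoint_left]
    intro x hx hy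
    rw [Finset.mem_image] at hx hy
    obtain ⟨u, _, hu⟩ := hx
    obtain ⟨w, _, hw⟩ := hy
    exact hii (hg i u i' w (by rw [hu, hw])).1
  refine ⟨A.image (g a), B.image (g b), D.image (g c), hdisj a b A B hab, hdisj a c A D hac,
    hdisj b c B D hbc, ?_, ?_, ?_, ?_⟩
  · rw [Finset.card_image_of_injective _ (hinj a)]; exact le_trans hsize hA
  · rw [Finset.card_image_of_injective _ (hinj b)]; exact le_trans hsize hB
  · rw [Finset.card_image_of_injective _ (hinj c)]; exact le_trans hsize hD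
  · have hkey : ∀ x ∈ A.image (g a), ∀ y ∈ B.image (g b), ∀ z ∈ D.image (g c),
        (({x, y, z} : Finset (Fin n)) ∈ G ↔ col) := by
      intro x hx y hy z hz
      rw [Finset.mem_image] at hx hy hz
      obtain ⟨u, hu, rfl⟩ := hx
      obtain ⟨v, hv, rfl⟩ := hy
      obtain ⟨w, hw, rfl⟩ := hz
      obtain ⟨h1, h2, h3, h4⟩ := h u hu v hv w hw
      exact hcol u v w h1 h2 h3 h4
    by_cases hc : col
    · left
      intro x hx y hy z hz
      exact (hkey x hx y hy z hz).2 hc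
    · right
      intro x hx y hy z hz hmem
      exact hc ((hkey x hx y hy z hz).1 hmem)

end Pool.Agent.Tri
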